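import Pool.Agent.H50.BP.Stm

/-!
# Project BP: `S_CEQ`.
-/

set_option autoImplicit false

open MeasureTheory Filter ProbabilityTheory
open scoped Topology ENNReal

namespace Pool.Agent.H50.BP

open Pool.Agent.H50.BF

namespace CeqAux

lemma MM_split (w Z : ℕ) (h : w ≤ Z) :
    MM Z = MM w * ∏ p ∈ (Finset.Ioc w Z).filter Nat.Prime, (1 - (p : ℝ)⁻¹)⁻¹ := by
  unfold MM
  rw [← Finset.prod_union]
  · congr 1
    ext p
    simp only [Finset.mem_filter, Finset.mem_Icc, Finset.mem_union, Finset.mem_Ioc]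
    constructor
    · rintro ⟨⟨h1, h2⟩, h3⟩
      by_cases h4 : p ≤ w
      · exact Or.inl ⟨⟨h1, h4⟩, h3⟩
      · exact Or.inr ⟨⟨by omega, h2⟩, h3⟩
    · rintro (⟨⟨h1, h2⟩, h3⟩ | ⟨⟨h1, h2⟩, h3⟩)
      · exact ⟨⟨h1, by omega⟩, h3⟩
      · exact ⟨⟨by omega, h2⟩, h3⟩
  · rw [Finset.disjoint_left]
    intro p hp hq
    simp only [Finset.mem_filter, Finset.mem_Icc, Finset.mem_Ioc] at hp hq
    omega

lemma fac_pos {p : ℕ} (hp : p.Prime) : 0 < 1 - (p : ℝ)⁻¹ := by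
  have h2 : (2 : ℝ) ≤ p := by exact_mod_cast hp.two_le
  have h3 : (p : ℝ)⁻¹ ≤ 2⁻¹ := inv_anti₀ (by norm_num) h2
  norm_num at h3
  linarith

lemma MM_pos (N : ℕ) : 0 < MM N :=
  Finset.prod_pos fun _ hp => inv_pos.2 (fac_pos (Finset.mem_filter.1 hp).2)

lemma ratio (w Z k : ℕ) (h : w ≤ Z) :
    (MM w / MM Z) ^ k = ∏ p ∈ (Finset.Ioc w Z).filter Nat.Prime, (1 - 1 / (p : ℝ)) ^ k := by
  rw [MM_split w Z h, Finset.prod_pow, ← div_div, div_self (MM_pos w).ne', one_div,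
    ← Finset.prod_inv_distrib]
  congr 1
  refine Finset.prod_congr rfl fun p _ => ?_
  rw [inv_inv, one_div]

lemma num_eq {k : ℕ} (s h : Fin k → ℤ) (m p : ℕ) (hp : 0 < p) :
    num s h m p =
      (Finset.univ.image (fun i : Fin k => ((s i * (m : ℤ) + h i) % (p : ℤ)).toNat)).card := by
  classical
  have hp' : (0 : ℤ) < p := by exact_mod_cast hp
  unfold num
  refine congrArg Finset.card ?_
  ext r
  simp only [Finset.mem_filter, Finset.mem_range, Finset.mem_image, Finset.mem_univ, true_and]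
  constructor
  · rintro ⟨h1, i, h2⟩
    refine ⟨i, ?_⟩
    have h4 : (s i * (m : ℤ) + h i) % (p : ℤ) = (r : ℤ) % p :=
      Int.emod_eq_emod_iff_emod_sub_eq_zero.2 (Int.emod_eq_zero_of_dvd h2)
    rw [h4, Int.emod_eq_of_lt (by positivity) (by exact_mod_cast h1)]
    simp
  · rintro ⟨i, hi⟩
    have h0 : 0 ≤ (s i * (m : ℤ) + h i) % (p : ℤ) := Int.emod_nonneg _ hp'.ne'
    have h1 : (s i * (m : ℤ) + h i) % (p : ℤ) < p := Int.emod_lt_of_pos _ hp'
    refine ⟨by omega, i, ?_⟩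
    have h2 : (r : ℤ) = (s i * (m : ℤ) + h i) % (p : ℤ) := by omega
    rw [h2]
    exact Int.dvd_self_sub_emod

lemma num_le {k : ℕ} (s h : Fin k → ℤ) (m p : ℕ) (hp : 0 < p) : num s h m p ≤ k := by
  rw [num_eq s h m p hp]
  refine Finset.card_image_le.trans ?_
  simp

lemma num_ne {k : ℕ} (s h : Fin k → ℤ) (m p : ℕ) (hp : 0 < p) (hn : num s h m p ≠ k) :
    ∃ i j, i ≠ j ∧ (p : ℤ) ∣ (s i * (m : ℤ) + h i) - (s j * (m : ℤ) + h j) := by
  by_contra hcon
  push Not at hcon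
  apply hn
  rw [num_eq s h m p hp, Finset.card_image_of_injective]
  · simp
  · intro i j hij
    by_contra hne
    apply hcon i j hne
    have hp' : (p : ℤ) ≠ 0 := by exact_mod_cast hp.ne'
    have h0 : 0 ≤ (s i * (m : ℤ) + h i) % (p : ℤ) := Int.emod_nonneg _ hp'
    have h0' : 0 ≤ (s j * (m : ℤ) + h j) % (p : ℤ) := Int.emod_nonneg _ hp'
    have h1 : (s i * (m : ℤ) + h i) % (p : ℤ) = (s j * (m : ℤ) + h j) % (p : ℤ) := by
      have h2 : ((s i * (m : ℤ) + h i) % (p : ℤ)).toNat = ((s j * (m : ℤ) + h j) % (p : ℤ)).toNat := hij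
      omega
    exact Int.dvd_of_emod_eq_zero (Int.emod_eq_emod_iff_emod_sub_eq_zero.1 h1)

lemma exc {k : ℕ} (s h : Fin k → ℤ) (m B : ℕ) (hB : 1 ≤ B)
    (hD : ∀ i j, i ≠ j → s i * (m : ℤ) + h i ≠ s j * (m : ℤ) + h j)
    (hb : ∀ i j, |(s i * (m : ℤ) + h i) - (s j * (m : ℤ) + h j)| ≤ B) (E : Finset ℕ)
    (hE : ∀ p ∈ E, p.Prime ∧ num s h m p ≠ k) : 2 ^ E.card ≤ B ^ (k * k) := by
  set Δ : ℕ := ∏ q ∈ (Finset.univ : Finset (Fin k)).offDiag,
    ((s q.1 * (m : ℤ) + h q.1) - (s q.2 * (m : ℤ) + h q.2)).natAbs with hΔ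
  have h1 : ∏ p ∈ E, p ∣ Δ := by
    refine Finset.prod_primes_dvd _ (fun p hp => (hE p hp).1.prime) fun p hp => ?_
    obtain ⟨i, j, hij, hd⟩ := num_ne s h m p (hE p hp).1.pos (hE p hp).2
    refine (Int.natCast_dvd.1 hd).trans ?_
    exact Finset.dvd_prod_of_mem (fun q : Fin k × Fin k =>
      ((s q.1 * (m : ℤ) + h q.1) - (s q.2 * (m : ℤ) + h q.2)).natAbs) (a := (i, j))
      (Finset.mem_offDiag.2 ⟨Finset.mem_univ _, Finset.mem_univ _, hij⟩)
  have h2 : Δ ≠ 0 := by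
    refine Finset.prod_ne_zero_iff.2 fun q hq => ?_
    rw [Finset.mem_offDiag] at hq
    have := hD q.1 q.2 hq.2.2
    omega
  calc 2 ^ E.card = ∏ p ∈ E, 2 := by simp
    _ ≤ ∏ p ∈ E, p := Finset.prod_le_prod' fun p hp => (hE p hp).1.two_le
    _ ≤ Δ := Nat.le_of_dvd (Nat.pos_of_ne_zero h2) h1
    _ ≤ ∏ q ∈ (Finset.univ : Finset (Fin k)).offDiag, B := by
        refine Finset.prod_le_prod' fun q _ => ?_
        have h5 := hb q.1 q.2
        rw [Int.abs_eq_natAbs] at h5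
        exact_mod_cast h5
    _ = B ^ (Finset.univ : Finset (Fin k)).offDiag.card := by simp
    _ ≤ B ^ (k * k) := by
        refine Nat.pow_le_pow_right hB ?_
        rw [Finset.offDiag_card]
        simp

lemma upper1 (p x k : ℕ) (hp : 2 ≤ p) (hx : x ≤ k) :
    1 - (x : ℝ) / p ≤ (1 - 1 / (p : ℝ)) ^ k * (if x = k then 1 else Real.exp (2 * k / p)) := by
  have hp0 : (2 : ℝ) ≤ p := by exact_mod_cast hp
  have hy : 1 / (p : ℝ) ≤ 1 / 2 := one_div_le_one_div_of_le (by norm_num) hp0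
  have hy0 : 0 < 1 / (p : ℝ) := by positivity
  have hq : 0 < 1 - 1 / (p : ℝ) := by linarith
  have h1 : 1 - (x : ℝ) / p ≤ (1 - 1 / (p : ℝ)) ^ x := by
    have := one_add_mul_le_pow (show (-2 : ℝ) ≤ -(1 / (p : ℝ)) by linarith) x
    calc 1 - (x : ℝ) / p = 1 + x * -(1 / (p : ℝ)) := by ring
      _ ≤ (1 + -(1 / (p : ℝ))) ^ x := this
      _ = _ := by rw [← sub_eq_add_neg]
  split_ifs with h
  · subst h; rw [mul_one]; exact h1
  · refine h1.trans ?_
    have h2 : 1 ≤ (1 - 1 / (p : ℝ)) * Real.exp (2 / p) := by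
      have h3 := Real.add_one_le_exp (2 / (p : ℝ))
      have h4 : (2 : ℝ) / p = 2 * (1 / (p : ℝ)) := by ring
      rw [h4] at h3 ⊢
      nlinarith
    have h3 : (1 : ℝ) ≤ ((1 - 1 / (p : ℝ)) * Real.exp (2 / p)) ^ (k - x) := one_le_pow₀ h2
    calc (1 - 1 / (p : ℝ)) ^ x
        ≤ (1 - 1 / (p : ℝ)) ^ x * ((1 - 1 / (p : ℝ)) * Real.exp (2 / p)) ^ (k - x) :=
          le_mul_of_one_le_right (by positivity) h3
      _ = (1 - 1 / (p : ℝ)) ^ k * Real.exp (2 / p) ^ (k - x) := by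
          rw [mul_pow, ← mul_assoc, ← pow_add, Nat.add_sub_cancel' hx]
      _ ≤ (1 - 1 / (p : ℝ)) ^ k * Real.exp (2 * k / p) := by
          refine mul_le_mul_of_nonneg_left ?_ (by positivity)
          rw [← Real.exp_nat_mul]
          apply Real.exp_le_exp.2
          have h5 : ((k - x : ℕ) : ℝ) ≤ k := by exact_mod_cast Nat.sub_le k x
          calc ((k - x : ℕ) : ℝ) * (2 / p) ≤ k * (2 / p) :=
                mul_le_mul_of_nonneg_right h5 (by positivity)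
            _ = 2 * k / p := by ring

lemma lower1 (p x k : ℕ) (hp : 2 ≤ p) (hx : x ≤ k) (hkp : 2 * k ≤ p) :
    (1 - 1 / (p : ℝ)) ^ k * Real.exp (-(2 * (k : ℝ) ^ 2 * ((p : ℝ) ^ 2)⁻¹)) ≤ 1 - (x : ℝ) / p := by
  have hp0 : (2 : ℝ) ≤ p := by exact_mod_cast hp
  have hp1 : (0 : ℝ) < p := by linarith
  have hy : 1 / (p : ℝ) ≤ 1 / 2 := one_div_le_one_div_of_le (by norm_num) hp0
  have hq : 0 < 1 - 1 / (p : ℝ) := by linarith
  obtain ⟨t, ht⟩ : ∃ t : ℝ, t = k / p := ⟨_, rfl⟩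
  have ht0 : 0 ≤ t := by rw [ht]; positivity
  have ht1 : t ≤ 1 / 2 := by
    rw [ht, div_le_div_iff₀ hp1 (by norm_num)]
    have : (2 : ℝ) * k ≤ p := by exact_mod_cast hkp
    linarith
  have h1 : (1 - 1 / (p : ℝ)) ^ k ≤ Real.exp (-t) := by
    have h2 : 1 - 1 / (p : ℝ) ≤ Real.exp (-(1 / (p : ℝ))) := by
      have := Real.add_one_le_exp (-(1 / (p : ℝ)))
      linarith
    calc (1 - 1 / (p : ℝ)) ^ k ≤ Real.exp (-(1 / (p : ℝ))) ^ k := pow_le_pow_left₀ hq.le h2 k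
      _ = Real.exp (-t) := by
        rw [← Real.exp_nat_mul, ht]
        congr 1
        ring
  have h3 : 2 * (k : ℝ) ^ 2 * ((p : ℝ) ^ 2)⁻¹ = 2 * t ^ 2 := by
    rw [ht]; field_simp
  rw [h3]
  have h4 : Real.exp (-t) * Real.exp (-(2 * t ^ 2)) ≤ 1 - t := by
    rw [← Real.exp_add, show -t + -(2 * t ^ 2) = -(t + 2 * t ^ 2) by ring, Real.exp_neg]
    have h5 := Real.add_one_le_exp (t + 2 * t ^ 2)
    have h6 : 0 < 1 - t := by linarith
    rw [inv_le_comm₀ (Real.exp_pos _) h6]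
    refine le_trans ?_ h5
    rw [inv_le_iff_one_le_mul₀ h6]
    nlinarith [mul_nonneg (mul_nonneg ht0 ht0) (show 0 ≤ 1 - 2 * t by linarith)]
  have h7 : (x : ℝ) / p ≤ t := by
    rw [ht]
    exact div_le_div_of_nonneg_right (by exact_mod_cast hx) hp1.le
  calc (1 - 1 / (p : ℝ)) ^ k * Real.exp (-(2 * t ^ 2)) ≤ Real.exp (-t) * Real.exp (-(2 * t ^ 2)) :=
        mul_le_mul_of_nonneg_right h1 (Real.exp_pos _).le
    _ ≤ 1 - t := h4
    _ ≤ _ := by linarith

/-- the products -/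
lemma prods {k : ℕ} (s h : Fin k → ℤ) (m w Z : ℕ) (hw : 1 ≤ w) (hkw : 2 * k ≤ w) (hwZ : w ≤ Z) :
    (MM w / MM Z) ^ k * Real.exp (-(2 * (k : ℝ) ^ 2 / w)) ≤
      ∏ p ∈ (Finset.Ioc w Z).filter Nat.Prime, (1 - (num s h m p : ℝ) / p) ∧
    ∏ p ∈ (Finset.Ioc w Z).filter Nat.Prime, (1 - (num s h m p : ℝ) / p) ≤
      (MM w / MM Z) ^ k * Real.exp (2 * k / w *
        (((Finset.Ioc w Z).filter Nat.Prime).filter (fun p => num s h m p ≠ k)).card) := by
  have hw0 : (0 : ℝ) < w := by exact_mod_cast hw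
  have hmem : ∀ p ∈ (Finset.Ioc w Z).filter Nat.Prime, p.Prime ∧ w < p := fun p hp =>
    ⟨(Finset.mem_filter.1 hp).2, (Finset.mem_Ioc.1 (Finset.mem_filter.1 hp).1).1⟩
  have hpos : ∀ p ∈ (Finset.Ioc w Z).filter Nat.Prime, 0 < 1 - 1 / (p : ℝ) := fun p hp => by
    have := fac_pos (hmem p hp).1
    rwa [one_div]
  have hnn : ∀ p ∈ (Finset.Ioc w Z).filter Nat.Prime, 0 ≤ 1 - (num s h m p : ℝ) / p := fun p hp => by
    have h1 : num s h m p ≤ p :=
      ((num_le s h m p (hmem p hp).1.pos).trans (by omega)).trans (hmem p hp).2.le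
    have h2 : (0 : ℝ) < p := by exact_mod_cast (hmem p hp).1.pos
    rw [sub_nonneg, div_le_one h2]
    exact_mod_cast h1
  constructor
  · calc (MM w / MM Z) ^ k * Real.exp (-(2 * (k : ℝ) ^ 2 / w))
        ≤ (MM w / MM Z) ^ k * Real.exp (∑ p ∈ (Finset.Ioc w Z).filter Nat.Prime,
            -(2 * (k : ℝ) ^ 2 * ((p : ℝ) ^ 2)⁻¹)) := by
          refine mul_le_mul_of_nonneg_left (Real.exp_le_exp.2 ?_)
            (pow_nonneg (div_nonneg (MM_pos w).le (MM_pos Z).le) k)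
          rw [Finset.sum_neg_distrib, ← Finset.mul_sum]
          refine neg_le_neg ?_
          have h1 : ∑ p ∈ (Finset.Ioc w Z).filter Nat.Prime, ((p : ℝ) ^ 2)⁻¹ ≤
              ∑ p ∈ Finset.Ioc w Z, ((p : ℝ) ^ 2)⁻¹ :=
            Finset.sum_le_sum_of_subset_of_nonneg (Finset.filter_subset _ _) fun _ _ _ => by positivity
          have h2 := sum_Ioc_inv_sq_le_sub (α := ℝ) (show w ≠ 0 by omega) hwZ
          have h3 : (0 : ℝ) ≤ (Z : ℝ)⁻¹ := by positivity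
          calc 2 * (k : ℝ) ^ 2 * ∑ p ∈ (Finset.Ioc w Z).filter Nat.Prime, ((p : ℝ) ^ 2)⁻¹
              ≤ 2 * (k : ℝ) ^ 2 * (w : ℝ)⁻¹ :=
                mul_le_mul_of_nonneg_left (by linarith) (by positivity)
            _ = _ := by rw [div_eq_mul_inv]
      _ = ∏ p ∈ (Finset.Ioc w Z).filter Nat.Prime,
            ((1 - 1 / (p : ℝ)) ^ k * Real.exp (-(2 * (k : ℝ) ^ 2 * ((p : ℝ) ^ 2)⁻¹))) := by
          rw [Finset.prod_mul_distrib, ratio w Z k hwZ, Real.exp_sum]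
      _ ≤ _ := by
          refine Finset.prod_le_prod (fun p hp => ?_) fun p hp => ?_
          · exact mul_nonneg (pow_nonneg (hpos p hp).le k) (Real.exp_pos _).le
          · exact lower1 p _ k (hmem p hp).1.two_le (num_le s h m p (hmem p hp).1.pos)
              (by have := (hmem p hp).2; omega)
  · calc ∏ p ∈ (Finset.Ioc w Z).filter Nat.Prime, (1 - (num s h m p : ℝ) / p)
        ≤ ∏ p ∈ (Finset.Ioc w Z).filter Nat.Prime,
            ((1 - 1 / (p : ℝ)) ^ k * (if num s h m p ≠ k then Real.exp (2 * k / w) else 1)) := by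
          refine Finset.prod_le_prod hnn fun p hp => ?_
          refine (upper1 p _ k (hmem p hp).1.two_le (num_le s h m p (hmem p hp).1.pos)).trans ?_
          refine mul_le_mul_of_nonneg_left ?_ (pow_nonneg (hpos p hp).le k)
          by_cases hc : num s h m p = k
          · rw [if_pos hc, if_neg (not_not.2 hc)]
          · rw [if_neg hc, if_pos hc]
            refine Real.exp_le_exp.2 (div_le_div_of_nonneg_left (by positivity) hw0 ?_)
            exact_mod_cast (hmem p hp).2.le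
      _ = (MM w / MM Z) ^ k * ∏ p ∈ ((Finset.Ioc w Z).filter Nat.Prime).filter
            (fun p => num s h m p ≠ k), Real.exp (2 * k / w) := by
          rw [Finset.prod_mul_distrib, ratio w Z k hwZ, Finset.prod_filter (fun p => num s h m p ≠ k)]
      _ = _ := by
          rw [Finset.prod_const, ← Real.exp_nat_mul, mul_comm (_ : ℝ) (2 * (k : ℝ) / w)]

/-- the key estimate -/
lemma key (k : ℕ) (s : Fin k → ℤ) (A : ℕ) (ε : ℝ) (hε : 0 < ε) : ∀ᶠ N : ℕ in atTop,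
    ∀ (h : Fin k → ℤ) (m Z : ℕ), (∀ i, |h i| ≤ (N : ℤ) ^ A) → m ≤ 2 * N ^ A → lw k N ≤ Z →
    (∀ i j, i ≠ j → s i * (m : ℤ) + h i ≠ s j * (m : ℤ) + h j) →
    |∏ p ∈ (Finset.Ioc (lw k N) Z).filter Nat.Prime, (1 - (num s h m p : ℝ) / p) -
      (MM (lw k N) / MM Z) ^ k| ≤ ε * (MM (lw k N) / MM Z) ^ k := by
  have hL : Tendsto (fun n : ℕ => Real.log (n : ℝ)) atTop atTop :=
    Real.tendsto_log_atTop.comp tendsto_natCast_atTop_atTop
  -- the constant
  obtain ⟨C, hC⟩ : ∃ C : ℝ, C = 2 * (k : ℝ) * (((A + 1) * (k * k) : ℕ) / Real.log 2) := ⟨_, rfl⟩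
  have hl2 : 0 < Real.log 2 := Real.log_pos (by norm_num)
  have hC0 : 0 ≤ C := by rw [hC]; positivity
  have hinv : Tendsto (fun n : ℕ => (Real.log (n : ℝ))⁻¹) atTop (𝓝 0) := tendsto_inv_atTop_zero.comp hL
  have e1 : Tendsto (fun n : ℕ => Real.exp (C * (Real.log (n : ℝ))⁻¹)) atTop (𝓝 1) := by
    have := (Real.continuous_exp.tendsto 0).comp
      (show Tendsto (fun n : ℕ => C * (Real.log (n : ℝ))⁻¹) atTop (𝓝 0) by
        simpa using hinv.const_mul C)
    rw [Real.exp_zero] at this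
    exact this
  have e2 : Tendsto (fun n : ℕ => Real.exp (-(2 * (k : ℝ) ^ 2 * (Real.log (n : ℝ))⁻¹))) atTop (𝓝 1) := by
    have := (Real.continuous_exp.tendsto 0).comp
      (show Tendsto (fun n : ℕ => -(2 * (k : ℝ) ^ 2 * (Real.log (n : ℝ))⁻¹)) atTop (𝓝 0) by
        simpa using (hinv.const_mul (2 * (k : ℝ) ^ 2)).neg)
    rw [Real.exp_zero] at this
    exact this
  obtain ⟨S, hS⟩ : ∃ S : ℕ, ∀ i, |s i| ≤ (S : ℤ) := by
    refine ⟨∑ i, (s i).natAbs, fun i => ?_⟩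
    have := Finset.single_le_sum (f := fun i => (s i).natAbs) (fun _ _ => Nat.zero_le _)
      (Finset.mem_univ i)
    rw [Int.abs_eq_natAbs]
    exact_mod_cast this
  filter_upwards [e1.eventually (gt_mem_nhds (show (1 : ℝ) < 1 + ε by linarith)),
    e2.eventually (lt_mem_nhds (show (1 : ℝ) - ε < 1 by linarith)),
    hL.eventually_ge_atTop (2 + 2 * (k : ℝ)), eventually_ge_atTop (4 * S + 2)] with N h1 h2 h3 h4
  intro h m Z hh hm hZ hne
  obtain ⟨L, hLd⟩ : ∃ L : ℝ, L = Real.log N := ⟨_, rfl⟩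
  rw [← hLd] at h1 h2 h3
  have hL2 : 2 ≤ L := by have : (0 : ℝ) ≤ k := by positivity
                         linarith
  have hL0 : 0 < L := by linarith
  obtain ⟨w, hwd⟩ : ∃ w : ℕ, w = lw k N := ⟨_, rfl⟩
  rw [← hwd] at hZ ⊢
  have hwL : L ^ 2 ≤ w := by
    have h5 : L ^ (2 * k + 6) < w + 1 := by
      rw [hwd, hLd]
      exact Nat.lt_floor_add_one _
    have h6 : L ^ 6 ≤ L ^ (2 * k + 6) := pow_le_pow_right₀ (by linarith) (by omega)
    have h7 : L ^ 2 * 16 ≤ L ^ 6 := by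
      have : (16 : ℝ) ≤ L ^ 4 := by
        calc (16 : ℝ) = 2 ^ 4 := by norm_num
          _ ≤ L ^ 4 := pow_le_pow_left₀ (by norm_num) hL2 4
      calc L ^ 2 * 16 ≤ L ^ 2 * L ^ 4 := mul_le_mul_of_nonneg_left this (by positivity)
        _ = L ^ 6 := by ring
    have h8 : (4 : ℝ) ≤ L ^ 2 := by nlinarith
    linarith
  have hwL1 : L ≤ w := by nlinarith
  have hw2k : 2 * k ≤ w := by
    have : (2 : ℝ) * k ≤ w := by linarith
    exact_mod_cast this
  have hw1 : 1 ≤ w := by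
    have : (1 : ℝ) ≤ w := by linarith
    exact_mod_cast this
  have hw0 : (0 : ℝ) < w := by linarith
  obtain ⟨p1, p2⟩ := prods s h m w Z hw1 hw2k hZ
  set E := ((Finset.Ioc w Z).filter Nat.Prime).filter (fun p => num s h m p ≠ k) with hE
  have hN1 : 1 ≤ N := by omega
  have hB : 1 ≤ N ^ (A + 1) := Nat.one_le_pow _ _ hN1
  have hEc : 2 ^ E.card ≤ (N ^ (A + 1)) ^ (k * k) := by
    refine exc s h m (N ^ (A + 1)) hB hne (fun i j => ?_) E fun p hp => ?_
    · have a1 : |s i * (m : ℤ)| ≤ S * (2 * (N : ℤ) ^ A) := by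
        rw [abs_mul]
        refine mul_le_mul (hS i) ?_ (abs_nonneg _) (by positivity)
        rw [abs_of_nonneg (by positivity)]
        exact_mod_cast hm
      have a2 : |s j * (m : ℤ)| ≤ S * (2 * (N : ℤ) ^ A) := by
        rw [abs_mul]
        refine mul_le_mul (hS j) ?_ (abs_nonneg _) (by positivity)
        rw [abs_of_nonneg (by positivity)]
        exact_mod_cast hm
      have a3 := hh i
      have a4 := hh j
      have a5 : ((4 * S + 2 : ℕ) : ℤ) * (N : ℤ) ^ A ≤ N * (N : ℤ) ^ A :=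
        mul_le_mul_of_nonneg_right (by exact_mod_cast h4) (by positivity)
      push_cast at a5 ⊢
      rw [pow_succ]
      rw [abs_le] at a1 a2 a3 a4 ⊢
      constructor <;> nlinarith
    · rw [hE, Finset.mem_filter, Finset.mem_filter] at hp
      exact ⟨hp.1.2, hp.2⟩
  have hEr : (E.card : ℝ) ≤ ((A + 1) * (k * k) : ℕ) / Real.log 2 * L := by
    have h5 : ((2 : ℝ) ^ E.card) ≤ (N : ℝ) ^ ((A + 1) * (k * k)) := by
      have : ((2 ^ E.card : ℕ) : ℝ) ≤ (((N ^ (A + 1)) ^ (k * k) : ℕ) : ℝ) := by exact_mod_cast hEc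
      push_cast at this
      rwa [← pow_mul] at this
    have h6 := Real.log_le_log (by positivity) h5
    rw [Real.log_pow, Real.log_pow, ← hLd] at h6
    rw [div_mul_eq_mul_div, le_div_iff₀ hl2]
    exact h6
  have hR : 0 ≤ (MM w / MM Z) ^ k := pow_nonneg (div_nonneg (MM_pos w).le (MM_pos Z).le) k
  have q1 : (MM w / MM Z) ^ k * (1 - ε) ≤
      ∏ p ∈ (Finset.Ioc w Z).filter Nat.Prime, (1 - (num s h m p : ℝ) / p) := by
    refine le_trans (mul_le_mul_of_nonneg_left ?_ hR) p1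
    refine h2.le.trans (Real.exp_le_exp.2 (neg_le_neg ?_))
    rw [div_eq_mul_inv]
    exact mul_le_mul_of_nonneg_left (inv_anti₀ hL0 hwL1) (by positivity)
  have q2 : ∏ p ∈ (Finset.Ioc w Z).filter Nat.Prime, (1 - (num s h m p : ℝ) / p) ≤
      (MM w / MM Z) ^ k * (1 + ε) := by
    refine p2.trans (mul_le_mul_of_nonneg_left ?_ hR)
    refine le_trans (Real.exp_le_exp.2 ?_) h1.le
    calc 2 * (k : ℝ) / w * (E.card : ℝ) ≤ 2 * (k : ℝ) / L ^ 2 * (((A + 1) * (k * k) : ℕ) / Real.log 2 * L) := by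
          refine mul_le_mul ?_ hEr (by positivity) (by positivity)
          exact div_le_div_of_nonneg_left (by positivity) (by positivity) hwL
      _ = C * L⁻¹ := by
          rw [hC]
          field_simp
  rw [abs_le]
  constructor <;> nlinarith

end CeqAux

open CeqAux in
theorem ceq : S_CEQ := by
  intro k s _ A ε hε
  filter_upwards [key k s A ε hε] with N hN
  intro h a n U Z hh hn hU hZ hne
  classical
  unfold ff sg
  rw [← nsmul_eq_mul, ← Finset.sum_const, ← Finset.sum_sub_distrib]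
  refine (Finset.abs_sum_le_sum_abs _ _).trans ?_
  rw [Finset.mul_sum]
  refine Finset.sum_le_sum fun j hj => ?_
  rw [Finset.mem_filter, Finset.mem_range] at hj
  exact hN h (n + j + 1) Z hh (by omega) hZ fun i i' hii =>
    hne (n + j + 1) (by omega) (by omega) i i' hii

end Pool.Agent.H50.BP
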