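import Pool.Agent.H50.BP.Stm

/-!
# Project BP: `S_CONC`.
-/

set_option autoImplicit false

open MeasureTheory Filter ProbabilityTheory
open scoped Topology ENNReal

namespace Pool.Agent.H50.BP

open Pool.Agent.H50.BF

namespace ConcAux

lemma sg_eq_ff {k : ℕ} (s h : Fin k → ℤ) (a : ℕ → ℕ) (w Z n U : ℕ) (hwZ : w ≤ Z)
    (hno : ∀ p : ℕ, p.Prime → w < p → p ≤ Z → False) :
    (sg s h a Z n U : ℝ) = ff s h a w Z n U := by
  classical
  unfold sg ff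
  have h0 : (Finset.Ioc w Z).filter Nat.Prime = ∅ := by
    rw [Finset.filter_eq_empty_iff]
    intro p hp hpp
    rw [Finset.mem_Ioc] at hp
    exact hno p hpp hp.1 hp.2
  rw [h0]
  simp only [Finset.prod_empty, Finset.sum_const, nsmul_eq_mul, mul_one]
  norm_cast
  refine congrArg Finset.card (Finset.filter_congr fun j _ => ?_)
  constructor
  · exact fun hj p hp hpw => hj p hp (hpw.trans hwZ)
  · intro hj p hp hpZ
    by_cases hpw : p ≤ w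
    · exact hj p hp hpw
    · exact (hno p hp (by omega) hpZ).elim

lemma VS_pos (k w Z U : ℕ) (hk : 1 ≤ k) (hex : ∃ p : ℕ, p.Prime ∧ w < p ∧ p ≤ Z) :
    0 < VS k w Z U := by
  unfold VS
  obtain ⟨p, hp, h1, h2⟩ := hex
  have hk0 : (0 : ℝ) < k := by exact_mod_cast hk
  refine Finset.sum_pos (fun q _ => ?_) ⟨p, Finset.mem_filter.2 ⟨Finset.mem_Ioc.2 ⟨h1, h2⟩, hp⟩⟩
  positivity

lemma VS_le (k w Z U : ℕ) (hw : 1 ≤ w) (h : w ≤ Z) :
    VS k w Z U ≤ 8 * (k : ℝ) ^ 2 * ((U : ℝ) ^ 2 / w + Z) := by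
  unfold VS
  have h1 : ∑ p ∈ (Finset.Ioc w Z).filter Nat.Prime, (2 * (k : ℝ) * ((U : ℝ) / p + 1)) ^ 2 ≤
      ∑ p ∈ Finset.Ioc w Z, (8 * (k : ℝ) ^ 2 * (U : ℝ) ^ 2 * ((p : ℝ) ^ 2)⁻¹ + 8 * (k : ℝ) ^ 2) := by
    refine (Finset.sum_le_sum_of_subset_of_nonneg (Finset.filter_subset _ _)
      fun _ _ _ => by positivity).trans (Finset.sum_le_sum fun p _ => ?_)
    have h2 : (U : ℝ) ^ 2 * ((p : ℝ) ^ 2)⁻¹ = ((U : ℝ) / p) ^ 2 := by
      rw [div_pow, div_eq_mul_inv]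
    have h3 : (2 * (k : ℝ) * ((U : ℝ) / p + 1)) ^ 2 = 4 * (k : ℝ) ^ 2 * ((U : ℝ) / p + 1) ^ 2 := by
      ring
    rw [mul_assoc (8 * (k : ℝ) ^ 2), h2, h3]
    have h4 : ((U : ℝ) / p + 1) ^ 2 ≤ 2 * (((U : ℝ) / p) ^ 2 + 1) := by
      nlinarith [sq_nonneg ((U : ℝ) / p - 1)]
    calc 4 * (k : ℝ) ^ 2 * ((U : ℝ) / p + 1) ^ 2 ≤ 4 * (k : ℝ) ^ 2 * (2 * (((U : ℝ) / p) ^ 2 + 1)) :=
          mul_le_mul_of_nonneg_left h4 (by positivity)
      _ = _ := by ring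
  refine h1.trans ?_
  rw [Finset.sum_add_distrib, ← Finset.mul_sum, Finset.sum_const, Nat.card_Ioc, nsmul_eq_mul]
  have h2 := sum_Ioc_inv_sq_le_sub (α := ℝ) (show w ≠ 0 by omega) h
  have h3 : (0 : ℝ) ≤ (Z : ℝ)⁻¹ := by positivity
  have h4 : ((Z - w : ℕ) : ℝ) ≤ Z := by exact_mod_cast Nat.sub_le Z w
  have h5 : 8 * (k : ℝ) ^ 2 * (U : ℝ) ^ 2 * ∑ p ∈ Finset.Ioc w Z, ((p : ℝ) ^ 2)⁻¹ ≤
      8 * (k : ℝ) ^ 2 * (U : ℝ) ^ 2 * (w : ℝ)⁻¹ :=
    mul_le_mul_of_nonneg_left (by linarith) (by positivity)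
  have h6 : ((Z - w : ℕ) : ℝ) * (8 * (k : ℝ) ^ 2) ≤ Z * (8 * (k : ℝ) ^ 2) :=
    mul_le_mul_of_nonneg_right h4 (by positivity)
  calc _ ≤ 8 * (k : ℝ) ^ 2 * (U : ℝ) ^ 2 * (w : ℝ)⁻¹ + Z * (8 * (k : ℝ) ^ 2) := add_le_add h5 h6
    _ = _ := by rw [div_eq_mul_inv]; ring

/-- the bad event at `N` -/
def Bad {Ω : Type} (a : ℕ → Ω → ℕ) {k : ℕ} (s : Fin k → ℤ) (A : ℕ) (κ : ℝ) (N : ℕ) : Set Ω :=
  {ω | ∃ (h : Fin k → ℤ) (n U Z : ℕ), (∀ i, |h i| ≤ (N : ℤ) ^ A) ∧ n ≤ N ^ A ∧ U ≤ N ^ A ∧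
    Z ≤ N ^ A ∧ lw k N ≤ Z ∧ (Z : ℝ) * (N : ℝ) ^ κ ≤ (U : ℝ) ^ 2 ∧
    U / Real.log N ^ (k + 1) < |(sg s h (fun q => a q ω) Z n U : ℝ) -
      ff s h (fun q => a q ω) (lw k N) Z n U|}

/-- one event -/
lemma hone (hT : S_TAIL) {Ω : Type} [MeasurableSpace Ω] {P : Measure Ω}
    {a : ℕ → Ω → ℕ} (hmod : Model P a) {k : ℕ} (s : Fin k → ℤ) (hk : 1 ≤ k) (hs : ∀ i, s i ≠ 0)
    (κ : ℝ) (hκ : 0 < κ) : ∀ᶠ N : ℕ in atTop, ∀ (h : Fin k → ℤ) (n U Z : ℕ), lw k N ≤ Z →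
    (Z : ℝ) * (N : ℝ) ^ κ ≤ (U : ℝ) ^ 2 →
    P {ω | U / Real.log N ^ (k + 1) < |(sg s h (fun q => a q ω) Z n U : ℝ) -
      ff s h (fun q => a q ω) (lw k N) Z n U|} ≤
      ENNReal.ofReal (2 * Real.exp (-(Real.log N ^ 4 / (48 * (k : ℝ) ^ 2)))) := by
  have hL : Tendsto (fun n : ℕ => Real.log (n : ℝ)) atTop atTop :=
    Real.tendsto_log_atTop.comp tendsto_natCast_atTop_atTop
  have hpow : ∀ᶠ N : ℕ in atTop, Real.log N ^ (2 * k + 6) ≤ (N : ℝ) ^ κ := by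
    have h1 : ∀ᶠ x : ℝ in atTop, Real.log x ^ (2 * k + 6) ≤ x ^ κ := by
      have h2 := isLittleO_log_rpow_rpow_atTop (r := ((2 * k + 6 : ℕ) : ℝ)) (s := κ) hκ
      filter_upwards [h2.bound (show (0:ℝ) < 1 by norm_num), eventually_ge_atTop 1] with x h3 h4
      rw [one_mul, Real.norm_eq_abs, Real.norm_eq_abs,
        abs_of_nonneg (Real.rpow_nonneg (by linarith) κ), Real.rpow_natCast] at h3
      exact (le_abs_self _).trans h3
    exact tendsto_natCast_atTop_atTop.eventually h1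
  obtain ⟨S, hS⟩ : ∃ S : ℕ, ∀ i, |s i| ≤ (S : ℤ) := by
    refine ⟨∑ i, (s i).natAbs, fun i => ?_⟩
    have := Finset.single_le_sum (f := fun i => (s i).natAbs) (fun _ _ => Nat.zero_le _)
      (Finset.mem_univ i)
    rw [Int.abs_eq_natAbs]
    exact_mod_cast this
  filter_upwards [hpow, hL.eventually_ge_atTop (2 + (S : ℝ))] with N h1 h2
  intro h n U Z hwZ hZU
  obtain ⟨L, hLd⟩ : ∃ L : ℝ, L = Real.log N := ⟨_, rfl⟩
  rw [← hLd] at h1 h2 ⊢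
  have hS0 : (0 : ℝ) ≤ S := by positivity
  have hL2 : 2 ≤ L := by linarith
  have hL0 : 0 < L := by linarith
  have hk0 : (1 : ℝ) ≤ k := by exact_mod_cast hk
  obtain ⟨w, hwd⟩ : ∃ w : ℕ, w = lw k N := ⟨_, rfl⟩
  rw [← hwd] at hwZ ⊢
  have hw1 : L ^ (2 * k + 6) < w + 1 := by
    rw [hwd, hLd]
    exact Nat.lt_floor_add_one _
  have hLp : L ≤ L ^ (2 * k + 6) := le_self_pow₀ (by linarith) (by omega)
  have hw2 : L ^ (2 * k + 6) / 2 ≤ w := by linarith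
  have hwS : (S : ℝ) < w := by linarith
  have hwS' : S < w := by exact_mod_cast hwS
  have hLk : 0 < L ^ (2 * k + 6) := by positivity
  by_cases hex : ∃ p : ℕ, p.Prime ∧ w < p ∧ p ≤ Z
  · have hVp := VS_pos k w Z U hk hex
    have hV := VS_le k w Z U (by omega) hwZ
    have hT1 := hT Ω P a hmod k s h w Z n U (U / L ^ (k + 1)) (by positivity) hwZ
      (fun i => ⟨hs i, (hS i).trans (by exact_mod_cast hwS'.le)⟩)
    refine hT1.trans (ENNReal.ofReal_le_ofReal ?_)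
    refine mul_le_mul_of_nonneg_left (Real.exp_le_exp.2 (neg_le_neg ?_)) (by norm_num)
    have hV2 : VS k w Z U ≤ 24 * (k : ℝ) ^ 2 * ((U : ℝ) ^ 2 / L ^ (2 * k + 6)) := by
      refine hV.trans ?_
      have a1 : (U : ℝ) ^ 2 / w ≤ 2 * ((U : ℝ) ^ 2 / L ^ (2 * k + 6)) := by
        calc (U : ℝ) ^ 2 / w ≤ (U : ℝ) ^ 2 / (L ^ (2 * k + 6) / 2) :=
              div_le_div_of_nonneg_left (by positivity) (by positivity) hw2
          _ = _ := by field_simp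
      have a2 : (Z : ℝ) ≤ (U : ℝ) ^ 2 / L ^ (2 * k + 6) := by
        rw [le_div_iff₀ hLk]
        exact (mul_le_mul_of_nonneg_left h1 (by positivity)).trans hZU
      calc 8 * (k : ℝ) ^ 2 * ((U : ℝ) ^ 2 / w + Z) ≤
          8 * (k : ℝ) ^ 2 * (2 * ((U : ℝ) ^ 2 / L ^ (2 * k + 6)) + (U : ℝ) ^ 2 / L ^ (2 * k + 6)) :=
            mul_le_mul_of_nonneg_left (add_le_add a1 a2) (by positivity)
        _ = _ := by ring
    rw [le_div_iff₀ (by positivity)]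
    calc L ^ 4 / (48 * (k : ℝ) ^ 2) * (2 * VS k w Z U)
        ≤ L ^ 4 / (48 * (k : ℝ) ^ 2) * (2 * (24 * (k : ℝ) ^ 2 * ((U : ℝ) ^ 2 / L ^ (2 * k + 6)))) :=
          mul_le_mul_of_nonneg_left (by linarith) (by positivity)
      _ = ((U : ℝ) / L ^ (k + 1)) ^ 2 := by
          have e : L ^ (2 * k + 6) = (L ^ (k + 1)) ^ 2 * L ^ 4 := by
            rw [← pow_mul, ← pow_add]; congr 1; ring
          rw [e]
          field_simp
          norm_num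
  · have h5 : {ω | U / L ^ (k + 1) < |(sg s h (fun q => a q ω) Z n U : ℝ) -
        ff s h (fun q => a q ω) w Z n U|} = ∅ := by
      ext ω
      simp only [Set.mem_ofPred_eq, Set.mem_empty_iff_false, iff_false, not_lt]
      rw [sg_eq_ff s h (fun q => a q ω) w Z n U hwZ fun p hp h6 h7 => hex ⟨p, hp, h6, h7⟩]
      rw [sub_self, abs_zero]
      positivity
    rw [h5, measure_empty]
    exact bot_le

lemma sum_small (k A : ℕ) (hk : 1 ≤ k) : ∀ᶠ N : ℕ in atTop,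
    ((N : ℝ) ^ (A + 1)) ^ (k + 3) * (2 * Real.exp (-(Real.log N ^ 4 / (48 * (k : ℝ) ^ 2)))) ≤
      1 / (N : ℝ) ^ 2 := by
  have hL : Tendsto (fun n : ℕ => Real.log (n : ℝ)) atTop atTop :=
    Real.tendsto_log_atTop.comp tendsto_natCast_atTop_atTop
  obtain ⟨C, hC⟩ : ∃ C : ℝ, C = (48 * (k : ℝ) ^ 2) * (((A + 1) * (k + 3) : ℕ) + 3) := ⟨_, rfl⟩
  filter_upwards [hL.eventually_ge_atTop (C + 1), eventually_ge_atTop 1] with N h1 h2
  obtain ⟨L, hLd⟩ : ∃ L : ℝ, L = Real.log N := ⟨_, rfl⟩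
  rw [← hLd] at h1 ⊢
  have hk0 : (1 : ℝ) ≤ k := by exact_mod_cast hk
  have hC0 : 0 ≤ C := by rw [hC]; positivity
  have hL1 : 1 ≤ L := by linarith
  have hN0 : (0 : ℝ) < N := by exact_mod_cast h2
  have hNe : (N : ℝ) = Real.exp L := by rw [hLd, Real.exp_log hN0]
  have h3 : (((A + 1) * (k + 3) : ℕ) + 3 : ℝ) * L ≤ L ^ 4 / (48 * (k : ℝ) ^ 2) := by
    rw [le_div_iff₀ (by positivity)]
    calc (((A + 1) * (k + 3) : ℕ) + 3 : ℝ) * L * (48 * (k : ℝ) ^ 2) = C * L := by rw [hC]; ring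
      _ ≤ L * L := by nlinarith
      _ ≤ L ^ 4 := by
        have : L ^ 2 ≤ L ^ 4 := pow_le_pow_right₀ hL1 (by norm_num)
        nlinarith
  have h4 : (2 : ℝ) ≤ Real.exp L := by
    have := Real.add_one_le_exp L
    linarith
  rw [← pow_mul, hNe, ← Real.exp_nat_mul, ← Real.exp_nat_mul, one_div, ← Real.exp_neg]
  calc Real.exp (((A + 1) * (k + 3) : ℕ) * L) * (2 * Real.exp (-(L ^ 4 / (48 * (k : ℝ) ^ 2))))
      ≤ Real.exp (((A + 1) * (k + 3) : ℕ) * L) *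
          (Real.exp L * Real.exp (-((((A + 1) * (k + 3) : ℕ) + 3 : ℝ) * L))) := by
        refine mul_le_mul_of_nonneg_left ?_ (Real.exp_pos _).le
        exact mul_le_mul h4 (Real.exp_le_exp.2 (neg_le_neg h3)) (Real.exp_pos _).le (Real.exp_pos _).le
    _ = Real.exp (-((2 : ℕ) * L)) := by
        rw [← Real.exp_add, ← Real.exp_add]
        congr 1
        push_cast
        ring

theorem bad (hT : S_TAIL) {Ω : Type} [MeasurableSpace Ω] {P : Measure Ω}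
    {a : ℕ → Ω → ℕ} (hmod : Model P a) {k : ℕ} (s : Fin k → ℤ) (hk : 1 ≤ k) (hs : ∀ i, s i ≠ 0)
    (A : ℕ) (κ : ℝ) (hκ : 0 < κ) : ∀ᵐ ω ∂P, ∀ᶠ N : ℕ in atTop, ω ∉ Bad a s A κ N := by
  classical
  have hev : ∀ᶠ N : ℕ in atTop, P (Bad a s A κ N) ≤ ENNReal.ofReal (1 / (N : ℝ) ^ 2) := by
    filter_upwards [hone hT hmod s hk hs κ hκ, sum_small k A hk, eventually_ge_atTop 3]
      with N h1 h2 h3
    have hsub : Bad a s A κ N ⊆
        ⋃ h ∈ Fintype.piFinset (fun _ : Fin k => Finset.Icc (-((N : ℤ) ^ A)) ((N : ℤ) ^ A)),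
        ⋃ n ∈ Finset.range (N ^ A + 1), ⋃ U ∈ Finset.range (N ^ A + 1),
        ⋃ Z ∈ Finset.range (N ^ A + 1),
        {ω | lw k N ≤ Z ∧ (Z : ℝ) * (N : ℝ) ^ κ ≤ (U : ℝ) ^ 2 ∧
          U / Real.log N ^ (k + 1) < |(sg s h (fun q => a q ω) Z n U : ℝ) -
            ff s h (fun q => a q ω) (lw k N) Z n U|} := by
      rintro ω ⟨h, n, U, Z, e1, e2, e3, e4, e5⟩
      simp only [Set.mem_iUnion, Finset.mem_range, Fintype.mem_piFinset, Finset.mem_Icc]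
      exact ⟨h, fun i => abs_le.1 (e1 i), n, by omega, U, by omega, Z, by omega, e5⟩
    have hone' : ∀ (h : Fin k → ℤ) (n U Z : ℕ), P {ω | lw k N ≤ Z ∧
          (Z : ℝ) * (N : ℝ) ^ κ ≤ (U : ℝ) ^ 2 ∧
          U / Real.log N ^ (k + 1) < |(sg s h (fun q => a q ω) Z n U : ℝ) -
            ff s h (fun q => a q ω) (lw k N) Z n U|} ≤
        ENNReal.ofReal (2 * Real.exp (-(Real.log N ^ 4 / (48 * (k : ℝ) ^ 2)))) := by
      intro h n U Z
      by_cases hc : lw k N ≤ Z ∧ (Z : ℝ) * (N : ℝ) ^ κ ≤ (U : ℝ) ^ 2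
      · exact (measure_mono fun ω hω => hω.2.2).trans (h1 h n U Z hc.1 hc.2)
      · have : {ω | lw k N ≤ Z ∧ (Z : ℝ) * (N : ℝ) ^ κ ≤ (U : ℝ) ^ 2 ∧
          U / Real.log N ^ (k + 1) < |(sg s h (fun q => a q ω) Z n U : ℝ) -
            ff s h (fun q => a q ω) (lw k N) Z n U|} = ∅ := by
          ext ω
          simp only [Set.mem_ofPred_eq, Set.mem_empty_iff_false, iff_false]
          rintro ⟨e1, e2, _⟩
          exact hc ⟨e1, e2⟩
        rw [this, measure_empty]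
        exact bot_le
    refine (measure_mono hsub).trans ?_
    refine (measure_biUnion_finset_le _ _).trans ?_
    refine (Finset.sum_le_sum fun h _ => (measure_biUnion_finset_le _ _).trans
      (Finset.sum_le_sum fun n _ => (measure_biUnion_finset_le _ _).trans
        (Finset.sum_le_sum fun U _ => (measure_biUnion_finset_le _ _).trans
          (Finset.sum_le_sum fun Z _ => hone' h n U Z)))).trans ?_
    simp only [Finset.sum_const, Finset.card_range, nsmul_eq_mul, Fintype.card_piFinset,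
      Int.card_Icc, Finset.prod_const, Finset.card_univ, Fintype.card_fin]
    have hcard : ((N : ℤ) ^ A + 1 - -((N : ℤ) ^ A)).toNat = 2 * N ^ A + 1 := by
      have : (N : ℤ) ^ A + 1 - -((N : ℤ) ^ A) = ((2 * N ^ A + 1 : ℕ) : ℤ) := by push_cast; ring
      rw [this]
      exact Int.toNat_natCast _
    rw [hcard]
    have hle : 2 * N ^ A + 1 ≤ N ^ (A + 1) := by
      have h4 : 1 ≤ N ^ A := Nat.one_le_pow _ _ (by omega)
      calc 2 * N ^ A + 1 ≤ 3 * N ^ A := by omega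
        _ ≤ N * N ^ A := Nat.mul_le_mul_right _ h3
        _ = N ^ (A + 1) := by ring
    have hle' : N ^ A + 1 ≤ N ^ (A + 1) := by omega
    obtain ⟨e, he⟩ : ∃ e : ENNReal, e =
      ENNReal.ofReal (2 * Real.exp (-(Real.log N ^ 4 / (48 * (k : ℝ) ^ 2)))) := ⟨_, rfl⟩
    rw [← he]
    calc (((2 * N ^ A + 1) ^ k : ℕ) : ENNReal) * (((N ^ A + 1 : ℕ) : ENNReal) *
          (((N ^ A + 1 : ℕ) : ENNReal) * (((N ^ A + 1 : ℕ) : ENNReal) * e)))
        ≤ (((N ^ (A + 1)) ^ k : ℕ) : ENNReal) * (((N ^ (A + 1) : ℕ) : ENNReal) *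
          (((N ^ (A + 1) : ℕ) : ENNReal) * (((N ^ (A + 1) : ℕ) : ENNReal) * e))) := by
          gcongr
      _ = (((N ^ (A + 1)) ^ (k + 3) : ℕ) : ENNReal) * e := by
          push_cast
          ring
      _ ≤ ENNReal.ofReal (1 / (N : ℝ) ^ 2) := by
          rw [he, ← ENNReal.ofReal_natCast, ← ENNReal.ofReal_mul (Nat.cast_nonneg _)]
          apply ENNReal.ofReal_le_ofReal
          push_cast
          exact h2
  obtain ⟨n0, hn0⟩ := eventually_atTop.1 hev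
  have hsum : ∑' n : ℕ, P (Bad a s A κ (n + n0)) ≠ ⊤ := by
    have h1 : ∑' n : ℕ, P (Bad a s A κ (n + n0)) ≤
        ∑' n : ℕ, ENNReal.ofReal (1 / ((n + n0 : ℕ) : ℝ) ^ 2) :=
      ENNReal.tsum_le_tsum fun n => hn0 (n + n0) (by omega)
    have h2 : Summable fun n : ℕ => 1 / ((n + n0 : ℕ) : ℝ) ^ 2 :=
      (summable_nat_add_iff (f := fun n : ℕ => 1 / (n : ℝ) ^ 2) n0).2
        (Real.summable_one_div_nat_pow.2 (by norm_num))
    exact ne_top_of_le_ne_top (h2.tsum_ofReal_ne_top) h1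
  filter_upwards [ae_eventually_notMem hsum] with ω hω
  obtain ⟨m, hm⟩ := eventually_atTop.1 hω
  filter_upwards [eventually_ge_atTop (m + n0)] with n hn
  have := hm (n - n0) (by omega)
  rwa [Nat.sub_add_cancel (by omega)] at this

end ConcAux

open ConcAux in
theorem conc : S_TAIL → S_CONC := by
  intro hT Ω _ P a hmod
  have hall : ∀ᵐ ω ∂P, ∀ (k : ℕ) (s : Fin k → ℤ) (A j : ℕ), 1 ≤ k → (∀ i, s i ≠ 0) →
      ∀ᶠ N : ℕ in atTop, ω ∉ Bad a s A (1 / ((j : ℝ) + 1)) N := by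
    rw [ae_all_iff]
    intro k
    rw [ae_all_iff]
    intro s
    rw [ae_all_iff]
    intro A
    rw [ae_all_iff]
    intro j
    by_cases hk : 1 ≤ k
    · by_cases hs : ∀ i, s i ≠ 0
      · filter_upwards [bad hT hmod s hk hs A (1 / ((j : ℝ) + 1)) (by positivity)] with ω hω
        exact fun _ _ => hω
      · exact Eventually.of_forall fun ω _ h => absurd h hs
    · exact Eventually.of_forall fun ω h _ => absurd h hk
  filter_upwards [hall] with ω hω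
  intro k s hk hs A κ hκ
  obtain ⟨j, hj⟩ := exists_nat_one_div_lt hκ
  filter_upwards [hω k s A j hk hs, eventually_ge_atTop 1] with N h1 h2
  intro h n U Z e1 e2 e3 e4 e5 e6
  by_contra hcon
  push Not at hcon
  apply h1
  refine ⟨h, n, U, Z, e1, e2, e3, e4, e5, le_trans ?_ e6, hcon⟩
  refine mul_le_mul_of_nonneg_left ?_ (by positivity)
  exact Real.rpow_le_rpow_of_exponent_le (by exact_mod_cast h2) hj.le

end Pool.Agent.H50.BP
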