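import Pool.Agent.H50.BP.KEY83

/-! # CUBE: twin pairs between cubes -/

set_option autoImplicit false

open MeasureTheory Filter ProbabilityTheory
open scoped Topology ENNReal

namespace Pool.Agent.H50.BP

open Pool.Agent.H50.BF

namespace CUBE83

theorem dvd_iff (m b p : ℕ) : (p : ℤ) ∣ (m : ℤ) - (b : ℤ) ↔ m % p = b % p := by
  rw [← Nat.modEq_iff_dvd]
  exact ⟨fun h => h.symm, fun h => h.symm⟩

theorem sur_iff (a : ℕ → ℕ) (m p : ℕ) : Sur ![(1 : ℤ), 1] ![(0 : ℤ), 2] a m p ↔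
    m % p ≠ a p % p ∧ (m + 2) % p ≠ a p % p := by
  unfold Sur
  rw [Fin.forall_fin_two]
  have e0 : (![(1 : ℤ), 1] 0) * (m : ℤ) + (![(0 : ℤ), 2] 0) - (a p : ℤ) = (m : ℤ) - (a p : ℤ) := by
    simp
  have e1 : (![(1 : ℤ), 1] 1) * (m : ℤ) + (![(0 : ℤ), 2] 1) - (a p : ℤ) =
      ((m + 2 : ℕ) : ℤ) - (a p : ℤ) := by
    simp
  rw [e0, e1, dvd_iff, dvd_iff]

theorem lw_tendsto (k : ℕ) : Tendsto (fun N => lw k N) atTop atTop := by
  unfold lw
  refine tendsto_nat_floor_atTop.comp ?_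
  refine (tendsto_pow_atTop (by omega)).comp ?_
  exact Real.tendsto_log_atTop.comp tendsto_natCast_atTop_atTop

/-- the interval -/
def UU (t : ℕ) : ℕ := 3 * t ^ 2 + 3 * t - 2

theorem UU_spec {t : ℕ} (ht : 1 ≤ t) : t ^ 3 + UU t + 3 = (t + 1) ^ 3 := by
  have h1 : (t + 1) ^ 3 = t ^ 3 + 3 * t ^ 2 + 3 * t + 1 := by ring
  have h2 : 1 ≤ t ^ 2 := Nat.one_le_pow _ _ ht
  unfold UU
  omega

theorem log_ratio : Tendsto (fun t : ℕ => Real.log ((t + 1 : ℕ) : ℝ) / Real.log t) atTop (𝓝 1) := by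
  have h1 : Tendsto (fun t : ℕ => (Real.log ((t : ℝ) + 1) - Real.log t) / Real.log t) atTop (𝓝 0) :=
    Real.tendsto_log_nat_add_one_sub_log.div_atTop
      (Real.tendsto_log_atTop.comp tendsto_natCast_atTop_atTop)
  have h2 := h1.add_const 1
  rw [zero_add] at h2
  refine h2.congr' ?_
  have hlog : Tendsto (fun t : ℕ => Real.log (t : ℝ)) atTop atTop :=
    Real.tendsto_log_atTop.comp tendsto_natCast_atTop_atTop
  filter_upwards [hlog.eventually_gt_atTop 0] with t ht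
  push_cast
  field_simp
  ring

end CUBE83

open CUBE83

theorem cube : S_MAIN → BF.S_MERT → S_CUBE := by
  intro hMain hMert a z V hz hzl hCon hV hSSV
  have hN : Tendsto (fun t : ℕ => t ^ 3) atTop atTop := tendsto_pow_atTop (by norm_num)
  have hlog : Tendsto (fun t : ℕ => Real.log (t : ℝ)) atTop atTop :=
    Real.tendsto_log_atTop.comp tendsto_natCast_atTop_atTop
  have hN1 : Tendsto (fun t : ℕ => (t + 1) ^ 3) atTop atTop := hN.comp (tendsto_add_atTop_nat 1)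
  have hZ1 : Tendsto (fun t : ℕ => MM (z (t ^ 3)) / Real.log ((t ^ 3 : ℕ) : ℝ)) atTop (𝓝 1) :=
    hzl.comp hN
  have hZ2 : Tendsto (fun t : ℕ => MM (z ((t + 1) ^ 3)) / Real.log ((t ^ 3 : ℕ) : ℝ)) atTop (𝓝 1) := by
    have h1 : Tendsto (fun t : ℕ => MM (z ((t + 1) ^ 3)) / Real.log (((t + 1) ^ 3 : ℕ) : ℝ)) atTop
        (𝓝 1) := hzl.comp hN1
    have h2 := h1.mul log_ratio
    rw [one_mul] at h2
    refine h2.congr' ?_
    filter_upwards [hlog.eventually_gt_atTop 0, eventually_ge_atTop 1] with t ht ht1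
    have h3 : Real.log (((t + 1) ^ 3 : ℕ) : ℝ) = 3 * Real.log ((t + 1 : ℕ) : ℝ) := by
      push_cast
      rw [Real.log_pow]
      norm_num
    have h4 : Real.log ((t ^ 3 : ℕ) : ℝ) = 3 * Real.log (t : ℝ) := by
      push_cast
      rw [Real.log_pow]
      norm_num
    have h5 : 0 < Real.log ((t + 1 : ℕ) : ℝ) := by
      apply Real.log_pos
      have : (1 : ℝ) ≤ t := by exact_mod_cast ht1
      push_cast
      linarith
    rw [h3, h4]
    field_simp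
  have hSS : Tendsto (fun t : ℕ => SS ![(1 : ℤ), 1] ![(0 : ℤ), 2] a (lw 2 (t ^ 3))) atTop (𝓝 V) :=
    hSSV.comp ((lw_tendsto 2).comp hN)
  have hs : ∀ i, (![(1 : ℤ), 1] : Fin 2 → ℤ) i ≠ 0 := by
    intro i
    fin_cases i <;> simp
  have hbig : ∀ᶠ t : ℕ in atTop, 2 ≤ t := eventually_ge_atTop 2
  have hh : ∀ᶠ t : ℕ in atTop, ∀ i, |(![(0 : ℤ), 2] : Fin 2 → ℤ) i| ≤ ((t ^ 3 : ℕ) : ℤ) ^ 2 := by
    filter_upwards [hbig] with t ht i
    have h1 : (2 : ℤ) ≤ ((t ^ 3 : ℕ) : ℤ) ^ 2 := by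
      have h2 : 2 ≤ (t ^ 3) ^ 2 := by
        calc 2 ≤ t := ht
          _ = t ^ 1 := (pow_one t).symm
          _ ≤ t ^ 6 := Nat.pow_le_pow_right (by omega) (by norm_num)
          _ = (t ^ 3) ^ 2 := by ring
      exact_mod_cast h2
    fin_cases i
    · simp
    · simpa using h1
  have hn : ∀ᶠ t : ℕ in atTop, t ^ 3 ≤ (t ^ 3) ^ 2 := by
    filter_upwards [hbig] with t ht
    exact Nat.le_self_pow (by norm_num) _
  have hU : ∀ᶠ t : ℕ in atTop, UU t ≤ (t ^ 3) ^ 2 := by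
    filter_upwards [hbig] with t ht
    have h1 : UU t ≤ 3 * t ^ 2 + 3 * t := Nat.sub_le _ _
    have h2 : (t ^ 3) ^ 2 = t ^ 2 * (t ^ 2 * t ^ 2) := by ring
    have h3 : 4 ≤ t ^ 2 := by nlinarith
    have h4 : 16 ≤ t ^ 2 * t ^ 2 := Nat.mul_le_mul h3 h3
    have h5 : t ^ 2 * 16 ≤ t ^ 2 * (t ^ 2 * t ^ 2) := Nat.mul_le_mul_left _ h4
    have h6 : t ≤ t ^ 2 := Nat.le_self_pow (by norm_num) _
    rw [h2]
    omega
  have hU2 : ∀ᶠ t : ℕ in atTop, (((t ^ 3 : ℕ) : ℝ)) ^ (5 / 4 : ℝ) ≤ ((UU t : ℕ) : ℝ) ^ 2 := by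
    filter_upwards [hbig] with t ht
    have ht0 : (0 : ℝ) ≤ t := Nat.cast_nonneg t
    have ht1 : (1 : ℝ) ≤ t := by exact_mod_cast (by omega : 1 ≤ t)
    have h1 : t ^ 2 ≤ UU t := by
      unfold UU
      have : 1 ≤ t ^ 2 := Nat.one_le_pow _ _ (by omega)
      omega
    have h2 : ((t : ℝ) ^ 2) ^ 2 ≤ ((UU t : ℕ) : ℝ) ^ 2 := by
      have : (t : ℝ) ^ 2 ≤ ((UU t : ℕ) : ℝ) := by exact_mod_cast h1
      gcongr
    refine le_trans ?_ h2
    push_cast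
    rw [← Real.rpow_natCast (t : ℝ) 3, ← Real.rpow_mul ht0]
    have h3 : ((t : ℝ) ^ 2) ^ 2 = (t : ℝ) ^ (4 : ℝ) := by
      rw [← pow_mul]
      norm_num
    rw [h3]
    apply Real.rpow_le_rpow_of_exponent_le ht1
    norm_num
  have hd : ∀ᶠ t : ℕ in atTop, ∀ m : ℕ, t ^ 3 < m → m ≤ t ^ 3 + UU t → ∀ i j : Fin 2, i ≠ j →
      (![(1 : ℤ), 1] : Fin 2 → ℤ) i * (m : ℤ) + (![(0 : ℤ), 2] : Fin 2 → ℤ) i ≠
        (![(1 : ℤ), 1] : Fin 2 → ℤ) j * (m : ℤ) + (![(0 : ℤ), 2] : Fin 2 → ℤ) j := by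
    refine Eventually.of_forall fun t m _ _ i j hij => ?_
    fin_cases i <;> fin_cases j <;> simp at hij ⊢
  have hSS0 : ∀ᶠ t : ℕ in atTop, 0 < SS ![(1 : ℤ), 1] ![(0 : ℤ), 2] a (lw 2 (t ^ 3)) :=
    hSS.eventually (lt_mem_nhds hV)
  have key1 := KEY83.keylim hMain hMert hs hCon (fun t => t ^ 3) (fun t => t ^ 3) UU
    (fun t => z (t ^ 3)) (fun _ => ![(0 : ℤ), 2]) hN hZ1 hh hn hU hU2 hd hSS0
  have key2 := KEY83.keylim hMain hMert hs hCon (fun t => t ^ 3) (fun t => t ^ 3) UU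
    (fun t => z ((t + 1) ^ 3)) (fun _ => ![(0 : ℤ), 2]) hN hZ2 hh hn hU hU2 hd hSS0
  -- the length of the interval
  have hUt : Tendsto (fun t : ℕ => ((UU t : ℕ) : ℝ) / (9 * (t : ℝ) ^ 2)) atTop (𝓝 (1 / 3)) := by
    have h1 : Tendsto (fun t : ℕ => (1 : ℝ) / t) atTop (𝓝 0) := tendsto_one_div_atTop_nhds_zero_nat
    have h2 : Tendsto (fun t : ℕ => (3 + 3 * (1 / (t : ℝ)) - 2 * (1 / (t : ℝ)) * (1 / (t : ℝ))) / 9)
        atTop (𝓝 ((3 + 3 * 0 - 2 * 0 * 0) / 9)) :=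
      (((h1.const_mul 3).const_add 3).sub ((h1.const_mul 2).mul h1)).div_const 9
    have h3 : ((3 + 3 * 0 - 2 * 0 * 0) / 9 : ℝ) = 1 / 3 := by norm_num
    rw [h3] at h2
    refine h2.congr' ?_
    filter_upwards [hbig] with t ht
    have ht0 : (0 : ℝ) < t := by exact_mod_cast (by omega : 0 < t)
    have h4 : ((UU t : ℕ) : ℝ) = 3 * (t : ℝ) ^ 2 + 3 * t - 2 := by
      unfold UU
      rw [Nat.cast_sub (by have : 1 ≤ t ^ 2 := Nat.one_le_pow _ _ (by omega)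
                           omega)]
      push_cast
      ring
    rw [h4]
    field_simp
  have conv : ∀ Z : ℕ → ℕ, Tendsto (fun t : ℕ => (sg ![(1 : ℤ), 1] ![(0 : ℤ), 2] a (Z t) (t ^ 3)
      (UU t) : ℝ) * Real.log ((t ^ 3 : ℕ) : ℝ) ^ 2 /
      (((UU t : ℕ) : ℝ) * SS ![(1 : ℤ), 1] ![(0 : ℤ), 2] a (lw 2 (t ^ 3)))) atTop (𝓝 1) →
      Tendsto (fun t : ℕ => (sg ![(1 : ℤ), 1] ![(0 : ℤ), 2] a (Z t) (t ^ 3) (UU t) : ℝ) *
        Real.log t ^ 2 / (t : ℝ) ^ 2) atTop (𝓝 (V / 3)) := by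
    intro Z hZ
    have h1 := (hZ.mul hSS).mul hUt
    have h2 : (1 * V * (1 / 3) : ℝ) = V / 3 := by ring
    rw [h2] at h1
    refine h1.congr' ?_
    filter_upwards [hbig, hSS0] with t ht hpos
    have ht0 : (0 : ℝ) < t := by exact_mod_cast (by omega : 0 < t)
    have hUpos : (0 : ℝ) < ((UU t : ℕ) : ℝ) := by
      have : 0 < UU t := by
        unfold UU
        have : 1 ≤ t ^ 2 := Nat.one_le_pow _ _ (by omega)
        omega
      exact_mod_cast this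
    have h4 : Real.log ((t ^ 3 : ℕ) : ℝ) = 3 * Real.log (t : ℝ) := by
      push_cast
      rw [Real.log_pow]
      norm_num
    rw [h4]
    field_simp
    ring
  have lim1 := conv (fun t => z (t ^ 3)) key1
  have lim2 := conv (fun t => z ((t + 1) ^ 3)) key2
  refine tendsto_of_tendsto_of_tendsto_of_le_of_le' lim2 lim1 ?_ ?_
  · filter_upwards [hbig] with t ht
    have hspec := UU_spec (t := t) (by omega)
    have h1 : sg ![(1 : ℤ), 1] ![(0 : ℤ), 2] a (z ((t + 1) ^ 3)) (t ^ 3) (UU t) ≤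
        TT (Rset a z) t := by
      rw [KEY83.sg_eq_ncard, TT]
      refine Set.ncard_le_ncard ?_ ?_
      · rintro m ⟨hm1, hm2, hm3⟩
        refine ⟨fun p hp hpz => ?_, fun p hp hpz => ?_, hm1, by omega⟩
        · have := hm3 p hp (hpz.trans (hz (by omega)))
          rw [sur_iff] at this
          exact this.1
        · have := hm3 p hp (hpz.trans (hz (by omega)))
          rw [sur_iff] at this
          exact this.2
      · refine (Set.finite_Iic ((t + 1) ^ 3)).subset ?_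
        rintro m ⟨-, -, -, hm⟩
        rw [Set.mem_Iic]
        omega
    have h2 : (sg ![(1 : ℤ), 1] ![(0 : ℤ), 2] a (z ((t + 1) ^ 3)) (t ^ 3) (UU t) : ℝ) ≤
        TT (Rset a z) t := by exact_mod_cast h1
    gcongr
  · filter_upwards [hbig] with t ht
    have hspec := UU_spec (t := t) (by omega)
    have h1 : TT (Rset a z) t ≤ sg ![(1 : ℤ), 1] ![(0 : ℤ), 2] a (z (t ^ 3)) (t ^ 3) (UU t) := by
      rw [KEY83.sg_eq_ncard, TT]
      refine Set.ncard_le_ncard ?_ ?_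
      · rintro m ⟨hm1, hm2, hm3, hm4⟩
        refine ⟨hm3, by omega, fun p hp hpz => ?_⟩
        rw [sur_iff]
        exact ⟨hm1 p hp (hpz.trans (hz (by omega))), hm2 p hp (hpz.trans (hz (by omega)))⟩
      · refine (Set.finite_Iic (t ^ 3 + UU t)).subset ?_
        rintro m ⟨-, hm, -⟩
        exact hm
    have h2 : (TT (Rset a z) t : ℝ) ≤
        sg ![(1 : ℤ), 1] ![(0 : ℤ), 2] a (z (t ^ 3)) (t ^ 3) (UU t) := by exact_mod_cast h1
    gcongr

end Pool.Agent.H50.BP
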