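import Pool.Agent.H50.BP.SSL

/-!
# FLS: the fundamental lemma
-/

set_option autoImplicit false

open MeasureTheory Filter ProbabilityTheory
open scoped Topology ENNReal

namespace Pool.Agent.H50.BP

open Pool.Agent.H50.BF

namespace FLS68

theorem MM_pos (w : ℕ) : 0 < MM w := by
  unfold MM
  refine Finset.prod_pos fun p hp => ?_
  exact lt_of_lt_of_le one_pos (SSL68.one_le_inv (Finset.mem_filter.1 hp).2)

theorem one_le_MM (w : ℕ) : 1 ≤ MM w := by
  unfold MM
  have h1 : ∏ p ∈ (Finset.Icc 1 w).filter Nat.Prime, (1 : ℝ)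
      ≤ ∏ p ∈ (Finset.Icc 1 w).filter Nat.Prime, (1 - (p : ℝ)⁻¹)⁻¹ :=
    Finset.prod_le_prod (fun _ _ => zero_le_one)
      fun p hp => SSL68.one_le_inv (Finset.mem_filter.1 hp).2
  simpa using h1

theorem MM_mono : Monotone MM := by
  intro w w' h
  unfold MM
  have hsub : (Finset.Icc 1 w).filter Nat.Prime ⊆ (Finset.Icc 1 w').filter Nat.Prime := by
    intro p hp
    rw [Finset.mem_filter, Finset.mem_Icc] at hp ⊢
    exact ⟨⟨hp.1.1, hp.1.2.trans h⟩, hp.2⟩
  rw [← Finset.prod_sdiff hsub]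
  have h1 : 1 ≤ ∏ p ∈ (Finset.Icc 1 w').filter Nat.Prime \ (Finset.Icc 1 w).filter Nat.Prime,
      (1 - (p : ℝ)⁻¹)⁻¹ := by
    have h2 : ∏ p ∈ (Finset.Icc 1 w').filter Nat.Prime \ (Finset.Icc 1 w).filter Nat.Prime, (1 : ℝ)
        ≤ ∏ p ∈ (Finset.Icc 1 w').filter Nat.Prime \ (Finset.Icc 1 w).filter Nat.Prime,
          (1 - (p : ℝ)⁻¹)⁻¹ :=
      Finset.prod_le_prod (fun _ _ => zero_le_one)
        fun p hp => SSL68.one_le_inv (Finset.mem_filter.1 (Finset.mem_sdiff.1 hp).1).2
    simpa using h2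
  have h3 : 0 < ∏ p ∈ (Finset.Icc 1 w).filter Nat.Prime, (1 - (p : ℝ)⁻¹)⁻¹ := MM_pos w
  nlinarith

theorem MM_le (w : ℕ) (hw : 1 ≤ w) : MM w ≤ w := by
  induction w, hw using Nat.le_induction with
  | base =>
    have h1 : (Finset.Icc 1 1).filter Nat.Prime = ∅ := by decide
    unfold MM
    rw [h1]
    simp
  | succ w hw ih =>
    have h1 : Finset.Icc 1 (w + 1) = insert (w + 1) (Finset.Icc 1 w) := by
      ext x
      simp only [Finset.mem_Icc, Finset.mem_insert]
      omega
    have hw0 : (0 : ℝ) < w := by exact_mod_cast hw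
    unfold MM at ih ⊢
    rw [h1, Finset.filter_insert]
    split_ifs with hp
    · rw [Finset.prod_insert (by simp)]
      have h2 : (1 - (((w + 1 : ℕ) : ℝ))⁻¹)⁻¹ = ((w : ℝ) + 1) / w := by
        have h3 : 1 - (((w + 1 : ℕ) : ℝ))⁻¹ = (w : ℝ) / ((w : ℝ) + 1) := by
          push_cast
          have h4 : (w : ℝ) + 1 ≠ 0 := by positivity
          rw [eq_div_iff h4, sub_mul, inv_mul_cancel₀ h4]
          ring
        rw [h3, inv_div]
      rw [h2]
      calc ((w : ℝ) + 1) / w * ∏ p ∈ (Finset.Icc 1 w).filter Nat.Prime, (1 - (p : ℝ)⁻¹)⁻¹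
          ≤ ((w : ℝ) + 1) / w * w := mul_le_mul_of_nonneg_left ih (by positivity)
        _ = ((w + 1 : ℕ) : ℝ) := by
          push_cast
          field_simp
    · refine ih.trans ?_
      push_cast
      linarith

/-- the bad residues -/
def Q {k : ℕ} (s h : Fin k → ℤ) (a : ℕ → ℕ) (n p j : ℕ) : Prop :=
  ∃ i, (p : ℤ) ∣ s i * ((n + j : ℕ) : ℤ) + h i - (a p : ℤ)

theorem Q_per {k : ℕ} (s h : Fin k → ℤ) (a : ℕ → ℕ) (n p j : ℕ) :
    Q s h a n p j ↔ Q s h a n p (j % p) := by
  unfold Q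
  refine exists_congr fun i => ?_
  apply dvd_iff_dvd_of_dvd_sub
  have h1 : s i * ((n + j : ℕ) : ℤ) + h i - (a p : ℤ)
      - (s i * ((n + j % p : ℕ) : ℤ) + h i - (a p : ℤ)) = (p : ℤ) * (s i * ((j / p : ℕ) : ℤ)) := by
    have h2 : (j : ℤ) = (p : ℤ) * ((j / p : ℕ) : ℤ) + ((j % p : ℕ) : ℤ) := by
      exact_mod_cast (Nat.div_add_mod j p).symm
    push_cast at h2 ⊢
    linear_combination (s i) * h2
  rw [h1]
  exact dvd_mul_right _ _

open Classical in
theorem card_Q {k : ℕ} (s h : Fin k → ℤ) (a : ℕ → ℕ) (n p : ℕ) :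
    ((Finset.range p).filter (fun r => Q s h a n p r)).card = nua s h a p := by
  rw [Aux68.nua_eq]
  set P : ℕ → Prop := fun r => ∃ i, (p : ℤ) ∣ s i * (r : ℤ) + h i - (a p : ℤ) with hP
  have hper : Function.Periodic P p := by
    intro r
    rw [hP]
    apply propext
    refine exists_congr fun i => ?_
    apply dvd_iff_dvd_of_dvd_sub
    have h1 : s i * ((r + p : ℕ) : ℤ) + h i - (a p : ℤ) - (s i * (r : ℤ) + h i - (a p : ℤ))
        = (p : ℤ) * s i := by
      push_cast
      ring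
    rw [h1]
    exact dvd_mul_right _ _
  have h1 := Nat.filter_Ico_card_eq_of_periodic n p P hper
  rw [Nat.count_eq_card_filter_range] at h1
  rw [← h1]
  refine Finset.card_bij (fun r _ => n + r) ?_ ?_ ?_
  · intro r hr
    rw [Finset.mem_filter, Finset.mem_range] at hr
    rw [Finset.mem_filter, Finset.mem_Ico]
    exact ⟨⟨by omega, by omega⟩, hr.2⟩
  · intro r _ r' _ hrr
    omega
  · intro b hb
    rw [Finset.mem_filter, Finset.mem_Ico] at hb
    refine ⟨b - n, ?_, by omega⟩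
    rw [Finset.mem_filter, Finset.mem_range]
    refine ⟨by omega, ?_⟩
    have h2 : n + (b - n) = b := by omega
    change P (n + (b - n))
    rw [h2]
    exact hb.2

open Classical in
theorem sg_Q {k : ℕ} (s h : Fin k → ℤ) (a : ℕ → ℕ) (w n U : ℕ) :
    sg s h a w n U = ((Finset.Icc 1 U).filter
      (fun j : ℕ => ∀ p : ℕ, p.Prime → p ≤ w → ¬ Q s h a n p j)).card := by
  unfold sg
  refine Finset.card_bij (fun r _ => r + 1) ?_ ?_ ?_
  · intro r hr
    rw [Finset.mem_filter, Finset.mem_range] at hr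
    rw [Finset.mem_filter, Finset.mem_Icc]
    refine ⟨⟨by omega, by omega⟩, fun p hp hpw => ?_⟩
    exact not_exists.2 (hr.2 p hp hpw)
  · intro r _ r' _ hrr
    omega
  · intro b hb
    rw [Finset.mem_filter, Finset.mem_Icc] at hb
    refine ⟨b - 1, ?_, by omega⟩
    rw [Finset.mem_filter, Finset.mem_range]
    refine ⟨by omega, fun p hp hpw i => ?_⟩
    have h2 : n + (b - 1) + 1 = n + b := by omega
    rw [h2]
    exact not_exists.1 (hb.2 p hp hpw) i

theorem tendsto_lw (k : ℕ) : Tendsto (fun N : ℕ => lw k N) atTop atTop := by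
  unfold lw
  exact tendsto_nat_floor_atTop.comp ((tendsto_pow_atTop (by omega)).comp
    (Real.tendsto_log_atTop.comp tendsto_natCast_atTop_atTop))

theorem lw_pow_le (k m : ℕ) (κ c : ℝ) (hκ : 0 < κ) (hc : 0 < c) :
    ∀ᶠ N : ℕ in atTop, ((lw k N : ℕ) : ℝ) ^ m ≤ c * (N : ℝ) ^ κ := by
  have h1 := (isLittleO_log_rpow_rpow_atTop (((2 * k + 6) * m : ℕ) : ℝ) hκ).bound hc
  have h2 := tendsto_natCast_atTop_atTop (R := ℝ) |>.eventually h1
  filter_upwards [h2, eventually_ge_atTop 1] with N hN hN1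
  have hN1' : (1 : ℝ) ≤ N := by exact_mod_cast hN1
  have hlog : 0 ≤ Real.log N := Real.log_nonneg hN1'
  rw [Real.rpow_natCast, Real.norm_of_nonneg (by positivity),
    Real.norm_of_nonneg (by positivity), pow_mul] at hN
  refine le_trans ?_ hN
  refine pow_le_pow_left₀ (Nat.cast_nonneg _) ?_ m
  exact Nat.floor_le (by positivity)

end FLS68

open FLS68 in
theorem fls : Pool.Agent.H50.GW.S_FND → S_SSL → S_FLS := by
  classical
  intro hFND hSSL k s hs κ ε hκ hε
  obtain ⟨c0, hc0, hSS⟩ := hSSL k s hs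
  obtain ⟨S, hS⟩ : ∃ S : ℕ, S = ∑ i, (s i).natAbs := ⟨_, rfl⟩
  obtain ⟨K, x0, hK, hF⟩ := hFND (k + S + 1) (by omega) (ε / 2) (by positivity)
  filter_upwards [(tendsto_lw k).eventually_ge_atTop (max x0 1),
    lw_pow_le k (K + k) κ (ε / 2 * c0) hκ (by positivity)] with N hw1 hw2 h a n U hU
  set w := lw k N with hw
  have hwx : x0 ≤ w := le_trans (le_max_left _ _) hw1
  have hw1' : 1 ≤ w := le_trans (le_max_right _ _) hw1
  have hwR : (1 : ℝ) ≤ w := by exact_mod_cast hw1'
  have hcard : ∀ p : ℕ, p.Prime →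
      ((Finset.range p).filter (fun r => Q s h a n p r)).card ≤ k + S + 1 := by
    intro p hp
    rw [card_Q]
    by_cases hpS : p ≤ S
    · have := SSL68.nua_le' s h a p
      omega
    · have hpd : ∀ i, ¬ (p : ℤ) ∣ s i := by
        intro i hi
        have h1 : (s i).natAbs ≤ ∑ i, (s i).natAbs :=
          Finset.single_le_sum (f := fun i => (s i).natAbs) (fun _ _ => Nat.zero_le _)
            (Finset.mem_univ i)
        have h2 : p ∣ (s i).natAbs := Int.natCast_dvd.1 hi
        have h3 : (s i).natAbs ≠ 0 := Int.natAbs_ne_zero.2 (hs i)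
        have h4 := Nat.le_of_dvd (Nat.pos_of_ne_zero h3) h2
        omega
      have := SSL68.nua_le s h a p hp hpd
      omega
  have h1 := hF (w ^ K) w hwx le_rfl (Q s h a n) (Q_per s h a n) hcard U
  simp only [card_Q] at h1
  rw [← sg_Q] at h1
  set G : ℝ := ∏ p ∈ (Finset.Icc 1 w).filter Nat.Prime, (1 - (nua s h a p : ℝ) / p) with hG
  have hMM : 0 < MM w ^ k := pow_pos (MM_pos w) k
  have hSSG : SS s h a w = G * MM w ^ k := rfl
  have hmain : SS s h a w * (U / MM w ^ k) = U * G := by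
    rw [hSSG]
    field_simp
  rw [hmain]
  rcases hSS h a w with h0 | h0
  · -- a prime with only bad residues
    have hG0 : G = 0 := by
      rw [hSSG] at h0
      rcases mul_eq_zero.1 h0 with h2 | h2
      · exact h2
      · exact absurd h2 hMM.ne'
    rw [hG, Finset.prod_eq_zero_iff] at hG0
    obtain ⟨p, hp, hp0⟩ := hG0
    rw [Finset.mem_filter, Finset.mem_Icc] at hp
    have hpp : (0 : ℝ) < p := by exact_mod_cast hp.2.pos
    have h3 : (nua s h a p : ℝ) = p := by
      rw [sub_eq_zero, eq_comm, div_eq_one_iff_eq hpp.ne'] at hp0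
      exact hp0
    have h4 : nua s h a p = p := by exact_mod_cast h3
    have h5 : sg s h a w n U = 0 := by
      rw [sg_Q, Finset.card_eq_zero, Finset.filter_eq_empty_iff]
      intro j _ hj
      apply hj p hp.2 hp.1.2
      rw [Q_per]
      rw [← card_Q s h a n p] at h4
      have h6 : (Finset.range p).filter (fun r => Q s h a n p r) = Finset.range p :=
        Finset.eq_of_subset_of_card_le (Finset.filter_subset _ _) (by rw [h4, Finset.card_range])
      have h7 : j % p ∈ Finset.range p := Finset.mem_range.2 (Nat.mod_lt _ hp.2.pos)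
      rw [← h6, Finset.mem_filter] at h7
      exact h7.2
    have h6 : G = 0 := by
      rw [hSSG] at h0
      rcases mul_eq_zero.1 h0 with h2 | h2
      · exact h2
      · exact absurd h2 hMM.ne'
    rw [h5, h6]
    simp
  · -- the error term is small
    have h2 : Real.sqrt ((w ^ K : ℕ) : ℝ) ≤ (w : ℝ) ^ K := by
      push_cast
      rw [Real.sqrt_le_iff]
      refine ⟨by positivity, ?_⟩
      have h3 : (1 : ℝ) ≤ (w : ℝ) ^ K := one_le_pow₀ hwR
      nlinarith
    have h3 : (w : ℝ) ^ K ≤ ε / 2 * (U * G) := by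
      have h4 : MM w ^ k ≤ (w : ℝ) ^ k := pow_le_pow_left₀ (MM_pos w).le (MM_le w hw1') k
      have hwk : (0 : ℝ) < (w : ℝ) ^ k := by positivity
      have h5 : (w : ℝ) ^ K * (w : ℝ) ^ k ≤ ε / 2 * c0 * U := by
        rw [← pow_add]
        exact hw2.trans (mul_le_mul_of_nonneg_left hU (by positivity))
      have h6 : (w : ℝ) ^ K * MM w ^ k ≤ ε / 2 * (SS s h a w * U) := by
        calc (w : ℝ) ^ K * MM w ^ k ≤ (w : ℝ) ^ K * (w : ℝ) ^ k :=
              mul_le_mul_of_nonneg_left h4 (by positivity)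
          _ ≤ ε / 2 * c0 * U := h5
          _ = ε / 2 * (c0 * U) := by ring
          _ ≤ ε / 2 * (SS s h a w * U) := by gcongr
      rw [hSSG] at h6
      have h7 : (w : ℝ) ^ K * MM w ^ k ≤ (ε / 2 * (U * G)) * MM w ^ k := by
        calc _ ≤ _ := h6
          _ = _ := by ring
      exact le_of_mul_le_mul_right h7 hMM
    calc |(sg s h a w n U : ℝ) - U * G| ≤ ε / 2 * (U * G) + Real.sqrt ((w ^ K : ℕ) : ℝ) := h1
      _ ≤ ε / 2 * (U * G) + ε / 2 * (U * G) := by linarith
      _ = ε * (U * G) := by ring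

end Pool.Agent.H50.BP
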