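import Pool.Agent.H50.BP.KEY83

/-! # GOLD: Goldbach's problem in the random sieve -/

set_option autoImplicit false

open MeasureTheory Filter ProbabilityTheory
open scoped Topology ENNReal

namespace Pool.Agent.H50.BP

open Pool.Agent.H50.BF

namespace GOLD83

theorem dvd_iff (m b p : ℕ) : (p : ℤ) ∣ (m : ℤ) - (b : ℤ) ↔ m % p = b % p := by
  rw [← Nat.modEq_iff_dvd]
  exact ⟨fun h => h.symm, fun h => h.symm⟩

theorem sur_iff (a : ℕ → ℕ) {m N : ℕ} (hm : m ≤ N) (p : ℕ) :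
    Sur ![(1 : ℤ), -1] ![(0 : ℤ), (N : ℤ)] a m p ↔ m % p ≠ a p % p ∧ (N - m) % p ≠ a p % p := by
  unfold Sur
  rw [Fin.forall_fin_two]
  have e0 : (![(1 : ℤ), -1] 0) * (m : ℤ) + (![(0 : ℤ), (N : ℤ)] 0) - (a p : ℤ) =
      (m : ℤ) - (a p : ℤ) := by
    simp
  have e1 : (![(1 : ℤ), -1] 1) * (m : ℤ) + (![(0 : ℤ), (N : ℤ)] 1) - (a p : ℤ) =
      ((N - m : ℕ) : ℤ) - (a p : ℤ) := by
    rw [Nat.cast_sub hm]
    simp
    ring
  rw [e0, e1, dvd_iff, dvd_iff]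

open Classical in
theorem one_le (p : ℕ) (σ c : ℤ) (hσ : σ = 1 ∨ σ = -1) :
    ((Finset.range p).filter (fun r : ℕ => (p : ℤ) ∣ σ * (r : ℤ) + c)).card ≤ 1 := by
  rw [Finset.card_le_one]
  intro r hr r' hr'
  rw [Finset.mem_filter, Finset.mem_range] at hr hr'
  have h1 : (p : ℤ) ∣ (r : ℤ) - r' := by
    have h2 := dvd_sub hr.2 hr'.2
    rcases hσ with h | h
    · rw [h] at h2
      have e : (1 : ℤ) * (r : ℤ) + c - (1 * (r' : ℤ) + c) = (r : ℤ) - r' := by ring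
      rwa [e] at h2
    · rw [h] at h2
      have e : (-1 : ℤ) * (r : ℤ) + c - (-1 * (r' : ℤ) + c) = -((r : ℤ) - r') := by ring
      rw [e] at h2
      exact (dvd_neg).1 h2
  have h3 : (r : ℤ) - r' = 0 := by
    apply Int.eq_zero_of_abs_lt_dvd h1
    rw [abs_lt]
    constructor <;> omega
  omega

theorem nua_lt (a : ℕ → ℕ) (t : ℕ) {p : ℕ} (hp : p.Prime) :
    nua ![(1 : ℤ), -1] ![(0 : ℤ), ((2 * t : ℕ) : ℤ)] a p < p := by
  classical
  have hnu : nua ![(1 : ℤ), -1] ![(0 : ℤ), ((2 * t : ℕ) : ℤ)] a p =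
      ((Finset.range p).filter (fun r : ℕ => ∃ i : Fin 2, (p : ℤ) ∣
      (![(1 : ℤ), -1] i) * (r : ℤ) + (![(0 : ℤ), ((2 * t : ℕ) : ℤ)] i) - (a p : ℤ))).card := by
    unfold nua
    congr
  rw [hnu]
  have h0 := one_le p 1 (-(a p : ℤ)) (Or.inl rfl)
  have h1 := one_le p (-1) (((2 * t : ℕ) : ℤ) - (a p : ℤ)) (Or.inr rfl)
  have hsub : (Finset.range p).filter (fun r : ℕ => ∃ i : Fin 2, (p : ℤ) ∣
      (![(1 : ℤ), -1] i) * (r : ℤ) + (![(0 : ℤ), ((2 * t : ℕ) : ℤ)] i) - (a p : ℤ)) ⊆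
      ((Finset.range p).filter (fun r : ℕ => (p : ℤ) ∣ 1 * (r : ℤ) + -(a p : ℤ))) ∪
      ((Finset.range p).filter (fun r : ℕ => (p : ℤ) ∣ -1 * (r : ℤ) + (((2 * t : ℕ) : ℤ) - (a p : ℤ)))) := by
    intro r hr
    rw [Finset.mem_filter, Fin.exists_fin_two] at hr
    rw [Finset.mem_union, Finset.mem_filter, Finset.mem_filter]
    rcases hr.2 with h | h
    · left
      refine ⟨hr.1, ?_⟩
      simpa [sub_eq_add_neg] using h
    · right
      refine ⟨hr.1, ?_⟩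
      have e : (-1 : ℤ) * (r : ℤ) + (((2 * t : ℕ) : ℤ) - (a p : ℤ)) =
        (![(1 : ℤ), -1] 1) * (r : ℤ) + (![(0 : ℤ), ((2 * t : ℕ) : ℤ)] 1) - (a p : ℤ) := by
        simp
        ring
      rw [e]
      exact h
  rcases hp.two_le.eq_or_lt with h2 | h2
  · subst h2
    have hsub2 : ((Finset.range 2).filter (fun r : ℕ => ((2 : ℕ) : ℤ) ∣ -1 * (r : ℤ) +
        (((2 * t : ℕ) : ℤ) - (a 2 : ℤ)))) ⊆
        ((Finset.range 2).filter (fun r : ℕ => ((2 : ℕ) : ℤ) ∣ 1 * (r : ℤ) + -(a 2 : ℤ))) := by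
      intro r hr
      rw [Finset.mem_filter] at hr ⊢
      refine ⟨hr.1, ?_⟩
      have := hr.2
      push_cast at this ⊢
      omega
    have h3 := Finset.card_le_card (hsub.trans (Finset.union_subset le_rfl hsub2))
    omega
  · have h3 := (Finset.card_le_card hsub).trans (Finset.card_union_le _ _)
    omega

theorem SS_ne (a : ℕ → ℕ) (t w : ℕ) : SS ![(1 : ℤ), -1] ![(0 : ℤ), ((2 * t : ℕ) : ℤ)] a w ≠ 0 := by
  unfold SS
  refine mul_ne_zero ?_ (pow_ne_zero _ (MM_pos w).ne')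
  rw [Finset.prod_ne_zero_iff]
  intro p hp
  rw [Finset.mem_filter] at hp
  have hp0 : (0 : ℝ) < p := by exact_mod_cast hp.2.pos
  have h1 : (nua ![(1 : ℤ), -1] ![(0 : ℤ), ((2 * t : ℕ) : ℤ)] a p : ℝ) < p := by
    exact_mod_cast nua_lt a t hp.2
  have h2 : (nua ![(1 : ℤ), -1] ![(0 : ℤ), ((2 * t : ℕ) : ℤ)] a p : ℝ) / p < 1 := by
    rw [div_lt_one hp0]; exact h1
  linarith

/-- the beginning of the interval -/
noncomputable def nn (t : ℕ) : ℕ := ⌊((2 * t : ℕ) : ℝ) / Real.log ((2 * t : ℕ) : ℝ) ^ 3⌋₊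

theorem tendsto_two_mul : Tendsto (fun t : ℕ => 2 * t) atTop atTop :=
  tendsto_id.const_mul_atTop' (by norm_num)

theorem tendsto_log : Tendsto (fun t : ℕ => Real.log ((2 * t : ℕ) : ℝ)) atTop atTop :=
  Real.tendsto_log_atTop.comp (tendsto_natCast_atTop_atTop.comp tendsto_two_mul)

/-- powers of the logarithm are small -/
theorem log_pow_small (k : ℕ) (δ : ℝ) (hδ : 0 < δ) : ∀ᶠ t : ℕ in atTop,
    Real.log ((2 * t : ℕ) : ℝ) ^ k ≤ δ * ((2 * t : ℕ) : ℝ) := by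
  have h1 : ∀ᶠ x : ℝ in atTop, ‖Real.log x ^ k‖ ≤ δ * ‖x‖ :=
    (Real.isLittleO_pow_log_id_atTop (n := k)).bound hδ
  have h2 := (tendsto_natCast_atTop_atTop (R := ℝ)).comp tendsto_two_mul
  filter_upwards [h2.eventually h1, tendsto_log.eventually_gt_atTop 0] with t h3 h4
  simp only [Function.comp] at h3
  rw [Real.norm_of_nonneg (by positivity), Real.norm_of_nonneg (Nat.cast_nonneg _)] at h3
  exact h3

theorem nn_lower : ∀ᶠ t : ℕ in atTop,
    ((2 * t : ℕ) : ℝ) / Real.log ((2 * t : ℕ) : ℝ) ^ 3 / 2 ≤ (nn t : ℝ) := by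
  filter_upwards [log_pow_small 3 (1 / 2) (by norm_num), tendsto_log.eventually_gt_atTop 0] with t h1 h2
  have h3 : (2 : ℝ) ≤ ((2 * t : ℕ) : ℝ) / Real.log ((2 * t : ℕ) : ℝ) ^ 3 := by
    rw [le_div_iff₀ (by positivity)]
    linarith
  have h4 := Nat.sub_one_lt_floor (((2 * t : ℕ) : ℝ) / Real.log ((2 * t : ℕ) : ℝ) ^ 3)
  unfold nn
  linarith

theorem nn_upper (t : ℕ) : (nn t : ℝ) ≤ ((2 * t : ℕ) : ℝ) / Real.log ((2 * t : ℕ) : ℝ) ^ 3 := by
  unfold nn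
  apply Nat.floor_le
  have : 0 ≤ Real.log ((2 * t : ℕ) : ℝ) := Real.log_natCast_nonneg _
  positivity

theorem nn_small : Tendsto (fun t : ℕ => (nn t : ℝ) / ((2 * t : ℕ) : ℝ)) atTop (𝓝 0) := by
  have h1 : Tendsto (fun t : ℕ => (1 : ℝ) / Real.log ((2 * t : ℕ) : ℝ) ^ 3) atTop (𝓝 0) := by
    have := ((tendsto_pow_atTop (n := 3) (by norm_num)).comp tendsto_log)
    exact tendsto_const_nhds.div_atTop this
  refine squeeze_zero' (Eventually.of_forall fun t => by positivity) ?_ h1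
  filter_upwards [eventually_ge_atTop 1, tendsto_log.eventually_gt_atTop 0] with t ht h2
  have ht0 : (0 : ℝ) < ((2 * t : ℕ) : ℝ) := by exact_mod_cast (by omega : 0 < 2 * t)
  have h3 := nn_upper t
  rw [div_le_div_iff₀ ht0 (by positivity)]
  rw [le_div_iff₀ (by positivity)] at h3
  linarith

theorem log_ratio : Tendsto (fun t : ℕ => Real.log (nn t) / Real.log ((2 * t : ℕ) : ℝ)) atTop
    (𝓝 1) := by
  have h1 : Tendsto (fun x : ℝ => Real.log x / x) atTop (𝓝 0) := by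
    have := Real.isLittleO_log_id_atTop.tendsto_div_nhds_zero
    exact this
  have h2 : Tendsto (fun t : ℕ => Real.log (Real.log ((2 * t : ℕ) : ℝ)) /
      Real.log ((2 * t : ℕ) : ℝ)) atTop (𝓝 0) := h1.comp tendsto_log
  have h3 : Tendsto (fun t : ℕ => Real.log 2 / Real.log ((2 * t : ℕ) : ℝ)) atTop (𝓝 0) :=
    tendsto_const_nhds.div_atTop tendsto_log
  have h4 : Tendsto (fun t : ℕ => 1 - 3 * (Real.log (Real.log ((2 * t : ℕ) : ℝ)) /
      Real.log ((2 * t : ℕ) : ℝ)) - Real.log 2 / Real.log ((2 * t : ℕ) : ℝ)) atTop (𝓝 1) := by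
    have := ((h2.const_mul 3).const_sub 1).sub h3
    simpa using this
  refine tendsto_of_tendsto_of_tendsto_of_le_of_le' h4 tendsto_const_nhds ?_ ?_
  · filter_upwards [nn_lower, tendsto_log.eventually_gt_atTop 0, eventually_ge_atTop 1] with t h5 h6 ht
    have ht0 : (0 : ℝ) < ((2 * t : ℕ) : ℝ) := by exact_mod_cast (by omega : 0 < 2 * t)
    have h7 : Real.log (((2 * t : ℕ) : ℝ) / Real.log ((2 * t : ℕ) : ℝ) ^ 3 / 2) ≤ Real.log (nn t) :=
      Real.log_le_log (by positivity) h5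
    rw [Real.log_div (by positivity) (by norm_num), Real.log_div ht0.ne' (by positivity),
      Real.log_pow] at h7
    rw [le_div_iff₀ h6]
    have e : (1 - 3 * (Real.log (Real.log ((2 * t : ℕ) : ℝ)) / Real.log ((2 * t : ℕ) : ℝ)) -
        Real.log 2 / Real.log ((2 * t : ℕ) : ℝ)) * Real.log ((2 * t : ℕ) : ℝ) =
        Real.log ((2 * t : ℕ) : ℝ) - 3 * Real.log (Real.log ((2 * t : ℕ) : ℝ)) - Real.log 2 := by
      field_simp
    rw [e]
    push_cast at h7 ⊢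
    linarith
  · filter_upwards [nn_lower, tendsto_log.eventually_gt_atTop 1, eventually_ge_atTop 1] with t h5 h6 ht
    have ht0 : (0 : ℝ) < ((2 * t : ℕ) : ℝ) := by exact_mod_cast (by omega : 0 < 2 * t)
    have h60 : 0 < Real.log ((2 * t : ℕ) : ℝ) := by linarith
    rw [div_le_one h60]
    have h7 : (0 : ℝ) < nn t := lt_of_lt_of_le (by positivity) h5
    refine Real.log_le_log h7 ((nn_upper t).trans ?_)
    apply div_le_self ht0.le
    exact one_le_pow₀ h6.le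

theorem nn_tendsto : Tendsto nn atTop atTop := by
  rw [tendsto_atTop]
  intro B
  filter_upwards [nn_lower, log_pow_small 3 (1 / (2 * (B + 1))) (by positivity),
    tendsto_log.eventually_gt_atTop 0] with t h1 h2 h3
  have h4 : (B : ℝ) + 1 ≤ ((2 * t : ℕ) : ℝ) / Real.log ((2 * t : ℕ) : ℝ) ^ 3 / 2 := by
    rw [div_div, le_div_iff₀ (by positivity)]
    have e : ((B : ℝ) + 1) * (Real.log ((2 * t : ℕ) : ℝ) ^ 3 * 2) =
      (2 * (B + 1)) * Real.log ((2 * t : ℕ) : ℝ) ^ 3 := by ring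
    rw [e]
    have h5 := mul_le_mul_of_nonneg_left h2 (by positivity : (0 : ℝ) ≤ 2 * (B + 1))
    refine h5.trans (le_of_eq ?_)
    field_simp
  have h5 : (B : ℝ) ≤ nn t := by linarith
  exact_mod_cast h5

end GOLD83

open GOLD83

theorem gold : S_MAIN → S_SSL → BF.S_MERT → S_GOLD := by
  intro hMain hSSL hMert a z hz hzl hCon
  have hs : ∀ i, (![(1 : ℤ), -1] : Fin 2 → ℤ) i ≠ 0 := by
    intro i
    fin_cases i <;> simp
  obtain ⟨c0, hc0, hc⟩ := hSSL 2 ![(1 : ℤ), -1] hs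
  have hSSc : ∀ t w : ℕ, c0 ≤ SS ![(1 : ℤ), -1] ![(0 : ℤ), ((2 * t : ℕ) : ℤ)] a w := fun t w =>
    (hc _ a w).resolve_left (SS_ne a t w)
  have hN : Tendsto (fun t : ℕ => 2 * t) atTop atTop := tendsto_two_mul
  have hlog := tendsto_log
  have hZ2 : Tendsto (fun t : ℕ => MM (z (2 * t)) / Real.log ((2 * t : ℕ) : ℝ)) atTop (𝓝 1) :=
    hzl.comp hN
  have hZ1 : Tendsto (fun t : ℕ => MM (z (nn t)) / Real.log ((2 * t : ℕ) : ℝ)) atTop (𝓝 1) := by
    have h1 : Tendsto (fun t : ℕ => MM (z (nn t)) / Real.log (nn t : ℝ)) atTop (𝓝 1) :=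
      hzl.comp nn_tendsto
    have h2 := h1.mul log_ratio
    rw [one_mul] at h2
    refine h2.congr' ?_
    have h3 : Tendsto (fun t : ℕ => Real.log (nn t : ℝ)) atTop atTop :=
      Real.tendsto_log_atTop.comp (tendsto_natCast_atTop_atTop.comp nn_tendsto)
    filter_upwards [hlog.eventually_gt_atTop 0, h3.eventually_gt_atTop 0] with t ht1 ht2
    field_simp
  -- the lengths
  set UU : ℕ → ℕ := fun t => t - 1 - nn t with hUU
  have hnn4 : ∀ᶠ t : ℕ in atTop, (nn t : ℝ) ≤ 1 / 8 * ((2 * t : ℕ) : ℝ) := by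
    have := nn_small.eventually (gt_mem_nhds (by norm_num : (0 : ℝ) < 1 / 8))
    filter_upwards [this, eventually_ge_atTop 1] with t h1 ht
    have ht0 : (0 : ℝ) < ((2 * t : ℕ) : ℝ) := by exact_mod_cast (by omega : 0 < 2 * t)
    rw [div_lt_iff₀ ht0] at h1
    exact h1.le
  have hnt : ∀ᶠ t : ℕ in atTop, nn t ≤ t - 1 := by
    filter_upwards [hnn4, eventually_ge_atTop 2] with t h1 ht
    push_cast at h1
    have h2 : ((nn t : ℕ) : ℝ) + 1 ≤ t := by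
      have : (2 : ℝ) ≤ t := by exact_mod_cast ht
      linarith
    have h3 : nn t + 1 ≤ t := by exact_mod_cast h2
    omega
  have hUr : ∀ᶠ t : ℕ in atTop, ((UU t : ℕ) : ℝ) = t - 1 - nn t := by
    filter_upwards [hnt, eventually_ge_atTop 1] with t h1 ht
    simp only [hUU]
    rw [Nat.cast_sub h1, Nat.cast_sub ht]
    push_cast
    ring
  have hUt : Tendsto (fun t : ℕ => ((UU t : ℕ) : ℝ) / ((2 * t : ℕ) : ℝ)) atTop (𝓝 (1 / 2)) := by
    have h1 : Tendsto (fun t : ℕ => (1 : ℝ) / ((2 * t : ℕ) : ℝ)) atTop (𝓝 0) :=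
      tendsto_one_div_atTop_nhds_zero_nat.comp hN
    have h2 : Tendsto (fun t : ℕ => 1 / 2 - 1 / ((2 * t : ℕ) : ℝ) - (nn t : ℝ) / ((2 * t : ℕ) : ℝ))
        atTop (𝓝 (1 / 2 - 0 - 0)) := (tendsto_const_nhds.sub h1).sub nn_small
    rw [sub_zero, sub_zero] at h2
    refine h2.congr' ?_
    filter_upwards [hUr, eventually_ge_atTop 1] with t h3 ht
    have ht0 : (0 : ℝ) < t := by exact_mod_cast ht
    rw [h3]
    push_cast
    field_simp
  have hh : ∀ᶠ t : ℕ in atTop, ∀ i, |(![(0 : ℤ), ((2 * t : ℕ) : ℤ)] : Fin 2 → ℤ) i| ≤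
      ((2 * t : ℕ) : ℤ) ^ 2 := by
    filter_upwards [eventually_ge_atTop 1] with t ht i
    have h1 : ((2 * t : ℕ) : ℤ) ≤ ((2 * t : ℕ) : ℤ) ^ 2 := by
      have : 2 * t ≤ (2 * t) ^ 2 := Nat.le_self_pow (by norm_num) _
      exact_mod_cast this
    fin_cases i
    · simp
    · show |((2 * t : ℕ) : ℤ)| ≤ ((2 * t : ℕ) : ℤ) ^ 2
      rw [abs_of_nonneg (Int.natCast_nonneg _)]
      exact h1
  have hn : ∀ᶠ t : ℕ in atTop, nn t ≤ (2 * t) ^ 2 := by
    filter_upwards [hnt] with t h1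
    have : 2 * t ≤ (2 * t) ^ 2 := Nat.le_self_pow (by norm_num) _
    omega
  have hU : ∀ᶠ t : ℕ in atTop, UU t ≤ (2 * t) ^ 2 := by
    refine Eventually.of_forall fun t => ?_
    have : 2 * t ≤ (2 * t) ^ 2 := Nat.le_self_pow (by norm_num) _
    simp only [hUU]
    omega
  have hU2 : ∀ᶠ t : ℕ in atTop, (((2 * t : ℕ) : ℝ)) ^ (5 / 4 : ℝ) ≤ ((UU t : ℕ) : ℝ) ^ 2 := by
    have hpow : ∀ᶠ x : ℝ in atTop, (16 : ℝ) ≤ x ^ (3 / 4 : ℝ) :=
      (tendsto_rpow_atTop (by norm_num)).eventually_ge_atTop 16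
    have h2 := ((tendsto_natCast_atTop_atTop (R := ℝ)).comp hN).eventually hpow
    have h3 := hUt.eventually (lt_mem_nhds (by norm_num : (1 / 4 : ℝ) < 1 / 2))
    filter_upwards [h2, h3, eventually_ge_atTop 1] with t h4 h5 ht
    have ht0 : (0 : ℝ) < ((2 * t : ℕ) : ℝ) := by exact_mod_cast (by omega : 0 < 2 * t)
    rw [lt_div_iff₀ ht0] at h5
    simp only [Function.comp] at h4
    have h6 : (1 / 4 * ((2 * t : ℕ) : ℝ)) ^ 2 ≤ ((UU t : ℕ) : ℝ) ^ 2 := by gcongr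
    refine le_trans ?_ h6
    have h7 : ((2 * t : ℕ) : ℝ) ^ 2 = ((2 * t : ℕ) : ℝ) ^ (5 / 4 : ℝ) * ((2 * t : ℕ) : ℝ) ^ (3 / 4 : ℝ) := by
      rw [← Real.rpow_add ht0, ← Real.rpow_two]
      norm_num
    have h8 : 0 < ((2 * t : ℕ) : ℝ) ^ (5 / 4 : ℝ) := Real.rpow_pos_of_pos ht0 _
    rw [mul_pow, h7]
    nlinarith
  have hd : ∀ᶠ t : ℕ in atTop, ∀ m : ℕ, nn t < m → m ≤ nn t + UU t → ∀ i j : Fin 2, i ≠ j →
      (![(1 : ℤ), -1] : Fin 2 → ℤ) i * (m : ℤ) + (![(0 : ℤ), ((2 * t : ℕ) : ℤ)] : Fin 2 → ℤ) i ≠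
        (![(1 : ℤ), -1] : Fin 2 → ℤ) j * (m : ℤ) + (![(0 : ℤ), ((2 * t : ℕ) : ℤ)] : Fin 2 → ℤ) j := by
    filter_upwards [hnt, eventually_ge_atTop 1] with t h1 ht m hm1 hm2 i j hij
    have hm3 : m < t := by simp only [hUU] at hm2; omega
    fin_cases i <;> fin_cases j <;> simp at hij ⊢ <;> omega
  have hSS0 : ∀ᶠ t : ℕ in atTop, 0 < SS ![(1 : ℤ), -1] ![(0 : ℤ), ((2 * t : ℕ) : ℤ)] a
      (lw 2 (2 * t)) := Eventually.of_forall fun t => hc0.trans_le (hSSc t _)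
  have key1 := KEY83.keylim hMain hMert hs hCon (fun t => 2 * t) nn UU
    (fun t => z (nn t)) (fun t => ![(0 : ℤ), ((2 * t : ℕ) : ℤ)]) hN hZ1 hh hn hU hU2 hd hSS0
  have key2 := KEY83.keylim hMain hMert hs hCon (fun t => 2 * t) nn UU
    (fun t => z (2 * t)) (fun t => ![(0 : ℤ), ((2 * t : ℕ) : ℤ)]) hN hZ2 hh hn hU hU2 hd hSS0
  have conv : ∀ Z : ℕ → ℕ, Tendsto (fun t : ℕ => (sg ![(1 : ℤ), -1] ![(0 : ℤ), ((2 * t : ℕ) : ℤ)] a
      (Z t) (nn t) (UU t) : ℝ) * Real.log ((2 * t : ℕ) : ℝ) ^ 2 /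
      (((UU t : ℕ) : ℝ) * SS ![(1 : ℤ), -1] ![(0 : ℤ), ((2 * t : ℕ) : ℤ)] a (lw 2 (2 * t)))) atTop
      (𝓝 1) →
      Tendsto (fun t : ℕ => (sg ![(1 : ℤ), -1] ![(0 : ℤ), ((2 * t : ℕ) : ℤ)] a (Z t) (nn t)
        (UU t) : ℝ) * Real.log ((2 * t : ℕ) : ℝ) ^ 2 / (((2 * t : ℕ) : ℝ) *
        SS ![(1 : ℤ), -1] ![(0 : ℤ), ((2 * t : ℕ) : ℤ)] a (lw 2 (2 * t)))) atTop (𝓝 (1 / 2)) := by
    intro Z hZ
    have h1 := hZ.mul hUt
    rw [one_mul] at h1
    refine h1.congr' ?_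
    filter_upwards [hU2, eventually_ge_atTop 1] with t h2 ht
    have ht0 : (0 : ℝ) < ((2 * t : ℕ) : ℝ) := by exact_mod_cast (by omega : 0 < 2 * t)
    have hUne : ((UU t : ℕ) : ℝ) ≠ 0 := by
      intro h3
      rw [h3] at h2
      have := Real.rpow_pos_of_pos ht0 (5 / 4 : ℝ)
      have h4 : (0 : ℝ) ^ 2 = 0 := by norm_num
      linarith
    have hSne := SS_ne a t (lw 2 (2 * t))
    field_simp
  have lim1 := conv (fun t => z (nn t)) key1
  have lim2 := conv (fun t => z (2 * t)) key2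
  -- the small elements
  have hsm : Tendsto (fun t : ℕ => ((nn t : ℝ) + 1) * Real.log ((2 * t : ℕ) : ℝ) ^ 2 /
      (((2 * t : ℕ) : ℝ) * SS ![(1 : ℤ), -1] ![(0 : ℤ), ((2 * t : ℕ) : ℤ)] a (lw 2 (2 * t)))) atTop
      (𝓝 0) := by
    have h1 : Tendsto (fun t : ℕ => (1 : ℝ) / Real.log ((2 * t : ℕ) : ℝ)) atTop (𝓝 0) :=
      tendsto_const_nhds.div_atTop hlog
    have h2 : Tendsto (fun t : ℕ => Real.log ((2 * t : ℕ) : ℝ) ^ 2 / ((2 * t : ℕ) : ℝ)) atTop (𝓝 0) := by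
      have h3 : Tendsto (fun x : ℝ => Real.log x ^ 2 / x) atTop (𝓝 0) :=
        (Real.isLittleO_pow_log_id_atTop (n := 2)).tendsto_div_nhds_zero
      exact h3.comp ((tendsto_natCast_atTop_atTop (R := ℝ)).comp hN)
    have h3 : Tendsto (fun t : ℕ => (1 / Real.log ((2 * t : ℕ) : ℝ) +
        Real.log ((2 * t : ℕ) : ℝ) ^ 2 / ((2 * t : ℕ) : ℝ)) / c0) atTop (𝓝 0) := by
      have := (h1.add h2).div_const c0
      simpa using this
    refine squeeze_zero' ?_ ?_ h3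
    · refine Eventually.of_forall fun t => ?_
      have := hc0.trans_le (hSSc t (lw 2 (2 * t)))
      positivity
    · filter_upwards [hlog.eventually_gt_atTop 0, eventually_ge_atTop 1] with t ht1 ht
      have ht0 : (0 : ℝ) < ((2 * t : ℕ) : ℝ) := by exact_mod_cast (by omega : 0 < 2 * t)
      have h4 := nn_upper t
      have h5 := hSSc t (lw 2 (2 * t))
      have h6 : ((nn t : ℝ) + 1) * Real.log ((2 * t : ℕ) : ℝ) ^ 2 / ((2 * t : ℕ) : ℝ) ≤
          1 / Real.log ((2 * t : ℕ) : ℝ) + Real.log ((2 * t : ℕ) : ℝ) ^ 2 / ((2 * t : ℕ) : ℝ) := by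
        rw [add_mul, one_mul, add_div]
        refine add_le_add ?_ le_rfl
        rw [div_le_div_iff₀ ht0 ht1, one_mul]
        rw [le_div_iff₀ (by positivity)] at h4
        calc (nn t : ℝ) * Real.log ((2 * t : ℕ) : ℝ) ^ 2 * Real.log ((2 * t : ℕ) : ℝ)
            = (nn t : ℝ) * Real.log ((2 * t : ℕ) : ℝ) ^ 3 := by ring
          _ ≤ _ := h4
      rw [← div_div]
      calc ((nn t : ℝ) + 1) * Real.log ((2 * t : ℕ) : ℝ) ^ 2 / ((2 * t : ℕ) : ℝ) /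
            SS ![(1 : ℤ), -1] ![(0 : ℤ), ((2 * t : ℕ) : ℤ)] a (lw 2 (2 * t))
          ≤ ((nn t : ℝ) + 1) * Real.log ((2 * t : ℕ) : ℝ) ^ 2 / ((2 * t : ℕ) : ℝ) / c0 := by
            gcongr
        _ ≤ _ := by gcongr
  have lim3 := lim1.add hsm
  rw [add_zero] at lim3
  refine tendsto_of_tendsto_of_tendsto_of_le_of_le' lim2 lim3 ?_ ?_
  · filter_upwards [hnt, eventually_ge_atTop 1] with t h1 ht
    have h2 : sg ![(1 : ℤ), -1] ![(0 : ℤ), ((2 * t : ℕ) : ℤ)] a (z (2 * t)) (nn t) (UU t) ≤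
        reps (Rset a z) (2 * t) := by
      rw [KEY83.sg_eq_ncard, reps]
      refine Set.ncard_le_ncard ?_ ?_
      · rintro m ⟨hm1, hm2, hm3⟩
        have hm4 : m < t := by simp only [hUU] at hm2; omega
        refine ⟨fun p hp hpz => ?_, fun p hp hpz => ?_, by omega⟩
        · have := hm3 p hp (hpz.trans (hz (by omega)))
          rw [sur_iff a (by omega)] at this
          exact this.1
        · have := hm3 p hp (hpz.trans (hz (by omega)))
          rw [sur_iff a (by omega)] at this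
          exact this.2
      · refine (Set.finite_Iic (2 * t)).subset ?_
        rintro m ⟨-, -, hm⟩
        rw [Set.mem_Iic]
        omega
    have h3 : (sg ![(1 : ℤ), -1] ![(0 : ℤ), ((2 * t : ℕ) : ℤ)] a (z (2 * t)) (nn t) (UU t) : ℝ) ≤
        reps (Rset a z) (2 * t) := by exact_mod_cast h2
    have := hc0.trans_le (hSSc t (lw 2 (2 * t)))
    gcongr
  · filter_upwards [hnt, eventually_ge_atTop 1] with t h1 ht
    have h2 : reps (Rset a z) (2 * t) ≤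
        sg ![(1 : ℤ), -1] ![(0 : ℤ), ((2 * t : ℕ) : ℤ)] a (z (nn t)) (nn t) (UU t) + (nn t + 1) := by
      rw [KEY83.sg_eq_ncard, reps]
      have hsub : {m : ℕ | m ∈ Rset a z ∧ 2 * t - m ∈ Rset a z ∧ 2 * m < 2 * t} ⊆
          {m : ℕ | nn t < m ∧ m ≤ nn t + UU t ∧ ∀ p : ℕ, p.Prime → p ≤ z (nn t) →
            Sur ![(1 : ℤ), -1] ![(0 : ℤ), ((2 * t : ℕ) : ℤ)] a m p} ∪ Set.Iic (nn t) := by
        rintro m ⟨hm1, hm2, hm3⟩
        by_cases hm : m ≤ nn t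
        · exact Or.inr hm
        · left
          refine ⟨by omega, by simp only [hUU]; omega, fun p hp hpz => ?_⟩
          rw [sur_iff a (by omega)]
          exact ⟨hm1 p hp (hpz.trans (hz (by omega))), hm2 p hp (hpz.trans (hz (by omega)))⟩
      have hfin : ({m : ℕ | nn t < m ∧ m ≤ nn t + UU t ∧ ∀ p : ℕ, p.Prime → p ≤ z (nn t) →
            Sur ![(1 : ℤ), -1] ![(0 : ℤ), ((2 * t : ℕ) : ℤ)] a m p}).Finite :=
        (Set.finite_Iic (nn t + UU t)).subset fun m hm => hm.2.1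
      refine (Set.ncard_le_ncard hsub (hfin.union (Set.finite_Iic _))).trans
        ((Set.ncard_union_le _ _).trans ?_)
      have h3 : (Set.Iic (nn t)).ncard = nn t + 1 := by
        rw [← Finset.coe_Iic, Set.ncard_coe_finset, Nat.card_Iic]
      rw [h3]
    have h3 : (reps (Rset a z) (2 * t) : ℝ) ≤
        sg ![(1 : ℤ), -1] ![(0 : ℤ), ((2 * t : ℕ) : ℤ)] a (z (nn t)) (nn t) (UU t) +
          ((nn t : ℝ) + 1) := by exact_mod_cast h2
    have := hc0.trans_le (hSSc t (lw 2 (2 * t)))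
    rw [← add_div, ← add_mul]
    gcongr

end Pool.Agent.H50.BP
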