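import Pool.Agent.H50.BP.StmB
import Pool.Agent.H50.BF.MMB

set_option autoImplicit false

open MeasureTheory Filter ProbabilityTheory
open scoped Topology ENNReal

namespace Pool.Agent.H50.BP

open Pool.Agent.H50.BF

namespace INTP

theorem mod_iff (p m a h : ℕ) : (p : ℤ) ∣ 1 * (m : ℤ) + (h : ℤ) - (a : ℤ) ↔ (m + h) % p = a % p := by
  rw [one_mul]
  constructor
  · intro hd
    have h1 : a ≡ m + h [MOD p] := (Nat.modEq_iff_dvd).2 (by push_cast; exact hd)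
    exact h1.symm
  · intro he
    have h1 : a ≡ m + h [MOD p] := (show (m + h) ≡ a [MOD p] from he).symm
    have h2 := (Nat.modEq_iff_dvd).1 h1
    push_cast at h2
    exact h2

theorem sur_iff (a : ℕ → ℕ) (m p h : ℕ) : Sur ![(1 : ℤ), 1] ![(0 : ℤ), (h : ℤ)] a m p ↔
    m % p ≠ a p % p ∧ (m + h) % p ≠ a p % p := by
  unfold Sur
  rw [Fin.forall_fin_two]
  have h1 := mod_iff p m (a p) 0
  have h2 := mod_iff p m (a p) h
  simp only [Matrix.cons_val_zero, Matrix.cons_val_one]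
  rw [h2]
  rw [Nat.cast_zero, add_zero] at h1
  rw [add_zero (1 * (m : ℤ)), ← add_zero (1 * (m : ℤ)), add_zero (1 * (m : ℤ)), h1, add_zero]

theorem fin_S (a z : ℕ → ℕ) (n U h : ℕ) :
    {m : ℕ | m ∈ Rset a z ∧ m + h ∈ Rset a z ∧ n < m ∧ m ≤ n + U}.Finite :=
  (Set.finite_Iic (n + U)).subset fun m hm => hm.2.2.2

open Classical in
theorem lower (a z : ℕ → ℕ) (n U h Z : ℕ) (hZ : ∀ m : ℕ, n < m → m ≤ n + U → z m ≤ Z ∧ z (m + h) ≤ Z) :
    sg ![(1 : ℤ), 1] ![(0 : ℤ), (h : ℤ)] a Z n U ≤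
      Set.ncard {m : ℕ | m ∈ Rset a z ∧ m + h ∈ Rset a z ∧ n < m ∧ m ≤ n + U} := by
  unfold sg
  rw [← Set.ncard_coe_finset, ← Set.ncard_image_of_injective _ (fun x y (hxy : n + x + 1 = n + y + 1) => by omega :
    Function.Injective (fun j : ℕ => n + j + 1))]
  refine Set.ncard_le_ncard ?_ (fin_S a z n U h)
  rintro m ⟨j, hj, rfl⟩
  rw [Finset.mem_coe, Finset.mem_filter, Finset.mem_range] at hj
  obtain ⟨hj1, hj2⟩ := hj
  have h1 := hZ (n + j + 1) (by omega) (by omega)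
  refine ⟨?_, ?_, ?_, ?_⟩
  · intro p hp hpz
    exact ((sur_iff a _ p h).1 (hj2 p hp (hpz.trans h1.1))).1
  · intro p hp hpz
    exact ((sur_iff a _ p h).1 (hj2 p hp (hpz.trans h1.2))).2
  · show n < n + j + 1
    omega
  · show n + j + 1 ≤ n + U
    omega

open Classical in
theorem upper (a z : ℕ → ℕ) (n U h Z : ℕ) (hZ : ∀ m : ℕ, n < m → m ≤ n + U → Z ≤ z m ∧ Z ≤ z (m + h)) :
    Set.ncard {m : ℕ | m ∈ Rset a z ∧ m + h ∈ Rset a z ∧ n < m ∧ m ≤ n + U} ≤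
      sg ![(1 : ℤ), 1] ![(0 : ℤ), (h : ℤ)] a Z n U := by
  unfold sg
  rw [← Set.ncard_coe_finset]
  refine le_trans ?_ (Set.ncard_image_of_injective _ (fun x y (hxy : n + x + 1 = n + y + 1) => by omega :
    Function.Injective (fun j : ℕ => n + j + 1))).le
  refine Set.ncard_le_ncard ?_ (Set.Finite.image _ (Finset.finite_toSet _))
  rintro m ⟨hm1, hm2, hm3, hm4⟩
  have h1 := hZ m hm3 hm4
  refine ⟨m - n - 1, ?_, ?_⟩
  · rw [Finset.mem_coe, Finset.mem_filter, Finset.mem_range]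
    refine ⟨by omega, ?_⟩
    have h2 : n + (m - n - 1) + 1 = m := by omega
    rw [h2]
    intro p hp hpZ
    rw [sur_iff]
    exact ⟨hm1 p hp (hpZ.trans h1.1), hm2 p hp (hpZ.trans h1.2)⟩
  · show n + (m - n - 1) + 1 = m
    omega

theorem log3 {z : ℕ → ℕ} (hz : Tendsto (fun n : ℕ => MM (z n) / Real.log n) atTop (𝓝 1)) :
    Tendsto (fun n : ℕ => MM (z (3 * n)) / Real.log n) atTop (𝓝 1) := by
  have h1 : Tendsto (fun n : ℕ => 3 * n) atTop atTop :=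
    tendsto_id.const_mul_atTop' (by norm_num : 0 < 3)
  have h2 := hz.comp h1
  have h3 : Tendsto (fun n : ℕ => Real.log ((3 * n : ℕ) : ℝ) / Real.log n) atTop (𝓝 1) := by
    have h4 : Tendsto (fun n : ℕ => Real.log 3 / Real.log (n : ℝ) + 1) atTop (𝓝 (0 + 1)) :=
      ((Real.tendsto_log_atTop.comp tendsto_natCast_atTop_atTop).const_div_atTop (Real.log 3)).add_const 1
    rw [zero_add] at h4
    refine h4.congr' ?_
    filter_upwards [eventually_ge_atTop 2] with n hn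
    have h5 : 0 < Real.log (n : ℝ) := Real.log_pos (by exact_mod_cast hn)
    have h6 : (0 : ℝ) < n := by positivity
    push_cast
    rw [Real.log_mul (by norm_num) h6.ne']
    field_simp
  have h4 := h2.mul h3
  rw [mul_one] at h4
  refine h4.congr' ?_
  filter_upwards [eventually_ge_atTop 2] with n hn
  have h5 : 0 < Real.log (n : ℝ) := Real.log_pos (by exact_mod_cast hn)
  have h6 : 0 < Real.log ((3 * n : ℕ) : ℝ) := Real.log_pos (by exact_mod_cast (by omega : 1 < 3 * n))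
  simp only [Function.comp]
  field_simp

theorem z_le (hM : S_MERT) {z : ℕ → ℕ} (hz : Tendsto (fun n : ℕ => MM (z (3 * n)) / Real.log n) atTop (𝓝 1))
    {κ : ℝ} (hκ : 0 < κ) :
    ∀ᶠ n : ℕ in atTop, (z (3 * n) : ℝ) ≤ (n : ℝ) ^ (Real.exp (-Real.eulerMascheroniConstant) + κ) := by
  obtain ⟨g, hg⟩ : ∃ g, g = Real.exp (-Real.eulerMascheroniConstant) := ⟨_, rfl⟩
  have hg0 : 0 < g := by rw [hg]; exact Real.exp_pos _
  have hge : Real.exp Real.eulerMascheroniConstant = 1 / g := by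
    rw [hg, Real.exp_neg, one_div, inv_inv]
  rw [← hg]
  have hβ0 : 0 < g + κ := by linarith
  have hfl : Tendsto (fun n : ℕ => ⌊(n : ℝ) ^ (g + κ)⌋₊) atTop atTop :=
    tendsto_nat_floor_atTop.comp ((tendsto_rpow_atTop hβ0).comp tendsto_natCast_atTop_atTop)
  have h1 : ∀ᶠ N : ℕ in atTop, 1 / (g + κ / 4) < MM N / Real.log N := by
    have h2 : 1 / (g + κ / 4) < Real.exp Real.eulerMascheroniConstant := by
      rw [hge]
      exact one_div_lt_one_div_of_lt hg0 (by linarith)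
    exact hM.eventually_const_lt h2
  have h2 : ∀ᶠ n : ℕ in atTop, MM (z (3 * n)) / Real.log n < (g + κ / 2) / (g + κ / 4) := by
    refine hz.eventually_lt_const ?_
    rw [one_lt_div (by linarith)]
    linarith
  have h3 : ∀ᶠ n : ℕ in atTop, Real.log 2 ≤ κ / 2 * Real.log (n : ℝ) :=
    ((Real.tendsto_log_atTop.comp tendsto_natCast_atTop_atTop).const_mul_atTop
      (by linarith : 0 < κ / 2)).eventually_ge_atTop _
  filter_upwards [hfl.eventually h1, h2, h3, eventually_ge_atTop 2, hfl.eventually_ge_atTop 2] with n e1 e2 e3 hn e4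
  obtain ⟨B, hB⟩ : ∃ B : ℕ, B = ⌊(n : ℝ) ^ (g + κ)⌋₊ := ⟨_, rfl⟩
  rw [← hB] at e1 e4
  have hn0 : (0 : ℝ) < n := by positivity
  have hlog : 0 < Real.log (n : ℝ) := Real.log_pos (by exact_mod_cast hn)
  have hBlog : 0 < Real.log (B : ℝ) := Real.log_pos (by exact_mod_cast e4)
  have hx0 : (0 : ℝ) < (n : ℝ) ^ (g + κ) := Real.rpow_pos_of_pos hn0 _
  have hBle : (B : ℝ) ≤ (n : ℝ) ^ (g + κ) := by rw [hB]; exact Nat.floor_le hx0.le
  have hBge : (n : ℝ) ^ (g + κ) / 2 ≤ B := by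
    have h4 := Nat.lt_floor_add_one ((n : ℝ) ^ (g + κ))
    rw [← hB] at h4
    have h5 : (2 : ℝ) ≤ B := by exact_mod_cast e4
    linarith
  have h4 : (g + κ / 2) * Real.log n ≤ Real.log B := by
    have h5 : Real.log ((n : ℝ) ^ (g + κ) / 2) ≤ Real.log B :=
      Real.log_le_log (by positivity) hBge
    rw [Real.log_div hx0.ne' (by norm_num), Real.log_rpow hn0] at h5
    nlinarith
  have h5 : MM (z (3 * n)) < MM B := by
    rw [div_lt_iff₀ hlog] at e2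
    rw [lt_div_iff₀ hBlog] at e1
    calc MM (z (3 * n)) < (g + κ / 2) / (g + κ / 4) * Real.log n := e2
      _ = 1 / (g + κ / 4) * ((g + κ / 2) * Real.log n) := by ring
      _ ≤ 1 / (g + κ / 4) * Real.log B := mul_le_mul_of_nonneg_left h4 (by positivity)
      _ < MM B := e1
  have h6 : z (3 * n) ≤ B := by
    by_contra hne
    exact absurd (MM_mono (not_le.1 hne).le) (not_le.2 h5)
  calc (z (3 * n) : ℝ) ≤ B := by exact_mod_cast h6
    _ ≤ _ := hBle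

end INTP

open INTP in
theorem int : S_MAIN → S_MERT → S_INT := by
  intro hMain hMert a z hz hz1 hCon θ ε hθ hε
  obtain ⟨κ, hκ⟩ : ∃ κ, κ = (2 * θ - Real.exp (-Real.eulerMascheroniConstant)) / 3 := ⟨_, rfl⟩
  have hκ0 : 0 < κ := by rw [hκ]; linarith
  obtain ⟨δ, hδ, hev⟩ := hMain 2 ![(1 : ℤ), 1] (by norm_num) (by
    intro i; fin_cases i <;> simp) a hCon 3 κ ε hκ0 hε
  have h3 := log3 hz1
  have hz3 := z_le hMert h3 hκ0
  have h4 : ∀ᶠ n : ℕ in atTop, |MM (z n) / Real.log n - 1| ≤ δ := by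
    have h5 := (Metric.tendsto_nhds.1 hz1) δ hδ
    filter_upwards [h5] with n hn
    rw [Real.dist_eq] at hn
    exact hn.le
  have h5 : ∀ᶠ n : ℕ in atTop, |MM (z (3 * n)) / Real.log n - 1| ≤ δ := by
    have h5 := (Metric.tendsto_nhds.1 h3) δ hδ
    filter_upwards [h5] with n hn
    rw [Real.dist_eq] at hn
    exact hn.le
  filter_upwards [hev, hz3, h4, h5, eventually_ge_atTop 2] with n hn e1 e2 e3 hn2 U h hU hUn hh hhn
  obtain ⟨g, hg⟩ : ∃ g, g = Real.exp (-Real.eulerMascheroniConstant) := ⟨_, rfl⟩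
  have hg0 : 0 < g := by rw [hg]; exact Real.exp_pos _
  have hg1 : g ≤ 1 := by
    rw [hg]
    apply Real.exp_le_one_iff.2
    have := Real.one_half_lt_eulerMascheroniConstant
    linarith
  rw [← hg] at e1 hκ
  have hn1 : (1 : ℝ) ≤ n := by exact_mod_cast (by omega : 1 ≤ n)
  have hn1' : (1 : ℝ) < n := by exact_mod_cast hn2
  have hn0 : (0 : ℝ) < n := by linarith
  have hθ1 : θ ≤ 1 := by
    by_contra hne
    have h6 : (n : ℝ) ^ (1 : ℝ) < (n : ℝ) ^ θ := Real.rpow_lt_rpow_of_exponent_lt hn1' (not_le.1 hne)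
    rw [Real.rpow_one] at h6
    have h7 : (U : ℝ) ≤ n := by exact_mod_cast hUn
    linarith
  have hpow : ∀ m : ℕ, m ≤ n → m ≤ n ^ 3 := fun m hm => by
    have : n ≤ n ^ 3 := Nat.le_self_pow (by norm_num) n
    omega
  have hh' : ∀ i, |(![(0 : ℤ), (h : ℤ)] : Fin 2 → ℤ) i| ≤ (n : ℤ) ^ 3 := by
    intro i
    fin_cases i
    · simp
    · show |(h : ℤ)| ≤ (n : ℤ) ^ 3
      rw [abs_of_nonneg (by positivity)]
      exact_mod_cast hpow h hhn
  have hzmono : z n ≤ z (3 * n) := hz (by omega)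
  have hZpow : ∀ Z : ℕ, Z ≤ z (3 * n) → Z ≤ n ^ 3 ∧ (Z : ℝ) * (n : ℝ) ^ κ ≤ (U : ℝ) ^ 2 := by
    intro Z hZ
    have h6 : (Z : ℝ) ≤ (n : ℝ) ^ (g + κ) := le_trans (by exact_mod_cast hZ) e1
    constructor
    · have h7 : (n : ℝ) ^ (g + κ) ≤ (n : ℝ) ^ (3 : ℝ) :=
        Real.rpow_le_rpow_of_exponent_le hn1 (by linarith)
      have h8 : (Z : ℝ) ≤ ((n ^ 3 : ℕ) : ℝ) := by
        push_cast
        refine (h6.trans h7).trans_eq ?_
        rw [← Real.rpow_natCast]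
        norm_num
      exact_mod_cast h8
    · calc (Z : ℝ) * (n : ℝ) ^ κ ≤ (n : ℝ) ^ (g + κ) * (n : ℝ) ^ κ :=
            mul_le_mul_of_nonneg_right h6 (Real.rpow_nonneg hn0.le _)
        _ = (n : ℝ) ^ (g + κ + κ) := (Real.rpow_add hn0 _ _).symm
        _ ≤ (n : ℝ) ^ (θ * 2) := Real.rpow_le_rpow_of_exponent_le hn1 (by linarith)
        _ = ((n : ℝ) ^ θ) ^ 2 := by
            rw [Real.rpow_mul hn0.le]
            norm_num
        _ ≤ (U : ℝ) ^ 2 := pow_le_pow_left₀ (Real.rpow_nonneg hn0.le _) hU 2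
  have hdist : ∀ m : ℕ, n < m → m ≤ n + U → ∀ i j, i ≠ j →
      (![(1 : ℤ), 1] : Fin 2 → ℤ) i * (m : ℤ) + (![(0 : ℤ), (h : ℤ)] : Fin 2 → ℤ) i ≠
        (![(1 : ℤ), 1] : Fin 2 → ℤ) j * (m : ℤ) + (![(0 : ℤ), (h : ℤ)] : Fin 2 → ℤ) j := by
    intro m _ _ i j hij
    fin_cases i <;> fin_cases j <;> simp at hij ⊢ <;> omega
  have f1 := hn ![(0 : ℤ), (h : ℤ)] n U (z n) hh' (hpow n le_rfl) (hpow U hUn)
    (hZpow _ hzmono).1 (hZpow _ hzmono).2 e2 hdist
  have f2 := hn ![(0 : ℤ), (h : ℤ)] n U (z (3 * n)) hh' (hpow n le_rfl) (hpow U hUn)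
    (hZpow _ le_rfl).1 (hZpow _ le_rfl).2 e3 hdist
  have g1 := upper a z n U h (z n) (fun m hm1 hm2 => ⟨hz hm1.le, hz (by omega)⟩)
  have g2 := lower a z n U h (z (3 * n)) (fun m hm1 hm2 => ⟨hz (by omega), hz (by omega)⟩)
  have g1' : (Set.ncard {m : ℕ | m ∈ Rset a z ∧ m + h ∈ Rset a z ∧ n < m ∧ m ≤ n + U} : ℝ) ≤
      (sg ![(1 : ℤ), 1] ![(0 : ℤ), (h : ℤ)] a (z n) n U : ℝ) := by exact_mod_cast g1
  have g2' : (sg ![(1 : ℤ), 1] ![(0 : ℤ), (h : ℤ)] a (z (3 * n)) n U : ℝ) ≤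
      (Set.ncard {m : ℕ | m ∈ Rset a z ∧ m + h ∈ Rset a z ∧ n < m ∧ m ≤ n + U} : ℝ) := by exact_mod_cast g2
  rw [abs_le] at f1 f2 ⊢
  constructor
  · linarith [f2.1]
  · linarith [f1.2]

end Pool.Agent.H50.BP
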