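import Pool.Agent.H50.BP.FLS

/-!
# MAIN: the numbers of survivors of long intervals
-/

set_option autoImplicit false

open MeasureTheory Filter ProbabilityTheory
open scoped Topology ENNReal

namespace Pool.Agent.H50.BP

open Pool.Agent.H50.BF

namespace MAIN68

theorem tendsto_log : Tendsto (fun N : ℕ => Real.log N) atTop atTop :=
  Real.tendsto_log_atTop.comp tendsto_natCast_atTop_atTop

/-- the product over the primes up to the level is small -/
theorem MM_lw (hM : S_MERT) (k : ℕ) : ∀ᶠ N : ℕ in atTop, MM (lw k N) < Real.log N / 2 := by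
  set γ : ℝ := Real.exp Real.eulerMascheroniConstant with hγ
  have hγ0 : 0 < γ := Real.exp_pos _
  have h1 : ∀ᶠ w : ℕ in atTop, MM w / Real.log w < γ + 1 :=
    hM.eventually_lt_const (by linarith)
  have h2 := (FLS68.tendsto_lw k).eventually h1
  have h3 := (FLS68.tendsto_lw k).eventually_ge_atTop 3
  -- `log log N` is small compared with `log N`
  have h4 := (isLittleO_log_rpow_rpow_atTop 1 (one_pos)).bound
    (c := 1 / (4 * (γ + 1) * ((2 * k + 6 : ℕ) : ℝ))) (by positivity)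
  have h5 := tendsto_log.eventually h4
  filter_upwards [h2, h3, h5, tendsto_log.eventually_ge_atTop 1] with N h2 h3 h5 hL
  set w := lw k N with hw
  set L := Real.log N with hLdef
  have hw3 : (3 : ℝ) ≤ w := by exact_mod_cast h3
  have hlw : 0 < Real.log w := Real.log_pos (by linarith)
  have hLL : 0 ≤ Real.log L := Real.log_nonneg hL
  have h6 : MM w < (γ + 1) * Real.log w := by
    rwa [div_lt_iff₀ hlw] at h2
  have h7 : (w : ℝ) ≤ L ^ (2 * k + 6) := Nat.floor_le (by positivity)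
  have h8 : Real.log w ≤ ((2 * k + 6 : ℕ) : ℝ) * Real.log L := by
    rw [← Real.log_pow]
    exact Real.log_le_log (by linarith) h7
  rw [Real.rpow_one, Real.rpow_one, Real.norm_of_nonneg hLL,
    Real.norm_of_nonneg (by linarith)] at h5
  have h9 : (γ + 1) * (((2 * k + 6 : ℕ) : ℝ) * Real.log L) ≤ L / 4 := by
    calc (γ + 1) * (((2 * k + 6 : ℕ) : ℝ) * Real.log L)
        ≤ (γ + 1) * (((2 * k + 6 : ℕ) : ℝ) * (1 / (4 * (γ + 1) * ((2 * k + 6 : ℕ) : ℝ)) * L)) := by
          gcongr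
      _ = L / 4 := by
          have hk : ((2 * k + 6 : ℕ) : ℝ) ≠ 0 := by positivity
          field_simp
  have h10 : (γ + 1) * Real.log w ≤ (γ + 1) * (((2 * k + 6 : ℕ) : ℝ) * Real.log L) := by gcongr
  linarith

theorem pow_near (k : ℕ) (e : ℝ) (he : 0 < e) : ∃ δ : ℝ, 0 < δ ∧ δ ≤ 1 / 2 ∧
    ∀ x : ℝ, |x - 1| ≤ δ → |(x⁻¹) ^ k - 1| ≤ e := by
  have h1 : ContinuousAt (fun x : ℝ => (x⁻¹) ^ k) 1 := by
    refine ContinuousAt.pow ?_ k
    exact continuousAt_inv₀ one_ne_zero
  rw [Metric.continuousAt_iff] at h1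
  obtain ⟨d, hd, h2⟩ := h1 e he
  refine ⟨min (d / 2) (1 / 2), by positivity, min_le_right _ _, fun x hx => ?_⟩
  have h3 : dist x 1 < d := by
    rw [Real.dist_eq]
    exact lt_of_le_of_lt (hx.trans (min_le_left _ _)) (by linarith)
  have h4 := h2 h3
  rw [Real.dist_eq, inv_one, one_pow] at h4
  exact h4.le

open Classical in
theorem sg_anti {k : ℕ} (s h : Fin k → ℤ) (a : ℕ → ℕ) {w Z : ℕ} (hw : w ≤ Z) (n U : ℕ) :
    sg s h a Z n U ≤ sg s h a w n U := by
  unfold sg
  apply Finset.card_le_card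
  intro j hj
  rw [Finset.mem_filter] at hj ⊢
  exact ⟨hj.1, fun p hp hpw => hj.2 p hp (hpw.trans hw)⟩

end MAIN68

open MAIN68 in
theorem main : S_CEQ → S_FLS → S_SSL → BF.S_MERT → S_MAIN := by
  intro hCEQ hFLS hSSL hM k s hk hs a hCon A κ ε hκ hε
  obtain ⟨c0, hc0, hSS⟩ := hSSL k s hs
  obtain ⟨e, he, he1, he8⟩ : ∃ e : ℝ, 0 < e ∧ e ≤ 1 ∧ 8 * e ≤ ε :=
    ⟨min 1 (ε / 8), by positivity, min_le_left _ _, by
      have := min_le_right (1 : ℝ) (ε / 8)
      linarith⟩
  obtain ⟨δ, hδ, hδ2, hpow⟩ := pow_near k e he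
  refine ⟨δ, hδ, ?_⟩
  have hlog : ∀ᶠ N : ℕ in atTop, 1 / (c0 * e) ≤ Real.log N := tendsto_log.eventually_ge_atTop _
  filter_upwards [hCon A κ hκ, hCEQ k s hs A e he, hFLS k s hs (κ / 2) e (by positivity) he,
    MM_lw hM k, hlog, tendsto_log.eventually_ge_atTop 1, (FLS68.tendsto_lw k).eventually_ge_atTop 1,
    eventually_ge_atTop 1]
    with N hCon hCEQ hFLS hMMw hlog hL1 hw1 hN1 h n U Z hh hn hU hZ hZU hMMZ hdist
  set w := lw k N with hw
  set L := Real.log N with hL
  have hL0 : 0 < L := by linarith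
  have hMZ : 0 < MM Z := FLS68.MM_pos Z
  have hMw : 0 < MM w := FLS68.MM_pos w
  have hN0 : (0 : ℝ) < N := by exact_mod_cast hN1
  -- `w ≤ Z`
  have hwZ : w ≤ Z := by
    by_contra hcon
    push Not at hcon
    have h1 : MM Z ≤ MM w := FLS68.MM_mono hcon.le
    have h2 := (abs_le.1 hMMZ).1
    have h3 : 1 / 2 ≤ MM Z / L := by linarith
    rw [le_div_iff₀ hL0] at h3
    linarith
  have hZ1 : (1 : ℝ) ≤ Z := by
    have : 1 ≤ Z := hw1.trans hwZ
    exact_mod_cast this
  -- `U` is large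
  have hUN : (N : ℝ) ^ (κ / 2) ≤ U := by
    have h1 : ((N : ℝ) ^ (κ / 2)) ^ 2 ≤ (U : ℝ) ^ 2 := by
      have h2 : ((N : ℝ) ^ (κ / 2)) ^ 2 = (N : ℝ) ^ κ := by
        rw [← Real.rpow_natCast, ← Real.rpow_mul hN0.le]
        congr 1
        push_cast
        ring
      rw [h2]
      have h3 : (0 : ℝ) < (N : ℝ) ^ κ := Real.rpow_pos_of_pos hN0 _
      nlinarith
    exact le_of_sq_le_sq h1 (Nat.cast_nonneg _)
  have h1 := hCon h n U Z hh hn hU hZ hwZ hZU
  have h2 := hCEQ h a n U Z hh hn hU hwZ hdist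
  have h3 := hFLS h a n U hUN
  have hq := hpow (MM Z / L) hMMZ
  rcases hSS h a w with h0 | h0
  · -- no survivors
    rw [h0] at h3 ⊢
    rw [zero_mul, mul_zero, sub_zero] at h3
    have h4 : (sg s h a w n U : ℝ) = 0 := abs_eq_zero.1 (le_antisymm h3 (abs_nonneg _))
    have h5 : sg s h a w n U = 0 := by exact_mod_cast h4
    have h6 : sg s h a Z n U = 0 := by
      have := sg_anti s h a hwZ n U
      omega
    rw [h6]
    simp
  · set σ := SS s h a w with hσ
    set f := ff s h a w Z n U with hf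
    set B : ℝ := (sg s h a w n U : ℝ) * (MM w / MM Z) ^ k with hB
    set M : ℝ := σ * (U / L ^ k) with hMdef
    have hσ0 : 0 < σ := lt_of_lt_of_le hc0 h0
    have hM0 : 0 ≤ M := by positivity
    have hr0 : 0 < (MM w / MM Z) ^ k := by positivity
    -- the second approximation
    set B1 : ℝ := σ * (U / MM Z ^ k) with hB1
    have hB10 : 0 ≤ B1 := by positivity
    have h4 : |B - B1| ≤ e * B1 := by
      have h5 : B - B1 = ((sg s h a w n U : ℝ) - σ * (U / MM w ^ k)) * (MM w / MM Z) ^ k := by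
        rw [hB, hB1, div_pow]
        field_simp
      have h6 : e * B1 = e * (σ * (U / MM w ^ k)) * (MM w / MM Z) ^ k := by
        rw [hB1, div_pow]
        field_simp
      rw [h5, h6, abs_mul, abs_of_pos hr0]
      exact mul_le_mul_of_nonneg_right h3 hr0.le
    have h5 : |B1 - M| ≤ e * M := by
      have h6 : B1 - M = M * (((MM Z / L)⁻¹) ^ k - 1) := by
        rw [hB1, hMdef, inv_div, div_pow]
        field_simp
      rw [h6, abs_mul, abs_of_nonneg hM0, mul_comm]
      exact mul_le_mul_of_nonneg_right hq hM0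
    have h6 : (U : ℝ) / L ^ (k + 1) ≤ e * M := by
      have h7 : (U : ℝ) / L ^ (k + 1) = (U / L ^ k) * (1 / L) := by
        rw [pow_succ]
        field_simp
      rw [h7, hMdef]
      have h8 : 1 / L ≤ e * c0 := by
        rw [div_le_iff₀ hL0]
        rw [div_le_iff₀ (by positivity)] at hlog
        linarith
      calc (U : ℝ) / L ^ k * (1 / L) ≤ U / L ^ k * (e * c0) :=
            mul_le_mul_of_nonneg_left h8 (by positivity)
        _ ≤ U / L ^ k * (e * σ) := by gcongr
        _ = e * (σ * (U / L ^ k)) := by ring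
    -- combine
    have h7 := abs_le.1 h1
    have h8 := abs_le.1 h2
    have h9 := abs_le.1 h4
    have h10 := abs_le.1 h5
    have hB1u : B1 ≤ 2 * M := by nlinarith
    have hB0 : 0 ≤ B := by positivity
    have hBu : B ≤ 4 * M := by nlinarith
    have h11 : e * B1 ≤ e * (2 * M) := mul_le_mul_of_nonneg_left hB1u he.le
    have h12 : e * B ≤ e * (4 * M) := mul_le_mul_of_nonneg_left hBu he.le
    have h13 : 8 * e * M ≤ ε * M := mul_le_mul_of_nonneg_right he8 hM0
    rw [abs_le]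
    constructor
    · linarith [h7.1, h8.1, h9.1, h10.1]
    · linarith [h7.2, h8.2, h9.2, h10.2]

end Pool.Agent.H50.BP
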