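import Pool.Agent.H50.BP.Stm
import Pool.Agent.H50.BF.MMB

/-! # BP-MGF (helper61) -/

set_option autoImplicit false

open MeasureTheory Filter ProbabilityTheory
open scoped Topology ENNReal

namespace Pool.Agent.H50.BP

open Pool.Agent.H50.BF

namespace Mgf

variable {k : ℕ} (s h : Fin k → ℤ)

lemma sur_congr {a b : ℕ → ℕ} {p : ℕ} (hab : a p % p = b p % p) (m : ℕ) :
    Sur s h a m p ↔ Sur s h b m p := by
  unfold Sur
  apply forall_congr'
  intro i
  apply not_congr
  have h1 : (p : ℤ) ∣ (a p : ℤ) - (b p : ℤ) := by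
    have h2 : b p ≡ a p [MOD p] := hab.symm
    exact (Nat.modEq_iff_dvd).mp h2
  constructor
  · intro h2
    have h3 := dvd_add h2 h1
    have h4 : s i * (m : ℤ) + h i - (a p : ℤ) + ((a p : ℤ) - (b p : ℤ)) =
        s i * (m : ℤ) + h i - (b p : ℤ) := by ring
    rwa [h4] at h3
  · intro h2
    have h3 := dvd_sub h2 h1
    have h4 : s i * (m : ℤ) + h i - (b p : ℤ) - ((a p : ℤ) - (b p : ℤ)) =
        s i * (m : ℤ) + h i - (a p : ℤ) := by ring
    rwa [h4] at h3

lemma ff_congr {a b : ℕ → ℕ} {v : ℕ} (hab : ∀ q : ℕ, q.Prime → q ≤ v → a q % q = b q % q)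
    (Z n U : ℕ) : ff s h a v Z n U = ff s h b v Z n U := by
  classical
  unfold ff
  apply Finset.sum_congr _ (fun _ _ => rfl)
  apply Finset.filter_congr
  intro j _
  constructor
  · intro h1 q hq hqv
    exact (sur_congr s h (hab q hq hqv) _).1 (h1 q hq hqv)
  · intro h1 q hq hqv
    exact (sur_congr s h (hab q hq hqv) _).2 (h1 q hq hqv)

lemma ff_succ_not (b : ℕ → ℕ) {v : ℕ} (hv : ¬ (v + 1).Prime) (Z n U : ℕ) :
    ff s h b (v + 1) Z n U = ff s h b v Z n U := by
  classical
  unfold ff
  have h1 : (Finset.Ioc (v + 1) Z).filter Nat.Prime = (Finset.Ioc v Z).filter Nat.Prime := by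
    ext q
    simp only [Finset.mem_filter, Finset.mem_Ioc]
    constructor
    · rintro ⟨⟨h1, h2⟩, h3⟩
      exact ⟨⟨by omega, h2⟩, h3⟩
    · rintro ⟨⟨h1, h2⟩, h3⟩
      refine ⟨⟨?_, h2⟩, h3⟩
      by_contra h
      obtain rfl : q = v + 1 := by omega
      exact hv h3
  rw [h1]
  apply Finset.sum_congr _ (fun _ _ => rfl)
  apply Finset.filter_congr
  intro j _
  constructor
  · intro h2 q hq hqv
    exact h2 q hq (by omega)
  · intro h2 q hq hqv
    refine h2 q hq ?_
    by_contra h
    obtain rfl : q = v + 1 := by omega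
    exact hv hq

lemma VS_succ_prime (k w U : ℕ) {v : ℕ} (hwv : w ≤ v) (hv : (v + 1).Prime) :
    VS k w (v + 1) U = VS k w v U + (2 * (k : ℝ) * ((U : ℝ) / ((v + 1 : ℕ) : ℝ) + 1)) ^ 2 := by
  unfold VS
  have h1 : (Finset.Ioc w (v + 1)).filter Nat.Prime =
      insert (v + 1) ((Finset.Ioc w v).filter Nat.Prime) := by
    ext q
    simp only [Finset.mem_filter, Finset.mem_Ioc, Finset.mem_insert]
    constructor
    · rintro ⟨⟨h1, h2⟩, h3⟩
      by_cases h : q = v + 1
      · exact Or.inl h
      · exact Or.inr ⟨⟨h1, by omega⟩, h3⟩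
    · rintro (rfl | ⟨⟨h1, h2⟩, h3⟩)
      · exact ⟨⟨by omega, le_rfl⟩, hv⟩
      · exact ⟨⟨h1, by omega⟩, h3⟩
  rw [h1, Finset.sum_insert (by simp)]
  ring

lemma VS_succ_not (k w U : ℕ) {v : ℕ} (hv : ¬ (v + 1).Prime) :
    VS k w (v + 1) U = VS k w v U := by
  unfold VS
  congr 1
  ext q
  simp only [Finset.mem_filter, Finset.mem_Ioc]
  constructor
  · rintro ⟨⟨h1, h2⟩, h3⟩
    refine ⟨⟨h1, ?_⟩, h3⟩
    by_contra h
    obtain rfl : q = v + 1 := by omega
    exact hv h3
  · rintro ⟨⟨h1, h2⟩, h3⟩
    exact ⟨⟨h1, by omega⟩, h3⟩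

/-- Hoeffding's lemma for a uniform variable -/
lemma hoeff {p : ℕ} (hp : 0 < p) (x : ℕ → ℝ) (c l : ℝ) (hc : 0 ≤ c)
    (hx : ∀ r : ℕ, r < p → |x r| ≤ c) (hs : ∑ r ∈ Finset.range p, x r = 0) :
    (p : ℝ)⁻¹ * ∑ r ∈ Finset.range p, Real.exp (l * x r) ≤ Real.exp (l ^ 2 / 2 * c ^ 2) := by
  have hp0 : (0 : ℝ) < p := by exact_mod_cast hp
  rcases hc.eq_or_lt with rfl | hc
  · have h1 : ∀ r ∈ Finset.range p, Real.exp (l * x r) = 1 := by
      intro r hr
      rw [abs_nonpos_iff.mp (hx r (Finset.mem_range.mp hr)), mul_zero, Real.exp_zero]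
    rw [Finset.sum_congr rfl h1]
    simp [hp0.ne']
  · have h1 : ∀ r ∈ Finset.range p, Real.exp (l * x r) ≤
        (1 + x r / c) / 2 * Real.exp (l * c) + (1 - x r / c) / 2 * Real.exp (-(l * c)) := by
      intro r hr
      have hr' := abs_le.mp (hx r (Finset.mem_range.mp hr))
      have hu : x r / c ≤ 1 := by
        rw [div_le_one hc]
        exact hr'.2
      have hl : -1 ≤ x r / c := by
        rw [le_div_iff₀ hc]
        linarith [hr'.1]
      have h2 := convexOn_exp.2 (Set.mem_univ (l * c)) (Set.mem_univ (-(l * c)))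
        (by linarith : (0 : ℝ) ≤ (1 + x r / c) / 2) (by linarith : (0 : ℝ) ≤ (1 - x r / c) / 2)
        (by ring)
      simp only [smul_eq_mul] at h2
      have h3 : (1 + x r / c) / 2 * (l * c) + (1 - x r / c) / 2 * -(l * c) = l * x r := by
        field_simp
        ring
      rw [h3] at h2
      exact h2
    have h2 := Finset.sum_le_sum h1
    have h3 : ∑ r ∈ Finset.range p,
        ((1 + x r / c) / 2 * Real.exp (l * c) + (1 - x r / c) / 2 * Real.exp (-(l * c))) =
        p * Real.cosh (l * c) := by
      have h4 : ∀ r ∈ Finset.range p,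
          ((1 + x r / c) / 2 * Real.exp (l * c) + (1 - x r / c) / 2 * Real.exp (-(l * c))) =
          Real.cosh (l * c) + x r * ((Real.exp (l * c) - Real.exp (-(l * c))) / (2 * c)) := by
        intro r _
        rw [Real.cosh_eq]
        field_simp
        ring
      rw [Finset.sum_congr rfl h4, Finset.sum_add_distrib, ← Finset.sum_mul, hs, zero_mul, add_zero,
        Finset.sum_const, Finset.card_range, nsmul_eq_mul]
    rw [h3] at h2
    calc (p : ℝ)⁻¹ * ∑ r ∈ Finset.range p, Real.exp (l * x r)
        ≤ (p : ℝ)⁻¹ * (p * Real.cosh (l * c)) := mul_le_mul_of_nonneg_left h2 (by positivity)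
      _ = Real.cosh (l * c) := by field_simp
      _ ≤ Real.exp ((l * c) ^ 2 / 2) := Real.cosh_le_exp_half_sq _
      _ = Real.exp (l ^ 2 / 2 * c ^ 2) := by
          congr 1
          ring

end Mgf

open Mgf in
theorem mgf : S_STEP → BF.S_IND → S_MGF := by
  intro hS hI Ω _ P a H k s h w Z n U l hwZ hs
  have := model_prob H
  have hint : ∀ v v' : ℕ, Integrable (fun ω => Real.exp (l * (ff s h (fun q => a q ω) v Z n U -
      ff s h (fun q => a q ω) v' Z n U))) P := by
    intro v v'
    obtain ⟨p, hpz, hp⟩ := Nat.exists_infinite_primes (max v v' + 1)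
    have h1 : v < p := lt_of_le_of_lt (le_max_left v v') (by omega)
    have h2 : v' < p := lt_of_le_of_lt (le_max_right v v') (by omega)
    exact (hI Ω P a H p hp (fun _ b => Real.exp (l * (ff s h b v Z n U - ff s h b v' Z n U))) (by
      intro r b b' hb
      rw [ff_congr s h (fun q hq hqv => hb q hq (by omega)) Z n U,
        ff_congr s h (v := v') (fun q hq hqv => hb q hq (by omega)) Z n U])).1 0
  refine ⟨hint Z w, ?_⟩
  have key : ∀ v, w ≤ v → v ≤ Z →
      ∫ ω, Real.exp (l * (ff s h (fun q => a q ω) v Z n U - ff s h (fun q => a q ω) w Z n U)) ∂P ≤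
        Real.exp (l ^ 2 / 2 * VS k w v U) := by
    intro v hv
    induction v, hv using Nat.le_induction with
    | base =>
      intro _
      have : VS k w w U = 0 := by
        unfold VS
        simp
      rw [this]
      simp
    | succ v hwv ih =>
      intro hvz
      have ih := ih (by omega)
      by_cases hp : (v + 1).Prime
      · have hdiv : ∀ i, ¬ ((v + 1 : ℕ) : ℤ) ∣ s i := by
          intro i hd
          have h1 := Int.le_of_dvd (abs_pos.mpr (hs i).1) ((dvd_abs _ _).mpr hd)
          have h2 := (hs i).2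
          push_cast at h1
          have h3 : (w : ℤ) ≤ v := by exact_mod_cast hwv
          linarith
        have hG := hI Ω P a H (v + 1) hp (fun r b => Real.exp (l *
          (ff s h (Function.update b (v + 1) r) (v + 1) Z n U - ff s h b w Z n U))) (by
            intro r b b' hb
            rw [ff_congr s h (a := Function.update b (v + 1) r)
                (b := Function.update b' (v + 1) r) (v := v + 1) (fun q hq hqv => by
                  by_cases h1 : q = v + 1
                  · subst h1
                    simp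
                  · rw [Function.update_of_ne h1, Function.update_of_ne h1]
                    exact hb q hq (by omega)) Z n U,
              ff_congr s h (v := w) (fun q hq hqv => hb q hq (by omega)) Z n U])
        have h2 : ∀ ω, Real.exp (l * (ff s h (fun q => a q ω) (v + 1) Z n U -
            ff s h (fun q => a q ω) w Z n U)) =
            Real.exp (l * (ff s h (Function.update (fun q => a q ω) (v + 1) (a (v + 1) ω % (v + 1)))
              (v + 1) Z n U - ff s h (fun q => a q ω) w Z n U)) := by
          intro ω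
          rw [ff_congr s h (a := fun q => a q ω)
            (b := Function.update (fun q => a q ω) (v + 1) (a (v + 1) ω % (v + 1))) (v := v + 1)
            (fun q hq hqv => by
              by_cases h1 : q = v + 1
              · subst h1
                rw [Function.update_self, Nat.mod_mod]
              · rw [Function.update_of_ne h1]) Z n U]
        simp only [h2]
        rw [hG.2.2]
        rw [VS_succ_prime k w U hwv hp]
        have hcpos : (0 : ℝ) ≤ 2 * (k : ℝ) * ((U : ℝ) / ((v + 1 : ℕ) : ℝ) + 1) := by positivity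
        have hpt : ∀ ω, (((v + 1 : ℕ) : ℝ))⁻¹ * ∑ r ∈ Finset.range (v + 1), Real.exp (l *
            (ff s h (Function.update (fun q => a q ω) (v + 1) r) (v + 1) Z n U -
              ff s h (fun q => a q ω) w Z n U)) ≤
            Real.exp (l ^ 2 / 2 * (2 * (k : ℝ) * ((U : ℝ) / ((v + 1 : ℕ) : ℝ) + 1)) ^ 2) *
              Real.exp (l * (ff s h (fun q => a q ω) v Z n U - ff s h (fun q => a q ω) w Z n U)) := by
          intro ω
          obtain ⟨hs1, hs2⟩ := hS k s h (fun q => a q ω) (v + 1) Z n U hp (by omega) hdiv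
          rw [Nat.add_sub_cancel] at hs1 hs2
          have h3 := hoeff (p := v + 1) (Nat.succ_pos v)
            (fun r => ff s h (Function.update (fun q => a q ω) (v + 1) r) (v + 1) Z n U -
              ff s h (fun q => a q ω) v Z n U) _ l hcpos hs2 (by
                rw [Finset.sum_sub_distrib, hs1, Finset.sum_const, Finset.card_range, nsmul_eq_mul,
                  sub_self])
          have h4 : ∀ r ∈ Finset.range (v + 1), Real.exp (l *
              (ff s h (Function.update (fun q => a q ω) (v + 1) r) (v + 1) Z n U -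
                ff s h (fun q => a q ω) w Z n U)) =
              Real.exp (l * (ff s h (Function.update (fun q => a q ω) (v + 1) r) (v + 1) Z n U -
                ff s h (fun q => a q ω) v Z n U)) *
              Real.exp (l * (ff s h (fun q => a q ω) v Z n U - ff s h (fun q => a q ω) w Z n U)) := by
            intro r _
            rw [← Real.exp_add]
            congr 1
            ring
          rw [Finset.sum_congr rfl h4, ← Finset.sum_mul, ← mul_assoc]
          exact mul_le_mul_of_nonneg_right h3 (Real.exp_pos _).le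
        calc ∫ ω, (((v + 1 : ℕ) : ℝ))⁻¹ * ∑ r ∈ Finset.range (v + 1), Real.exp (l *
            (ff s h (Function.update (fun q => a q ω) (v + 1) r) (v + 1) Z n U -
              ff s h (fun q => a q ω) w Z n U)) ∂P
            ≤ ∫ ω, Real.exp (l ^ 2 / 2 * (2 * (k : ℝ) * ((U : ℝ) / ((v + 1 : ℕ) : ℝ) + 1)) ^ 2) *
              Real.exp (l * (ff s h (fun q => a q ω) v Z n U - ff s h (fun q => a q ω) w Z n U)) ∂P := by
              apply integral_mono_of_nonneg
              · apply Eventually.of_forall
                intro ω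
                show (0 : ℝ) ≤ _
                apply mul_nonneg (by positivity)
                apply Finset.sum_nonneg
                intro r _
                exact (Real.exp_pos _).le
              · exact (hint v w).const_mul _
              · exact Eventually.of_forall hpt
          _ = Real.exp (l ^ 2 / 2 * (2 * (k : ℝ) * ((U : ℝ) / ((v + 1 : ℕ) : ℝ) + 1)) ^ 2) *
              ∫ ω, Real.exp (l * (ff s h (fun q => a q ω) v Z n U -
                ff s h (fun q => a q ω) w Z n U)) ∂P := integral_const_mul _ _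
          _ ≤ Real.exp (l ^ 2 / 2 * (2 * (k : ℝ) * ((U : ℝ) / ((v + 1 : ℕ) : ℝ) + 1)) ^ 2) *
              Real.exp (l ^ 2 / 2 * VS k w v U) :=
              mul_le_mul_of_nonneg_left ih (Real.exp_pos _).le
          _ = Real.exp (l ^ 2 / 2 * (VS k w v U +
              (2 * (k : ℝ) * ((U : ℝ) / ((v + 1 : ℕ) : ℝ) + 1)) ^ 2)) := by
              rw [← Real.exp_add]
              congr 1
              ring
      · simp only [ff_succ_not s h _ hp, VS_succ_not k w U hp]
        exact ih
  exact key Z hwZ le_rfl

end Pool.Agent.H50.BP
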