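import Pool.Agent.H50.BP.Aux68

/-!
# SSL: the singular series is zero or bounded below
-/

set_option autoImplicit false

open MeasureTheory Filter ProbabilityTheory
open scoped Topology ENNReal

namespace Pool.Agent.H50.BP

open Pool.Agent.H50.BF

namespace SSL68

open Classical in
theorem nua_le {k : ℕ} (s h : Fin k → ℤ) (a : ℕ → ℕ) (p : ℕ) (hp : p.Prime)
    (hs : ∀ i, ¬ (p : ℤ) ∣ s i) : nua s h a p ≤ k := by
  rw [Aux68.nua_eq]
  have h1 : (Finset.range p).filter (fun r : ℕ => ∃ i, (p : ℤ) ∣ s i * (r : ℤ) + h i - (a p : ℤ))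
      ⊆ Finset.univ.biUnion fun i : Fin k =>
        (Finset.range p).filter (fun r : ℕ => (p : ℤ) ∣ s i * (r : ℤ) + h i - (a p : ℤ)) := by
    intro r hr
    rw [Finset.mem_filter] at hr
    obtain ⟨hr, i, hi⟩ := hr
    rw [Finset.mem_biUnion]
    exact ⟨i, Finset.mem_univ _, Finset.mem_filter.2 ⟨hr, hi⟩⟩
  refine (Finset.card_le_card h1).trans (Finset.card_biUnion_le.trans ?_)
  have h2 : ∀ i ∈ (Finset.univ : Finset (Fin k)),
      ((Finset.range p).filter (fun r : ℕ => (p : ℤ) ∣ s i * (r : ℤ) + h i - (a p : ℤ))).card ≤ 1 := by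
    intro i _
    rw [Finset.card_le_one]
    intro x hx y hy
    rw [Finset.mem_filter, Finset.mem_range] at hx hy
    have h3 : (p : ℤ) ∣ s i * ((x : ℤ) - y) := by
      have h4 := dvd_sub hx.2 hy.2
      have h5 : s i * (x : ℤ) + h i - (a p : ℤ) - (s i * (y : ℤ) + h i - (a p : ℤ))
          = s i * ((x : ℤ) - y) := by ring
      rwa [h5] at h4
    rcases (Nat.prime_iff_prime_int.1 hp).dvd_or_dvd h3 with h6 | h6
    · exact absurd h6 (hs i)
    · have h7 : (x : ℤ) - y = 0 := by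
        refine Int.eq_zero_of_abs_lt_dvd h6 ?_
        rw [abs_lt]
        constructor
        · omega
        · omega
      omega
  refine (Finset.sum_le_sum h2).trans ?_
  simp

open Classical in
theorem nua_le' {k : ℕ} (s h : Fin k → ℤ) (a : ℕ → ℕ) (p : ℕ) : nua s h a p ≤ p := by
  rw [Aux68.nua_eq]
  exact (Finset.card_filter_le _ _).trans (by simp)

/-- the factor -/
noncomputable def Fp {k : ℕ} (s h : Fin k → ℤ) (a : ℕ → ℕ) (p : ℕ) : ℝ :=
  (1 - (nua s h a p : ℝ) / p) * ((1 - (p : ℝ)⁻¹)⁻¹) ^ k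

theorem SS_eq {k : ℕ} (s h : Fin k → ℤ) (a : ℕ → ℕ) (w : ℕ) :
    SS s h a w = ∏ p ∈ (Finset.Icc 1 w).filter Nat.Prime, Fp s h a p := by
  unfold SS MM Fp
  rw [Finset.prod_mul_distrib, Finset.prod_pow]

theorem exp_le_one_sub {x : ℝ} (h0 : 0 ≤ x) (h1 : x ≤ 1 / 2) : Real.exp (-x - x ^ 2) ≤ 1 - x := by
  have h2 : 1 + (x + x ^ 2) + (x + x ^ 2) ^ 2 / 2 ≤ Real.exp (x + x ^ 2) :=
    Real.quadratic_le_exp_of_nonneg (by positivity)
  have h3 : 1 ≤ (1 - x) * Real.exp (x + x ^ 2) := by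
    have h4 : (1 - x) * (1 + (x + x ^ 2) + (x + x ^ 2) ^ 2 / 2) ≤ (1 - x) * Real.exp (x + x ^ 2) :=
      mul_le_mul_of_nonneg_left h2 (by linarith)
    have h5 : (1 - x) * (1 + (x + x ^ 2) + (x + x ^ 2) ^ 2 / 2)
        = 1 + x ^ 2 / 2 * (1 - x - x ^ 2 - x ^ 3) := by ring
    have h6 : 0 ≤ 1 - x - x ^ 2 - x ^ 3 := by nlinarith [sq_nonneg x, mul_nonneg h0 h0]
    have h7 : 0 ≤ x ^ 2 / 2 * (1 - x - x ^ 2 - x ^ 3) := by positivity
    linarith
  have h4 : Real.exp (-x - x ^ 2) = (Real.exp (x + x ^ 2))⁻¹ := by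
    rw [← Real.exp_neg]
    congr 1
    ring
  rw [h4, inv_le_iff_one_le_mul₀ (Real.exp_pos _)]
  exact h3

theorem inv_ge {p : ℕ} (hp : p.Prime) : Real.exp ((p : ℝ)⁻¹) ≤ (1 - (p : ℝ)⁻¹)⁻¹ := by
  have h1 : (2 : ℝ) ≤ p := by exact_mod_cast hp.two_le
  have h2 : (p : ℝ)⁻¹ ≤ 1 / 2 := by
    rw [inv_eq_one_div]
    exact one_div_le_one_div_of_le (by norm_num) h1
  have h3 : 1 - (p : ℝ)⁻¹ ≤ Real.exp (-(p : ℝ)⁻¹) := Real.one_sub_le_exp_neg _
  have h4 : 0 < 1 - (p : ℝ)⁻¹ := by linarith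
  have h5 := inv_anti₀ h4 h3
  rwa [Real.exp_neg, inv_inv] at h5

theorem one_le_inv {p : ℕ} (hp : p.Prime) : 1 ≤ (1 - (p : ℝ)⁻¹)⁻¹ := by
  refine le_trans ?_ (inv_ge hp)
  exact Real.one_le_exp (by positivity)

theorem Fp_lb {k : ℕ} (s h : Fin k → ℤ) (a : ℕ → ℕ) (hs : ∀ i, s i ≠ 0) (K : ℕ)
    (hK : K = ∑ i, (s i).natAbs + 2 * k + 1) (p : ℕ) (hp : p.Prime) (h0 : Fp s h a p ≠ 0) :
    Real.exp (-((if p ≤ K then Real.log K else 0) + (k : ℝ) ^ 2 * ((p : ℝ) ^ 2)⁻¹)) ≤ Fp s h a p := by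
  have hp0 : (0 : ℝ) < p := by exact_mod_cast hp.pos
  have hK1 : (1 : ℝ) ≤ K := by
    have : 1 ≤ K := by omega
    exact_mod_cast this
  have hne : nua s h a p ≠ p := by
    intro h1
    apply h0
    unfold Fp
    rw [h1, div_self hp0.ne', sub_self, zero_mul]
  have hlt : nua s h a p < p := lt_of_le_of_ne (nua_le' s h a p) hne
  by_cases hpK : p ≤ K
  · rw [if_pos hpK]
    have h1 : (1 : ℝ) / p ≤ 1 - (nua s h a p : ℝ) / p := by
      rw [le_sub_iff_add_le, ← add_div, div_le_one hp0]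
      have : 1 + nua s h a p ≤ p := by omega
      exact_mod_cast this
    have h2 : (1 : ℝ) / K ≤ 1 / p := one_div_le_one_div_of_le hp0 (by exact_mod_cast hpK)
    have h3 : (1 : ℝ) ≤ ((1 - (p : ℝ)⁻¹)⁻¹) ^ k := one_le_pow₀ (one_le_inv hp)
    have h4 : Real.exp (-(Real.log K + (k : ℝ) ^ 2 * ((p : ℝ) ^ 2)⁻¹)) ≤ 1 / K := by
      calc Real.exp (-(Real.log K + (k : ℝ) ^ 2 * ((p : ℝ) ^ 2)⁻¹))
          ≤ Real.exp (-Real.log K) := Real.exp_le_exp.2 (by
            have : 0 ≤ (k : ℝ) ^ 2 * ((p : ℝ) ^ 2)⁻¹ := by positivity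
            linarith)
        _ = 1 / K := by rw [Real.exp_neg, Real.exp_log (by linarith), one_div]
    unfold Fp
    calc _ ≤ (1 : ℝ) / K := h4
      _ ≤ 1 - (nua s h a p : ℝ) / p := h2.trans h1
      _ = (1 - (nua s h a p : ℝ) / p) * 1 := (mul_one _).symm
      _ ≤ _ := mul_le_mul_of_nonneg_left h3 (le_trans (by positivity) h1)
  · rw [if_neg hpK, zero_add]
    have hpd : ∀ i, ¬ (p : ℤ) ∣ s i := by
      intro i hi
      have h1 : (s i).natAbs ≤ ∑ i, (s i).natAbs :=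
        Finset.single_le_sum (f := fun i => (s i).natAbs) (fun _ _ => Nat.zero_le _)
          (Finset.mem_univ i)
      have h2 : p ∣ (s i).natAbs := Int.natCast_dvd.1 hi
      have h3 : (s i).natAbs ≠ 0 := Int.natAbs_ne_zero.2 (hs i)
      have h4 := Nat.le_of_dvd (Nat.pos_of_ne_zero h3) h2
      omega
    have h1 := nua_le s h a p hp hpd
    have h2 : (nua s h a p : ℝ) / p ≤ (k : ℝ) / p := by
      gcongr
    have h3 : (k : ℝ) / p ≤ 1 / 2 := by
      rw [div_le_div_iff₀ hp0 (by norm_num)]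
      have : k * 2 ≤ 1 * p := by omega
      exact_mod_cast this
    have h4 : Real.exp (-((k : ℝ) / p) - ((k : ℝ) / p) ^ 2) ≤ 1 - (nua s h a p : ℝ) / p := by
      refine (exp_le_one_sub (by positivity) h3).trans ?_
      linarith
    have h5 : Real.exp ((k : ℝ) / p) ≤ ((1 - (p : ℝ)⁻¹)⁻¹) ^ k := by
      have h6 : Real.exp ((k : ℝ) / p) = Real.exp ((p : ℝ)⁻¹) ^ k := by
        rw [← Real.exp_nat_mul, div_eq_mul_inv]
      rw [h6]
      exact pow_le_pow_left₀ (Real.exp_pos _).le (inv_ge hp) k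
    have h6 : Real.exp (-((k : ℝ) ^ 2 * ((p : ℝ) ^ 2)⁻¹))
        = Real.exp (-((k : ℝ) / p) - ((k : ℝ) / p) ^ 2) * Real.exp ((k : ℝ) / p) := by
      rw [← Real.exp_add]
      congr 1
      rw [div_pow]
      ring
    rw [h6]
    unfold Fp
    exact mul_le_mul h4 h5 (Real.exp_pos _).le (le_trans (Real.exp_pos _).le h4)

end SSL68

open SSL68 in
theorem ssl : S_SSL := by
  intro k s hs
  obtain ⟨K, hK⟩ : ∃ K : ℕ, K = ∑ i, (s i).natAbs + 2 * k + 1 := ⟨_, rfl⟩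
  have hK1 : (1 : ℝ) ≤ K := by
    have : 1 ≤ K := by omega
    exact_mod_cast this
  have hlog : 0 ≤ Real.log K := Real.log_nonneg hK1
  refine ⟨Real.exp (-(K * Real.log K + (k : ℝ) ^ 2 * 2)), Real.exp_pos _, ?_⟩
  intro h a w
  rw [SS_eq]
  by_cases hz : ∃ p ∈ (Finset.Icc 1 w).filter Nat.Prime, Fp s h a p = 0
  · obtain ⟨p, hp, hp0⟩ := hz
    exact Or.inl (Finset.prod_eq_zero hp hp0)
  · right
    push Not at hz
    set u : ℕ → ℝ := fun p => (if p ≤ K then Real.log K else 0) + (k : ℝ) ^ 2 * ((p : ℝ) ^ 2)⁻¹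
      with hu
    have hu0 : ∀ p, 0 ≤ u p := by
      intro p
      rw [hu]
      have h1 : 0 ≤ (k : ℝ) ^ 2 * ((p : ℝ) ^ 2)⁻¹ := by positivity
      dsimp only
      split_ifs <;> linarith
    have h1 : ∏ p ∈ (Finset.Icc 1 w).filter Nat.Prime, Real.exp (-(u p))
        ≤ ∏ p ∈ (Finset.Icc 1 w).filter Nat.Prime, Fp s h a p := by
      refine Finset.prod_le_prod (fun p _ => (Real.exp_pos _).le) fun p hp => ?_
      exact Fp_lb s h a hs K hK p (Finset.mem_filter.1 hp).2 (hz p hp)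
    refine le_trans ?_ h1
    rw [← Real.exp_sum, Finset.sum_neg_distrib]
    apply Real.exp_le_exp.2
    apply neg_le_neg
    calc ∑ p ∈ (Finset.Icc 1 w).filter Nat.Prime, u p ≤ ∑ p ∈ Finset.Icc 1 w, u p :=
          Finset.sum_le_sum_of_subset_of_nonneg (Finset.filter_subset _ _) fun p _ _ => hu0 p
      _ = ∑ p ∈ Finset.Icc 1 w, (if p ≤ K then Real.log K else 0)
          + (k : ℝ) ^ 2 * ∑ p ∈ Finset.Icc 1 w, ((p : ℝ) ^ 2)⁻¹ := by
          rw [hu, Finset.sum_add_distrib, Finset.mul_sum]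
      _ ≤ K * Real.log K + (k : ℝ) ^ 2 * 2 := by
          have h2 : ∑ p ∈ Finset.Icc 1 w, (if p ≤ K then Real.log K else 0) ≤ K * Real.log K := by
            rw [← Finset.sum_filter, Finset.sum_const, nsmul_eq_mul]
            have h3 : ((Finset.Icc 1 w).filter fun p => p ≤ K).card ≤ K := by
              have h4 : ((Finset.Icc 1 w).filter fun p => p ≤ K) ⊆ Finset.Icc 1 K := by
                intro x hx
                rw [Finset.mem_filter, Finset.mem_Icc] at hx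
                rw [Finset.mem_Icc]
                exact ⟨hx.1.1, hx.2⟩
              have h5 := Finset.card_le_card h4
              simpa using h5
            have h4 : ((((Finset.Icc 1 w).filter fun p => p ≤ K).card : ℕ) : ℝ) ≤ K := by
              exact_mod_cast h3
            exact mul_le_mul_of_nonneg_right h4 hlog
          have h5 : ∑ p ∈ Finset.Icc 1 w, ((p : ℝ) ^ 2)⁻¹ ≤ 2 := by
            have h6 := sum_Ioo_inv_sq_le (α := ℝ) 0 (w + 1)
            have h7 : Finset.Ioo 0 (w + 1) = Finset.Icc 1 w := by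
              ext x
              simp only [Finset.mem_Ioo, Finset.mem_Icc]
              omega
            rw [h7] at h6
            norm_num at h6 ⊢
            exact h6
          have h8 : (k : ℝ) ^ 2 * ∑ p ∈ Finset.Icc 1 w, ((p : ℝ) ^ 2)⁻¹ ≤ (k : ℝ) ^ 2 * 2 :=
            mul_le_mul_of_nonneg_left h5 (by positivity)
          linarith

end Pool.Agent.H50.BP
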