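import Pool.Agent.H50.BP.Stm
import Pool.Agent.H50.BF.TAIL

set_option autoImplicit false

open MeasureTheory Filter ProbabilityTheory
open scoped Topology ENNReal

namespace Pool.Agent.H50.BP

open Pool.Agent.H50.BF

namespace TAILP

theorem ff_self {k : ℕ} (s h : Fin k → ℤ) (a : ℕ → ℕ) (Z n U : ℕ) :
    ff s h a Z Z n U = sg s h a Z n U := by
  unfold ff sg
  rw [Finset.Ioc_self, Finset.filter_empty]
  simp

theorem VS_nonneg (k w Z U : ℕ) : 0 ≤ VS k w Z U := by
  unfold VS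
  exact Finset.sum_nonneg fun p _ => sq_nonneg _

theorem one_side {Ω : Type} [MeasurableSpace Ω] {P : Measure Ω} [IsProbabilityMeasure P]
    {X : Ω → ℝ} {l V T : ℝ} (hV : 0 < V) (hl : l = T / V)
    (hi : Integrable (fun ω => Real.exp (l * X ω)) P)
    (he : ∫ ω, Real.exp (l * X ω) ∂P ≤ Real.exp (l ^ 2 / 2 * V)) (hT : 0 ≤ T) :
    P {ω | T < X ω} ≤ ENNReal.ofReal (Real.exp (-(T ^ 2 / (2 * V)))) := by
  have hl0 : 0 ≤ l := by rw [hl]; positivity
  have h1 : (fun ω => Real.exp (l * X ω - l ^ 2 / 2 * V)) =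
      fun ω => Real.exp (-(l ^ 2 / 2 * V)) * Real.exp (l * X ω) := by
    funext ω
    rw [← Real.exp_add]
    congr 1
    ring
  have h2 : Integrable (fun ω => Real.exp (l * X ω - l ^ 2 / 2 * V)) P := by
    rw [h1]
    exact hi.const_mul _
  have h3 : ∫ ω, Real.exp (l * X ω - l ^ 2 / 2 * V) ∂P ≤ 1 := by
    rw [h1, integral_const_mul]
    calc Real.exp (-(l ^ 2 / 2 * V)) * ∫ ω, Real.exp (l * X ω) ∂P
        ≤ Real.exp (-(l ^ 2 / 2 * V)) * Real.exp (l ^ 2 / 2 * V) :=
          mul_le_mul_of_nonneg_left he (Real.exp_pos _).le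
      _ = 1 := by rw [← Real.exp_add, neg_add_cancel, Real.exp_zero]
  have h4 := markov_exp (A := {ω | T < X ω}) (c := l * T - l ^ 2 / 2 * V) h2 h3 (by
    intro ω hω
    have h5 : T < X ω := hω
    have h6 := mul_le_mul_of_nonneg_left h5.le hl0
    linarith)
  have h5 : -(l * T - l ^ 2 / 2 * V) = -(T ^ 2 / (2 * V)) := by
    rw [hl]
    field_simp
    ring
  rw [h5] at h4
  exact h4

end TAILP

open TAILP in
theorem tail : S_MGF → S_TAIL := by
  intro hM Ω _ P a H k s h w Z n U T hT hwZ hs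
  have := model_prob H
  rcases (VS_nonneg k w Z U).eq_or_lt with hV | hV
  · rw [← hV]
    refine prob_le_one.trans ?_
    rw [mul_zero, div_zero, neg_zero, Real.exp_zero, mul_one, ← ENNReal.ofReal_one]
    exact ENNReal.ofReal_le_ofReal (by norm_num)
  obtain ⟨X, hX⟩ : ∃ X : Ω → ℝ, X = fun ω => ff s h (fun q => a q ω) Z Z n U - ff s h (fun q => a q ω) w Z n U :=
    ⟨_, rfl⟩
  have h1 := hM Ω P a H k s h w Z n U (T / VS k w Z U) hwZ hs
  have h2 := hM Ω P a H k s h w Z n U (-(T / VS k w Z U)) hwZ hs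
  obtain ⟨i1, e1⟩ := h1
  obtain ⟨i2, e2⟩ := h2
  have a1 := one_side (X := X) hV rfl (by rw [hX]; exact i1) (by rw [hX]; exact e1) hT
  have a2 := one_side (X := fun ω => -X ω) hV rfl (by
    rw [hX]; convert i2 using 3; ring) (by
    rw [hX]; rw [neg_sq] at e2; convert e2 using 4; ring) hT
  have h3 : {ω | T < |(sg s h (fun q => a q ω) Z n U : ℝ) - ff s h (fun q => a q ω) w Z n U|} ⊆
      {ω | T < X ω} ∪ {ω | T < -X ω} := by
    intro ω hω
    have h4 : T < |(sg s h (fun q => a q ω) Z n U : ℝ) - ff s h (fun q => a q ω) w Z n U| := hω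
    rw [← ff_self] at h4
    have h5 : T < |X ω| := by rw [hX]; exact h4
    exact lt_abs.mp h5
  refine (measure_mono h3).trans ((measure_union_le _ _).trans ?_)
  refine (add_le_add a1 a2).trans ?_
  rw [← ENNReal.ofReal_add (Real.exp_pos _).le (Real.exp_pos _).le]
  apply ENNReal.ofReal_le_ofReal
  linarith

end Pool.Agent.H50.BP
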