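import Pool.Agent.H50.BP.STEP
import Pool.Agent.H50.BP.MGF
import Pool.Agent.H50.BP.TAIL
import Pool.Agent.H50.BP.CONC
import Pool.Agent.H50.BP.CEQ
import Pool.Agent.H50.BP.SSL
import Pool.Agent.H50.BP.FLS
import Pool.Agent.H50.BP.MAIN
import Pool.Agent.H50.BP.GOLD
import Pool.Agent.H50.BP.CUBE
import Pool.Agent.H50.BP.INT
import Pool.Agent.H50.BF.IND
import Pool.Agent.H50.BF.LIB
import Pool.Agent.H50.GW.FND

set_option autoImplicit false

namespace Pool.Agent.H50.BP

lemma mgf' : S_MGF := mgf step BF.ind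
lemma tail' : S_TAIL := tail mgf'
lemma conc' : S_CONC := conc tail'
lemma fls' : S_FLS := fls GW.fnd ssl
lemma main' : S_MAIN := main ceq fls' ssl BF.mert
lemma gold' : S_GOLD := gold main' ssl BF.mert
lemma cube' : S_CUBE := cube main' BF.mert
lemma int' : S_INT := Pool.Agent.H50.BP.int main' BF.mert

end Pool.Agent.H50.BP
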