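import Pool.Agent.H50.BP.Stm

/-!
# Auxiliary: the numbers of residues, with natural numbers as residues
-/

set_option autoImplicit false

open MeasureTheory Filter ProbabilityTheory
open scoped Topology ENNReal

namespace Pool.Agent.H50.BP

open Pool.Agent.H50.BF

namespace Aux68

open Classical in
theorem card_lift (p : ℕ) (P : ℤ → Prop) :
    ((Finset.image (Nat.cast : ℕ → ℤ) (Finset.range p)).filter (fun r => P r)).card
      = ((Finset.range p).filter (fun r : ℕ => P (r : ℤ))).card := by
  rw [Finset.filter_image, Finset.card_image_of_injective _ Nat.cast_injective]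

open Classical in
theorem nua_eq {k : ℕ} (s h : Fin k → ℤ) (a : ℕ → ℕ) (p : ℕ) :
    nua s h a p
      = ((Finset.range p).filter
        (fun r : ℕ => ∃ i, (p : ℤ) ∣ s i * (r : ℤ) + h i - (a p : ℤ))).card := by
  first
  | rfl
  | (unfold nua
     have h1 := card_lift p fun r => ∃ i, (p : ℤ) ∣ s i * r + h i - (a p : ℤ)
     simp only [bind_pure_comp, Finset.fmap_def]
     convert h1)

open Classical in
theorem num_eq {k : ℕ} (s h : Fin k → ℤ) (m p : ℕ) :
    num s h m p
      = ((Finset.range p).filter
        (fun r : ℕ => ∃ i, (p : ℤ) ∣ s i * (m : ℤ) + h i - (r : ℤ))).card := by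
  first
  | rfl
  | (unfold num
     have h1 := card_lift p fun r => ∃ i, (p : ℤ) ∣ s i * (m : ℤ) + h i - r
     simp only [bind_pure_comp, Finset.fmap_def]
     convert h1)

end Aux68

end Pool.Agent.H50.BP
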