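import Pool.Agent.H50.BP.StmB
import Pool.Agent.H50.GW.RES

set_option autoImplicit false

open MeasureTheory Filter ProbabilityTheory
open scoped Topology ENNReal

namespace Pool.Agent.H50.BP

open Pool.Agent.H50.BF Pool.Agent.H50.GW

lemma dvd_sub_iff {p x y : ℕ} : (p : ℤ) ∣ (x : ℤ) - (y : ℤ) ↔ x % p = y % p := by
  have h := (Int.natCast_modEq_iff (a := y) (b := x) (n := p))
  rw [Int.modEq_iff_dvd] at h
  rw [h]
  unfold Nat.ModEq
  exact eq_comm

/-- the classes for Goldbach -/
lemma card_gold (N p c : ℕ) (hp : p.Prime) :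
    ((Finset.range p).filter (fun r => r % p = c % p ∨ (r + c) % p = N % p)).card = if (2 * c) % p = N % p then 1 else 2 := by
  have hp0 := hp.pos
  obtain ⟨e, he1, he2⟩ : ∃ e < p, (e + c) % p = N % p := by
    refine ⟨(N + (p - c % p)) % p, Nat.mod_lt _ hp0, ?_⟩
    have h1 := Nat.mod_lt c hp0
    have h2 : ((N + (p - c % p)) % p + c) % p = (N + (p - c % p) + c % p) % p := by
      rw [Nat.add_mod, Nat.mod_mod, ← Nat.add_mod, ← Nat.add_mod_mod]
    rw [h2, show N + (p - c % p) + c % p = N + p by omega, Nat.add_mod_right]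
  have h3 : ((Finset.range p).filter (fun r => r % p = c % p ∨ (r + c) % p = N % p)) = {c % p, e} := by
    ext r
    rw [Finset.mem_filter, Finset.mem_range, Finset.mem_insert, Finset.mem_singleton]
    constructor
    · rintro ⟨hr, h | h⟩
      · left
        rwa [Nat.mod_eq_of_lt hr] at h
      · right
        have h4 : r ≡ e [MOD p] := Nat.ModEq.add_right_cancel' c (h.trans he2.symm)
        exact Nat.ModEq.eq_of_lt_of_lt h4 hr he1
    · rintro (h | h)
      · rw [h]
        exact ⟨Nat.mod_lt _ hp0, Or.inl (Nat.mod_mod _ _)⟩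
      · rw [h]
        exact ⟨he1, Or.inr he2⟩
  rw [h3]
  split_ifs with h
  · have h4 : c % p = e := by
      have h5 : c % p ≡ e [MOD p] := by
        refine Nat.ModEq.add_right_cancel' c ?_
        unfold Nat.ModEq
        rw [he2, ← h, two_mul, Nat.mod_add_mod]
      exact Nat.ModEq.eq_of_lt_of_lt h5 (Nat.mod_lt _ hp0) he1
    rw [h4]
    simp
  · rw [Finset.card_insert_of_notMem, Finset.card_singleton]
    rw [Finset.mem_singleton]
    intro h4
    apply h
    rw [← he2, ← h4, two_mul, Nat.mod_add_mod]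

lemma nua_gold (a : ℕ → ℕ) (N p : ℕ) (hp : p.Prime) :
    nua ![(1 : ℤ), -1] ![(0 : ℤ), (N : ℤ)] a p = if (2 * a p) % p = N % p then 1 else 2 := by
  classical
  rw [← card_gold N p (a p) hp]
  unfold nua
  congr 1
  ext r
  rw [Finset.mem_filter, Finset.mem_filter]
  refine and_congr_right fun _ => ?_
  rw [Fin.exists_fin_two]
  simp only [Matrix.cons_val_zero, Matrix.cons_val_one, one_mul, add_zero]
  rw [dvd_sub_iff]
  refine or_congr Iff.rfl ?_
  have h1 : (-1 : ℤ) * (r : ℤ) + (N : ℤ) - (a p : ℤ) = (N : ℤ) - ((r + a p : ℕ) : ℤ) := by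
    push_cast
    ring
  rw [h1, dvd_sub_iff]
  exact eq_comm

/-- the classes for two translates -/
lemma nua_pair (a : ℕ → ℕ) (h p : ℕ) (hp : p.Prime) :
    nua ![(1 : ℤ), 1] ![(0 : ℤ), (h : ℤ)] a p = if p ∣ h then 1 else 2 := by
  classical
  have hp0 := hp.pos
  obtain ⟨e, he1, he2⟩ : ∃ e < p, (e + h) % p = a p % p := by
    refine ⟨(a p + (p - h % p)) % p, Nat.mod_lt _ hp0, ?_⟩
    have h1 := Nat.mod_lt h hp0
    have h2 : ((a p + (p - h % p)) % p + h) % p = (a p + (p - h % p) + h % p) % p := by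
      rw [Nat.add_mod, Nat.mod_mod, ← Nat.add_mod, ← Nat.add_mod_mod]
    rw [h2, show a p + (p - h % p) + h % p = a p + p by omega, Nat.add_mod_right]
  unfold nua
  have h3 : ((Finset.range p).filter (fun r : ℕ => ∃ i : Fin 2, (p : ℤ) ∣ (![(1 : ℤ), 1] : Fin 2 → ℤ) i * (r : ℤ) +
      (![(0 : ℤ), (h : ℤ)] : Fin 2 → ℤ) i - (a p : ℤ))) = {a p % p, e} := by
    ext r
    rw [Finset.mem_filter, Finset.mem_range, Finset.mem_insert, Finset.mem_singleton, Fin.exists_fin_two]
    simp only [Matrix.cons_val_zero, Matrix.cons_val_one, one_mul, add_zero]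
    rw [dvd_sub_iff, ← Nat.cast_add, dvd_sub_iff]
    constructor
    · rintro ⟨hr, h | h⟩
      · left
        rwa [Nat.mod_eq_of_lt hr] at h
      · right
        have h4 : r ≡ e [MOD p] := Nat.ModEq.add_right_cancel' _ (h.trans he2.symm)
        exact Nat.ModEq.eq_of_lt_of_lt h4 hr he1
    · rintro (h | h)
      · rw [h]
        exact ⟨Nat.mod_lt _ hp0, Or.inl (Nat.mod_mod _ _)⟩
      · rw [h]
        exact ⟨he1, Or.inr he2⟩
  rw [h3]
  split_ifs with hd
  · have h4 : a p % p = e := by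
      have h5 : a p % p ≡ e [MOD p] := by
        unfold Nat.ModEq
        rw [Nat.mod_mod, ← he2, Nat.add_mod, Nat.mod_eq_zero_of_dvd hd, add_zero, Nat.mod_mod]
      exact Nat.ModEq.eq_of_lt_of_lt h5 (Nat.mod_lt _ hp0) he1
    rw [h4]
    simp
  · rw [Finset.card_insert_of_notMem, Finset.card_singleton]
    rw [Finset.mem_singleton]
    intro h4
    apply hd
    have h5 : (e + h) ≡ e + 0 [MOD p] := by
      unfold Nat.ModEq
      rw [he2, ← h4, add_zero, Nat.mod_mod]
    exact (Nat.modEq_zero_iff_dvd).1 (Nat.ModEq.add_left_cancel' e h5)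

end Pool.Agent.H50.BP
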