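import Pool.Agent.H50.BP.FINA
import Pool.Agent.H50.GW.SNG
import Pool.Agent.H50.GW.VLM

set_option autoImplicit false

open MeasureTheory Filter ProbabilityTheory
open scoped Topology ENNReal

namespace Pool.Agent.H50.BP

open Pool.Agent.H50.BF Pool.Agent.H50.GW

/-- the forms -/
def cc : Fin 2 → ℕ := ![1, 1]
/-- the forms -/
def dd : Fin 2 → ℕ := ![0, 2]

lemma forall_cd {Q : ℕ → Prop} (m : ℕ) : (∀ i : Fin 2, Q (cc i * m + dd i)) ↔ Q m ∧ Q (m + 2) := by
  rw [Fin.forall_fin_two]
  simp [cc, dd]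

lemma exists_cd {Q : ℕ → Prop} (m : ℕ) : (∃ i : Fin 2, Q (cc i * m + dd i)) ↔ Q m ∨ Q (m + 2) := by
  rw [Fin.exists_fin_two]
  simp [cc, dd]

lemma sys2 : Sys cc dd where
  one := by norm_num
  pos := fun i => by fin_cases i <;> simp [cc]
  adm := fun p hp => by
    rcases eq_or_ne p 2 with h | h
    · refine ⟨1, (forall_cd (Q := fun n => ¬ p ∣ n) 1).2 ?_⟩
      subst h
      decide
    · have h3 : 3 ≤ p := by
        have := hp.two_le
        omega
      refine ⟨2, (forall_cd (Q := fun n => ¬ p ∣ n) 2).2 ⟨?_, ?_⟩⟩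
      · intro hd
        have := Nat.le_of_dvd (by norm_num) hd
        omega
      · intro hd
        have h4 : p ∣ 2 := hp.dvd_of_dvd_pow (show p ∣ 2 ^ 2 by simpa using hd)
        have := Nat.le_of_dvd (by norm_num) h4
        omega
  ndg := fun i j hij => by
    fin_cases i <;> fin_cases j <;> simp_all [cc, dd]
  inj := ⟨0, fun m _ i j h => by
    fin_cases i <;> fin_cases j <;> simp_all [cc, dd]⟩
  col := ⟨0, fun m m' _ h1 _ i j h2 => by
    have h3 : m' = m + 2 := by
      fin_cases i <;> fin_cases j <;> simp [cc, dd] at h2 <;> omega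
    refine ⟨3, Nat.prime_three, le_rfl, ?_⟩
    subst h3
    have h4 : m % 3 = 0 ∨ m % 3 = 1 ∨ m % 3 = 2 := by omega
    rcases h4 with h | h | h
    · exact ⟨0, Or.inl (by simp [cc, dd]; omega)⟩
    · exact ⟨1, Or.inl (by simp [cc, dd]; omega)⟩
    · exact ⟨1, Or.inr (by simp [cc, dd]; omega)⟩⟩

lemma nu_nua (a : ℕ → ℕ) {p : ℕ} (hp : p.Prime) :
    nu cc dd p = nua ![(1 : ℤ), 1] ![(0 : ℤ), (2 : ℤ)] a p := by
  classical
  have h0 := nua_pair a 2 p hp
  rw [Nat.cast_ofNat] at h0
  rw [h0]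
  have hp2 := hp.two_le
  have h1 : ∀ r : ℕ, (∃ i : Fin 2, p ∣ cc i * r + dd i) ↔ p ∣ r ∨ p ∣ r + 2 := fun r =>
    exists_cd (Q := fun n => p ∣ n) r
  by_cases h : p = 2
  · subst h
    rw [if_pos dvd_rfl]
    have h2 : ((Finset.range 2).filter (fun r => ∃ i : Fin 2, 2 ∣ cc i * r + dd i)) = {0} := by
      ext r
      rw [Finset.mem_filter, h1, Finset.mem_range, Finset.mem_singleton]
      omega
    unfold nu
    have h3 : ((Finset.range 2).filter (fun r => ∃ i : Fin 2, 2 ∣ cc i * r + dd i)).card = 1 := by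
      rw [h2]
      simp
    convert h3
  · have hp3 : 3 ≤ p := by omega
    rw [if_neg (fun hd => by have := Nat.le_of_dvd (by norm_num) hd; omega)]
    have h2 : ((Finset.range p).filter (fun r => ∃ i : Fin 2, p ∣ cc i * r + dd i)) = {0, p - 2} := by
      ext r
      rw [Finset.mem_filter, h1, Finset.mem_range, Finset.mem_insert, Finset.mem_singleton]
      constructor
      · rintro ⟨hr, hd | hd⟩
        · exact Or.inl (Nat.eq_zero_of_dvd_of_lt hd hr)
        · right
          obtain ⟨e, he⟩ := hd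
          have h4 : e = 1 := by
            rcases e with _ | _ | e
            · omega
            · rfl
            · exfalso
              have : p * (e + 1 + 1) = p * e + p + p := by ring
              omega
          subst h4
          omega
      · rintro (hr | hr)
        · subst hr
          exact ⟨by omega, Or.inl (dvd_zero p)⟩
        · subst hr
          exact ⟨by omega, Or.inr (by rw [Nat.sub_add_cancel (by omega)])⟩
    unfold nu
    have h3 : ((Finset.range p).filter (fun r => ∃ i : Fin 2, p ∣ cc i * r + dd i)).card = 2 := by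
      rw [h2, Finset.card_insert_of_notMem (by rw [Finset.mem_singleton]; omega), Finset.card_singleton]
    convert h3

lemma SS_VV (a : ℕ → ℕ) (w : ℕ) : SS ![(1 : ℤ), 1] ![(0 : ℤ), (2 : ℤ)] a w = VV cc dd w := by
  unfold SS VV
  congr 1
  refine Finset.prod_congr rfl fun p hp => ?_
  rw [nu_nua a (Finset.mem_filter.1 hp).2]

lemma twin_const : ∃ V : ℝ, 0 < V ∧ ∀ a : ℕ → ℕ,
    Tendsto (fun w : ℕ => SS ![(1 : ℤ), 1] ![(0 : ℤ), (2 : ℤ)] a w) atTop (𝓝 V) := by
  obtain ⟨V, hV, h⟩ := vlm sng 2 cc dd sys2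
  refine ⟨V, hV, fun a => ?_⟩
  simp only [SS_VV]
  exact h

end Pool.Agent.H50.BP
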