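import Pool.Agent.H50.BP.Stm
import Pool.Agent.H50.BF.MMB

/-! # Common part of GOLD and CUBE (helper83): the main theorem along a sequence -/

set_option autoImplicit false

open MeasureTheory Filter ProbabilityTheory
open scoped Topology ENNReal

namespace Pool.Agent.H50.BP.KEY83

open Pool.Agent.H50.BF

/-- the levels tend to infinity -/
theorem tendsto_levels {N Z : ℕ → ℕ} (hN : Tendsto N atTop atTop)
    (hZ : Tendsto (fun t => MM (Z t) / Real.log (N t)) atTop (𝓝 1)) : Tendsto Z atTop atTop := by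
  rw [tendsto_atTop]
  intro B
  have hlog : Tendsto (fun t => Real.log (N t)) atTop atTop :=
    Real.tendsto_log_atTop.comp (tendsto_natCast_atTop_atTop.comp hN)
  have h1 : ∀ᶠ t in atTop, (1 / 2 : ℝ) < MM (Z t) / Real.log (N t) :=
    hZ.eventually (lt_mem_nhds (by norm_num))
  filter_upwards [h1, hlog.eventually_gt_atTop (2 * MM B), hlog.eventually_gt_atTop 0] with t h2 h3 h4
  by_contra hlt
  push Not at hlt
  have h5 : MM (Z t) ≤ MM B := MM_mono hlt.le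
  rw [lt_div_iff₀ h4] at h2
  linarith

/-- the levels are at most `N ^ (9/8)` -/
theorem level_le (hMert : S_MERT) {N Z : ℕ → ℕ} (hN : Tendsto N atTop atTop)
    (hZ : Tendsto (fun t => MM (Z t) / Real.log (N t)) atTop (𝓝 1)) :
    ∀ᶠ t in atTop, (Z t : ℝ) ≤ (N t : ℝ) ^ (9 / 8 : ℝ) := by
  have hZt := tendsto_levels hN hZ
  have hlog : Tendsto (fun t => Real.log (N t)) atTop atTop :=
    Real.tendsto_log_atTop.comp (tendsto_natCast_atTop_atTop.comp hN)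
  have hγ : (1 : ℝ) < Real.exp Real.eulerMascheroniConstant := by
    rw [Real.one_lt_exp_iff]
    have := Real.one_half_lt_eulerMascheroniConstant
    linarith
  have h1 : ∀ᶠ t in atTop, (1 : ℝ) < MM (Z t) / Real.log (Z t) :=
    (hMert.comp hZt).eventually (lt_mem_nhds hγ)
  have h2 : ∀ᶠ t in atTop, MM (Z t) / Real.log (N t) < 9 / 8 :=
    hZ.eventually (gt_mem_nhds (by norm_num))
  have hlogZ : Tendsto (fun t => Real.log (Z t)) atTop atTop :=
    Real.tendsto_log_atTop.comp (tendsto_natCast_atTop_atTop.comp hZt)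
  filter_upwards [h1, h2, hlog.eventually_gt_atTop 0, hlogZ.eventually_gt_atTop 0,
    hN.eventually_gt_atTop 0, hZt.eventually_gt_atTop 0] with t h3 h4 h5 h6 h7 h8
  rw [lt_div_iff₀ h6, one_mul] at h3
  rw [div_lt_iff₀ h5] at h4
  have hN0 : (0 : ℝ) < N t := by exact_mod_cast h7
  have hZ0 : (0 : ℝ) < Z t := by exact_mod_cast h8
  rw [← Real.log_le_log_iff hZ0 (Real.rpow_pos_of_pos hN0 _), Real.log_rpow hN0]
  linarith

theorem keylim (hMain : S_MAIN) (hMert : S_MERT) {s : Fin 2 → ℤ} (hs : ∀ i, s i ≠ 0) {a : ℕ → ℕ}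
    (hCon : Con s a) (N n U Z : ℕ → ℕ) (h : ℕ → Fin 2 → ℤ) (hN : Tendsto N atTop atTop)
    (hZ : Tendsto (fun t => MM (Z t) / Real.log (N t)) atTop (𝓝 1))
    (hh : ∀ᶠ t in atTop, ∀ i, |h t i| ≤ (N t : ℤ) ^ 2) (hn : ∀ᶠ t in atTop, n t ≤ N t ^ 2)
    (hU : ∀ᶠ t in atTop, U t ≤ N t ^ 2)
    (hU2 : ∀ᶠ t in atTop, (N t : ℝ) ^ (5 / 4 : ℝ) ≤ (U t : ℝ) ^ 2)
    (hd : ∀ᶠ t in atTop, ∀ m : ℕ, n t < m → m ≤ n t + U t → ∀ i j, i ≠ j →
      s i * (m : ℤ) + h t i ≠ s j * (m : ℤ) + h t j)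
    (hSS : ∀ᶠ t in atTop, 0 < SS s (h t) a (lw 2 (N t))) :
    Tendsto (fun t => (sg s (h t) a (Z t) (n t) (U t) : ℝ) * Real.log (N t) ^ 2 /
      ((U t : ℝ) * SS s (h t) a (lw 2 (N t)))) atTop (𝓝 1) := by
  rw [Metric.tendsto_nhds]
  intro ε hε
  obtain ⟨δ, hδ, hM⟩ := hMain 2 s (by norm_num) hs a hCon 2 (1 / 8) (ε / 2) (by norm_num)
    (by positivity)
  have hlog : Tendsto (fun t => Real.log (N t)) atTop atTop :=
    Real.tendsto_log_atTop.comp (tendsto_natCast_atTop_atTop.comp hN)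
  have hZ' : ∀ᶠ t in atTop, |MM (Z t) / Real.log (N t) - 1| < δ := by
    have := Metric.tendsto_nhds.1 hZ δ hδ
    simpa [Real.dist_eq] using this
  filter_upwards [hN.eventually hM, hlog.eventually_gt_atTop 0, hZ', hh, hn, hU, hU2, hd, hSS,
    level_le hMert hN hZ, hN.eventually_gt_atTop 0] with t k1 k2 k3 k4 k5 k6 k7 k8 k9 k10 k11
  have hN1 : (1 : ℝ) ≤ N t := by exact_mod_cast k11
  have hN0 : (0 : ℝ) < N t := by linarith
  have hZN : Z t ≤ N t ^ 2 := by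
    have : (Z t : ℝ) ≤ (N t : ℝ) ^ (2 : ℝ) :=
      k10.trans (Real.rpow_le_rpow_of_exponent_le hN1 (by norm_num))
    rw [Real.rpow_two] at this
    exact_mod_cast this
  have hZU : (Z t : ℝ) * (N t : ℝ) ^ (1 / 8 : ℝ) ≤ (U t : ℝ) ^ 2 := by
    refine le_trans ?_ k7
    calc (Z t : ℝ) * (N t : ℝ) ^ (1 / 8 : ℝ) ≤ (N t : ℝ) ^ (9 / 8 : ℝ) * (N t : ℝ) ^ (1 / 8 : ℝ) := by
          gcongr
      _ = (N t : ℝ) ^ (5 / 4 : ℝ) := by
          rw [← Real.rpow_add hN0]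
          norm_num
  have hU0 : (0 : ℝ) < U t := by
    have h1 : (0 : ℝ) < (U t : ℝ) ^ 2 := lt_of_lt_of_le (Real.rpow_pos_of_pos hN0 _) k7
    have h2 : (U t : ℝ) ≠ 0 := by
      intro h3
      rw [h3] at h1
      norm_num at h1
    have h3 : (0 : ℝ) ≤ U t := Nat.cast_nonneg _
    exact lt_of_le_of_ne h3 h2.symm
  have key := k1 (h t) (n t) (U t) (Z t) k4 k5 k6 hZN hZU k3.le k8
  have hpos : 0 < SS s (h t) a (lw 2 (N t)) * (U t / Real.log (N t) ^ 2) := by positivity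
  rw [Real.dist_eq]
  have e1 : (sg s (h t) a (Z t) (n t) (U t) : ℝ) * Real.log (N t) ^ 2 /
      ((U t : ℝ) * SS s (h t) a (lw 2 (N t))) - 1 =
      ((sg s (h t) a (Z t) (n t) (U t) : ℝ) - SS s (h t) a (lw 2 (N t)) *
        (U t / Real.log (N t) ^ 2)) / (SS s (h t) a (lw 2 (N t)) * (U t / Real.log (N t) ^ 2)) := by
    field_simp
  rw [e1, abs_div, abs_of_pos hpos, div_lt_iff₀ hpos]
  refine key.trans_lt ?_
  gcongr
  linarith

/-- more primes, fewer survivors -/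
theorem sg_anti {k : ℕ} (s h : Fin k → ℤ) (a : ℕ → ℕ) {Z Z' : ℕ} (hZ : Z ≤ Z') (n U : ℕ) :
    sg s h a Z' n U ≤ sg s h a Z n U := by
  classical
  unfold sg
  refine Finset.card_le_card fun j hj => ?_
  rw [Finset.mem_filter] at hj ⊢
  exact ⟨hj.1, fun p hp hpZ => hj.2 p hp (hpZ.trans hZ)⟩

/-- the survivors as a set -/
theorem sg_eq_ncard {k : ℕ} (s h : Fin k → ℤ) (a : ℕ → ℕ) (Z n U : ℕ) :
    sg s h a Z n U = Set.ncard {m : ℕ | n < m ∧ m ≤ n + U ∧ ∀ p : ℕ, p.Prime → p ≤ Z → Sur s h a m p} := by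
  classical
  unfold sg
  rw [← Set.ncard_coe_finset]
  refine Set.ncard_congr (fun j _ => n + j + 1) ?_ ?_ ?_
  · intro j hj
    simp only [Finset.coe_filter, Finset.mem_range, Set.mem_ofPred_eq] at hj ⊢
    exact ⟨by omega, by omega, hj.2⟩
  · intro j j' _ _ hjj
    omega
  · intro m hm
    simp only [Set.mem_ofPred_eq] at hm
    refine ⟨m - n - 1, ?_, by omega⟩
    simp only [Finset.coe_filter, Finset.mem_range, Set.mem_ofPred_eq]
    have : n + (m - n - 1) + 1 = m := by omega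
    rw [this]
    exact ⟨by omega, hm.2.2⟩

end Pool.Agent.H50.BP.KEY83
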