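import Pool.Agent.H50.BP.Stm

/-! # BP-STEP (helper61) -/

set_option autoImplicit false

open MeasureTheory Filter ProbabilityTheory
open scoped Topology ENNReal

namespace Pool.Agent.H50.BP

namespace Stp

variable {k : ℕ} (s h : Fin k → ℤ)

open Classical in
/-- survivors of level `v` -/
noncomputable def A (a : ℕ → ℕ) (v n U : ℕ) : Finset ℕ :=
  (Finset.range U).filter (fun j => ∀ p : ℕ, p.Prime → p ≤ v → Sur s h a (n + j + 1) p)

/-- the product over the primes above -/
noncomputable def Q (v Z n j : ℕ) : ℝ :=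
  ∏ p ∈ (Finset.Ioc v Z).filter Nat.Prime, (1 - (num s h (n + j + 1) p : ℝ) / p)

lemma ff_eq (a : ℕ → ℕ) (v Z n U : ℕ) : ff s h a v Z n U = ∑ j ∈ A s h a v n U, Q s h v Z n j := rfl

open Classical in
lemma cast_range (p : ℕ) : (do let a ← Finset.range p; pure (a : ℤ) : Finset ℤ) =
    (Finset.range p).map Nat.castEmbedding := by
  ext x
  simp [Finset.mem_map]

open Classical in
lemma num_eq (m p : ℕ) : num s h m p =
    ((Finset.range p).filter (fun r : ℕ => ∃ i, (p : ℤ) ∣ s i * (m : ℤ) + h i - (r : ℤ))).card := by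
  first
    | rfl
    | (unfold num
       rw [cast_range, Finset.filter_map, Finset.card_map]
       rfl)

lemma num_le_p (m p : ℕ) : num s h m p ≤ p := by
  classical
  rw [num_eq]
  refine (Finset.card_filter_le _ _).trans ?_
  rw [Finset.card_range]

lemma num_le_k (m : ℕ) {p : ℕ} (_hp : 0 < p) : num s h m p ≤ k := by
  classical
  rw [num_eq]
  have h1 : (Finset.range p).filter (fun r : ℕ => ∃ i, (p : ℤ) ∣ s i * (m : ℤ) + h i - (r : ℤ)) ⊆
      (Finset.univ : Finset (Fin k)).image (fun i => ((s i * (m : ℤ) + h i) % (p : ℤ)).toNat) := by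
    intro r hr
    rw [Finset.mem_filter, Finset.mem_range] at hr
    obtain ⟨hr, i, hi⟩ := hr
    rw [Finset.mem_image]
    refine ⟨i, Finset.mem_univ _, ?_⟩
    have h2 : (s i * (m : ℤ) + h i) % (p : ℤ) = (r : ℤ) % (p : ℤ) :=
      Int.emod_eq_emod_iff_emod_sub_eq_zero.mpr (Int.emod_eq_zero_of_dvd hi)
    rw [h2, Int.emod_eq_of_lt (by positivity) (by exact_mod_cast hr)]
    simp
  refine (Finset.card_le_card h1).trans ?_
  refine Finset.card_image_le.trans ?_
  simp

lemma Q_nonneg (v Z n j : ℕ) : 0 ≤ Q s h v Z n j := by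
  unfold Q
  apply Finset.prod_nonneg
  intro p hp
  rw [Finset.mem_filter] at hp
  have hp0 : (0 : ℝ) < p := by exact_mod_cast hp.2.pos
  have h1 : (num s h (n + j + 1) p : ℝ) ≤ p := by exact_mod_cast num_le_p s h _ p
  have h2 : (num s h (n + j + 1) p : ℝ) / p ≤ 1 := by
    rw [div_le_one hp0]
    exact h1
  linarith

lemma Q_le_one (v Z n j : ℕ) : Q s h v Z n j ≤ 1 := by
  unfold Q
  apply Finset.prod_le_one
  · intro p hp
    rw [Finset.mem_filter] at hp
    have hp0 : (0 : ℝ) < p := by exact_mod_cast hp.2.pos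
    have h1 : (num s h (n + j + 1) p : ℝ) ≤ p := by exact_mod_cast num_le_p s h _ p
    have h2 : (num s h (n + j + 1) p : ℝ) / p ≤ 1 := by
      rw [div_le_one hp0]
      exact h1
    linarith
  · intro p _
    have : (0 : ℝ) ≤ (num s h (n + j + 1) p : ℝ) / p := by positivity
    linarith

lemma Q_pred {p Z : ℕ} (hp : p.Prime) (hpZ : p ≤ Z) (n j : ℕ) :
    Q s h (p - 1) Z n j = (1 - (num s h (n + j + 1) p : ℝ) / p) * Q s h p Z n j := by
  unfold Q
  have h1 : (Finset.Ioc (p - 1) Z).filter Nat.Prime =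
      insert p ((Finset.Ioc p Z).filter Nat.Prime) := by
    have := hp.pos
    ext q
    simp only [Finset.mem_filter, Finset.mem_Ioc, Finset.mem_insert]
    constructor
    · rintro ⟨⟨h1, h2⟩, h3⟩
      by_cases h : q = p
      · exact Or.inl h
      · exact Or.inr ⟨⟨by omega, h2⟩, h3⟩
    · rintro (rfl | ⟨⟨h1, h2⟩, h3⟩)
      · exact ⟨⟨by omega, hpZ⟩, hp⟩
      · exact ⟨⟨by omega, h2⟩, h3⟩
  rw [h1, Finset.prod_insert (by simp)]

/-- `m` survives `p` with the residue `r` -/
def Gd (p n j r : ℕ) : Prop := ∀ i, ¬ (p : ℤ) ∣ s i * ((n + j + 1 : ℕ) : ℤ) + h i - (r : ℤ)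

open Classical in
lemma A_update (a : ℕ → ℕ) {p : ℕ} (hp : p.Prime) (r n U : ℕ) :
    A s h (Function.update a p r) p n U = (A s h a (p - 1) n U).filter (fun j => Gd s h p n j r) := by
  unfold A
  rw [Finset.filter_filter]
  apply Finset.filter_congr
  intro j _
  have := hp.pos
  constructor
  · intro h1
    refine ⟨fun q hq hqp => ?_, ?_⟩
    · have h2 := h1 q hq (by omega)
      unfold Sur at h2 ⊢
      rwa [Function.update_of_ne (by omega)] at h2
    · have h2 := h1 p hp le_rfl
      unfold Sur at h2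
      rwa [Function.update_self] at h2
  · rintro ⟨h1, h2⟩ q hq hqp
    by_cases h : q = p
    · subst h
      unfold Sur
      rw [Function.update_self]
      exact h2
    · have h3 := h1 q hq (by omega)
      unfold Sur at h3 ⊢
      rwa [Function.update_of_ne h]

open Classical in
lemma ff_update (a : ℕ → ℕ) {p : ℕ} (hp : p.Prime) (r Z n U : ℕ) :
    ff s h (Function.update a p r) p Z n U =
      ∑ j ∈ A s h a (p - 1) n U, (if Gd s h p n j r then (1 : ℝ) else 0) * Q s h p Z n j := by
  rw [ff_eq, A_update s h a hp, Finset.sum_filter]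
  apply Finset.sum_congr rfl
  intro j _
  split_ifs <;> simp

lemma ff_pred (a : ℕ → ℕ) {p Z : ℕ} (hp : p.Prime) (hpZ : p ≤ Z) (n U : ℕ) :
    ff s h a (p - 1) Z n U =
      ∑ j ∈ A s h a (p - 1) n U, (1 - (num s h (n + j + 1) p : ℝ) / p) * Q s h p Z n j := by
  rw [ff_eq]
  apply Finset.sum_congr rfl
  intro j _
  exact Q_pred s h hp hpZ n j

open Classical in
lemma sum_good (p n j : ℕ) :
    ∑ r ∈ Finset.range p, (if Gd s h p n j r then (1 : ℝ) else 0) =
      (p : ℝ) - num s h (n + j + 1) p := by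
  have h1 := Finset.card_filter_add_card_filter_not (s := Finset.range p)
    (fun r : ℕ => ∃ i, (p : ℤ) ∣ s i * ((n + j + 1 : ℕ) : ℤ) + h i - (r : ℤ))
  rw [Finset.card_range] at h1
  have h2 : ∑ r ∈ Finset.range p, (if Gd s h p n j r then (1 : ℝ) else 0) =
      (((Finset.range p).filter (fun r : ℕ => ¬ ∃ i, (p : ℤ) ∣ s i * ((n + j + 1 : ℕ) : ℤ) + h i - (r : ℤ))).card : ℝ) := by
    rw [Finset.sum_ite, Finset.sum_const_zero, add_zero, Finset.sum_const, nsmul_eq_mul, mul_one]
    congr 2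
    apply Finset.filter_congr
    intro r _
    unfold Gd
    push Not
    rfl
  have h3 : (num s h (n + j + 1) p : ℝ) + (((Finset.range p).filter
      (fun r : ℕ => ¬ ∃ i, (p : ℤ) ∣ s i * ((n + j + 1 : ℕ) : ℤ) + h i - (r : ℤ))).card : ℝ) = p := by
    rw [num_eq]
    exact_mod_cast h1
  rw [h2]
  linarith

open Classical in
lemma count_bad {p : ℕ} (hp : p.Prime) (i : Fin k) (hi : ¬ (p : ℤ) ∣ s i) (n U r : ℕ) :
    ((((Finset.range U).filter (fun j => (p : ℤ) ∣ s i * ((n + j + 1 : ℕ) : ℤ) + h i - (r : ℤ))).card : ℕ) : ℝ) ≤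
      (U : ℝ) / p + 1 := by
  have h1 : ((Finset.range U).filter (fun j => (p : ℤ) ∣ s i * ((n + j + 1 : ℕ) : ℤ) + h i - (r : ℤ))).card ≤
      (Finset.range (U / p + 1)).card := by
    apply Finset.card_le_card_of_injOn (fun j => j / p)
    · intro j hj
      rw [Finset.mem_coe, Finset.mem_filter, Finset.mem_range] at hj
      simp only [Finset.coe_range, Set.mem_Iio]
      have := Nat.div_le_div_right (c := p) hj.1.le
      omega
    · intro j hj j' hj' he
      rw [Finset.mem_coe, Finset.mem_filter] at hj hj'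
      simp only at he
      have h2 := dvd_sub hj.2 hj'.2
      have h3 : s i * ((n + j + 1 : ℕ) : ℤ) + h i - (r : ℤ) - (s i * ((n + j' + 1 : ℕ) : ℤ) + h i - (r : ℤ)) =
          s i * ((j : ℤ) - j') := by
        push_cast
        ring
      rw [h3] at h2
      have hpZ : Prime (p : ℤ) := Nat.prime_iff_prime_int.mp hp
      have h4 : (p : ℤ) ∣ (j : ℤ) - j' := (hpZ.dvd_or_dvd h2).resolve_left hi
      have h5 : j' ≡ j [MOD p] := (Nat.modEq_iff_dvd).mpr h4
      rw [← Nat.div_add_mod j p, ← Nat.div_add_mod j' p, he, h5]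
  rw [Finset.card_range] at h1
  have h2 : ((((Finset.range U).filter (fun j => (p : ℤ) ∣ s i * ((n + j + 1 : ℕ) : ℤ) + h i - (r : ℤ))).card : ℕ) : ℝ) ≤
      ((U / p : ℕ) : ℝ) + 1 := by exact_mod_cast h1
  have h3 : ((U / p : ℕ) : ℝ) ≤ (U : ℝ) / p := Nat.cast_div_le
  linarith

end Stp

open Stp in
theorem step : S_STEP := by
  classical
  intro k s h a p Z n U hp hpZ hs
  have hp0 : (0 : ℝ) < p := by exact_mod_cast hp.pos
  refine ⟨?_, fun r _ => ?_⟩
  · rw [Finset.sum_congr rfl fun r _ => ff_update s h a hp r Z n U, Finset.sum_comm,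
      ff_pred s h a hp hpZ, Finset.mul_sum]
    apply Finset.sum_congr rfl
    intro j _
    rw [← Finset.sum_mul, sum_good]
    field_simp
  · rw [ff_update s h a hp, ff_pred s h a hp hpZ, ← Finset.sum_sub_distrib]
    refine (Finset.abs_sum_le_sum_abs _ _).trans ?_
    have h1 : ∀ j ∈ A s h a (p - 1) n U,
        |(if Gd s h p n j r then (1 : ℝ) else 0) * Q s h p Z n j -
          (1 - (num s h (n + j + 1) p : ℝ) / p) * Q s h p Z n j| ≤
        (k : ℝ) / p + ∑ i : Fin k,
          (if (p : ℤ) ∣ s i * ((n + j + 1 : ℕ) : ℤ) + h i - (r : ℤ) then (1 : ℝ) else 0) := by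
      intro j _
      have hk : (num s h (n + j + 1) p : ℝ) / p ≤ (k : ℝ) / p := by
        apply div_le_div_of_nonneg_right _ hp0.le
        exact_mod_cast num_le_k s h _ hp.pos
      have h0 : (0 : ℝ) ≤ (num s h (n + j + 1) p : ℝ) / p := by positivity
      have h1' : (num s h (n + j + 1) p : ℝ) / p ≤ 1 := by
        rw [div_le_one hp0]
        exact_mod_cast num_le_p s h _ p
      have hQ0 := Q_nonneg s h p Z n j
      have hQ1 := Q_le_one s h p Z n j
      have hS0 : (0 : ℝ) ≤ ∑ i : Fin k,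
          (if (p : ℤ) ∣ s i * ((n + j + 1 : ℕ) : ℤ) + h i - (r : ℤ) then (1 : ℝ) else 0) :=
        Finset.sum_nonneg fun i _ => by split_ifs <;> norm_num
      rw [← sub_mul, abs_mul, abs_of_nonneg hQ0]
      refine (mul_le_of_le_one_right (abs_nonneg _) hQ1).trans ?_
      by_cases hg : Gd s h p n j r
      · rw [if_pos hg]
        rw [show (1 : ℝ) - (1 - (num s h (n + j + 1) p : ℝ) / p) = (num s h (n + j + 1) p : ℝ) / p by ring,
          abs_of_nonneg h0]
        linarith
      · rw [if_neg hg]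
        have hS1 : (1 : ℝ) ≤ ∑ i : Fin k,
            (if (p : ℤ) ∣ s i * ((n + j + 1 : ℕ) : ℤ) + h i - (r : ℤ) then (1 : ℝ) else 0) := by
          unfold Gd at hg
          push Not at hg
          obtain ⟨i, hi⟩ := hg
          have := Finset.single_le_sum (f := fun i : Fin k =>
            (if (p : ℤ) ∣ s i * ((n + j + 1 : ℕ) : ℤ) + h i - (r : ℤ) then (1 : ℝ) else 0))
            (fun i _ => by split_ifs <;> norm_num) (Finset.mem_univ i)
          simp only [if_pos hi] at this
          exact this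
        rw [abs_le]
        have hk0 : (0 : ℝ) ≤ (k : ℝ) / p := by positivity
        constructor <;> linarith
    refine (Finset.sum_le_sum h1).trans ?_
    have hsub : A s h a (p - 1) n U ⊆ Finset.range U := by
      unfold A
      exact Finset.filter_subset _ _
    refine (Finset.sum_le_sum_of_subset_of_nonneg hsub fun j _ _ => ?_).trans ?_
    · have : (0 : ℝ) ≤ (k : ℝ) / p := by positivity
      have hS0 : (0 : ℝ) ≤ ∑ i : Fin k,
          (if (p : ℤ) ∣ s i * ((n + j + 1 : ℕ) : ℤ) + h i - (r : ℤ) then (1 : ℝ) else 0) :=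
        Finset.sum_nonneg fun i _ => by split_ifs <;> norm_num
      linarith
    rw [Finset.sum_add_distrib, Finset.sum_const, Finset.card_range, nsmul_eq_mul, Finset.sum_comm]
    have h2 : ∑ i : Fin k, ∑ j ∈ Finset.range U,
        (if (p : ℤ) ∣ s i * ((n + j + 1 : ℕ) : ℤ) + h i - (r : ℤ) then (1 : ℝ) else 0) ≤
        ∑ _i : Fin k, ((U : ℝ) / p + 1) := by
      apply Finset.sum_le_sum
      intro i _
      rw [Finset.sum_ite, Finset.sum_const_zero, add_zero, Finset.sum_const, nsmul_eq_mul, mul_one]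
      exact count_bad s h hp i (hs i) n U r
    rw [Finset.sum_const, Finset.card_univ, Fintype.card_fin, nsmul_eq_mul] at h2
    have h3 : (U : ℝ) * ((k : ℝ) / p) = k * ((U : ℝ) / p) := by ring
    have hk0 : (0 : ℝ) ≤ (k : ℝ) := by positivity
    nlinarith [h2, h3]

end Pool.Agent.H50.BP
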