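import Pool.Agent.H50.GW.Stm

/-!
# Project BP: Goldbach's problem and twin pairs between cubes in the random sieve of Banks, Ford and Tao

`a p` (`p` prime) are independent, `a p mod p` is uniform; the random set `R` consists of the `n` with
`n ≢ a p (mod p)` for all primes `p ≤ z n`, where `log n ∏_{p ≤ z n} (1 - 1/p) → 1` (`BF.Model`, `BF.Rset`).
Patterns: `k` linear forms `s i * m + h i` with fixed slopes `s i ≠ 0` and constant terms of polynomial
size, UNIFORMLY in the constant terms.  Almost surely, in all intervals of length `U` with `U² ≥ Z N^κ`, the number of the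
`m` such that all values survive the primes `≤ Z` (`MM Z ~ log N`) is `~ 𝔖_a U / (log N)^k`, with the
singular series `𝔖_a` of the pattern and the residues `a p`.
Hand-ins: (1) MP_61161c_nt: almost surely, for all large even `N`, the number of representations of `N` as
a sum of two different elements of `R` is `~ 𝔖_a(N) N / (2 log² N)`; (2) MP_d610d0_nt: almost surely the
number of twin pairs of `R` between `n³` and `(n+1)³` is `~ (V / 3) n² / log² n`.

Every stub `S_X` comes with its proof.  To prove `S_X`: file `Pool/Agent/H50/BP/X.lean`,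
`import Pool.Agent.H50.BP.Stm`, namespace `Pool.Agent.H50.BP`, theorem `x : (used stubs) → S_X`
(lower case name; the used stubs are hypotheses).  Keep helper lemmas in a private sub-namespace.
-/

set_option autoImplicit false

open MeasureTheory Filter ProbabilityTheory
open scoped Topology ENNReal

namespace Pool.Agent.H50.BP

open Pool.Agent.H50.BF

/-- `m` survives the prime `p`: no value `s i * m + h i` is congruent to `a p` modulo `p` -/
def Sur {k : ℕ} (s h : Fin k → ℤ) (a : ℕ → ℕ) (m p : ℕ) : Prop :=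
  ∀ i, ¬ (p : ℤ) ∣ s i * (m : ℤ) + h i - (a p : ℤ)

open Classical in
/-- the number of the `m` with `n < m ≤ n + U` which survive all primes `p ≤ Z` -/
noncomputable def sg {k : ℕ} (s h : Fin k → ℤ) (a : ℕ → ℕ) (Z n U : ℕ) : ℕ :=
  ((Finset.range U).filter (fun j => ∀ p : ℕ, p.Prime → p ≤ Z → Sur s h a (n + j + 1) p)).card

open Classical in
/-- the number of the residues `r` modulo `p` such that `m` does not survive `p` if `a p = r` -/
noncomputable def num {k : ℕ} (s h : Fin k → ℤ) (m p : ℕ) : ℕ :=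
  ((Finset.range p).filter (fun r : ℕ => ∃ i, (p : ℤ) ∣ s i * (m : ℤ) + h i - (r : ℤ))).card

open Classical in
/-- the number of the residues `r` modulo `p` which do not survive `p` -/
noncomputable def nua {k : ℕ} (s h : Fin k → ℤ) (a : ℕ → ℕ) (p : ℕ) : ℕ :=
  ((Finset.range p).filter (fun r : ℕ => ∃ i, (p : ℤ) ∣ s i * (r : ℤ) + h i - (a p : ℤ))).card

open Classical in
/-- the conditional expectation of `sg s h a Z n U`, given the residues modulo the primes `≤ v` -/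
noncomputable def ff {k : ℕ} (s h : Fin k → ℤ) (a : ℕ → ℕ) (v Z n U : ℕ) : ℝ :=
  ∑ j ∈ (Finset.range U).filter (fun j => ∀ p : ℕ, p.Prime → p ≤ v → Sur s h a (n + j + 1) p),
    ∏ p ∈ (Finset.Ioc v Z).filter Nat.Prime, (1 - (num s h (n + j + 1) p : ℝ) / p)

/-- STEP (about 120 lines).  One prime.  Write `m = n + j + 1`.
Proof.  `Sur s h (update a p r) m q` for `q ≠ p` does not depend on `r`, and for `q = p` it holds for exactly
`p - num s h m p` of the `r < p`.  So for each `j` which survives the primes `< p`, the sum over `r < p` of the terms is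
`(p - num s h m p) ∏_{p<q≤Z} (...) = p (1 - num / p) ∏_{p<q≤Z} (...) = p ∏_{p-1<q≤Z} (...)`.
Second part.  `0 ≤ num s h m q ≤ q` (so all products lie in `[0, 1]`) and `num s h m p ≤ k` (each `i` gives one `r < p`).  The
`j` which do not survive some prime `< p` contribute `0` to both sums.  The others contribute
`∏_{p<q≤Z} (...) * ([m survives p with r] - (1 - num / p))`, in absolute value `≤ num / p ≤ k / p` if `m`
survives `p` and `≤ 1` otherwise.  The number of the `j < U` with `p ∣ s i * m + h i - r` is at most `U / p + 1`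
for each `i` (they are all in one class modulo `p`, since `p ∤ s i`; e.g. `Nat.count_modEq_card`, or BF.AP).
Total `≤ k U / p + k (U / p + 1)`. -/
def S_STEP : Prop := ∀ (k : ℕ) (s h : Fin k → ℤ) (a : ℕ → ℕ) (p Z n U : ℕ), p.Prime → p ≤ Z →
  (∀ i, ¬ (p : ℤ) ∣ s i) →
  (∑ r ∈ Finset.range p, ff s h (Function.update a p r) p Z n U = p * ff s h a (p - 1) Z n U) ∧
  ∀ r : ℕ, r < p → |ff s h (Function.update a p r) p Z n U - ff s h a (p - 1) Z n U| ≤ 2 * k * ((U : ℝ) / p + 1)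

/-- the sum of the squares of the bounds of STEP -/
noncomputable def VS (k w Z U : ℕ) : ℝ :=
  ∑ p ∈ (Finset.Ioc w Z).filter Nat.Prime, (2 * (k : ℝ) * ((U : ℝ) / p + 1)) ^ 2

/-- MGF (about 150 lines; uses STEP and BF.S_IND).
Proof.  Induction on `v`, `w ≤ v ≤ Z`: `E exp (l (ff_v - ff_w)) ≤ exp (l²/2 ∑_{w<p≤v} c_p²)`, where
`c_p = 2 k (U/p + 1)` (and the integrability).  If `v + 1` is not prime, `ff_(v+1) = ff_v` (same survivors,
same primes).  If `p = v + 1` is prime: `G r b = exp (l (ff s h (update b p r) p Z n U - ff s h b w Z n U))` depends only on the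
residues `b q % q`, `q < p` (`w < p`), and `G (a p % p) a = exp (l (ff_p - ff_w))` (`Sur` depends only on `a p % p`).  By BF.S_IND
the expectation is `E (1/p) ∑_r G r a = E exp (l (ff_(p-1) - ff_w)) (1/p) ∑_r exp (l x_r)` with
`x_r = ff s h (update a p r) p - ff s h a (p - 1)`, `∑ x_r = 0`, `|x_r| ≤ c_p` (STEP), and
`(1/p) ∑_r exp (l x_r) ≤ cosh (l c_p) ≤ exp (l² c_p²/2)` (`exp (l x) ≤ cosh (l c) + (x/c) sinh (l c)` by convexity,
`Real.cosh_le_exp_half_sq`).  Compare `Pool/Agent/H50/BF/MGF.lean`. -/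
def S_MGF : Prop := ∀ (Ω : Type) [MeasurableSpace Ω] (P : Measure Ω) (a : ℕ → Ω → ℕ), Model P a →
  ∀ (k : ℕ) (s h : Fin k → ℤ) (w Z n U : ℕ) (l : ℝ), w ≤ Z → (∀ i, s i ≠ 0 ∧ |s i| ≤ w) →
    Integrable (fun ω => Real.exp (l * (ff s h (fun q => a q ω) Z Z n U - ff s h (fun q => a q ω) w Z n U))) P ∧
    ∫ ω, Real.exp (l * (ff s h (fun q => a q ω) Z Z n U - ff s h (fun q => a q ω) w Z n U)) ∂P ≤
      Real.exp (l ^ 2 / 2 * VS k w Z U)

/-- TAIL (about 60 lines; uses MGF).  `ff s h a Z Z n U = sg s h a Z n U` (empty products).  Markov's inequality with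
`l = T / VS` and `l = -T / VS` (if `VS = 0` the bound is `2`; `P` is a probability measure, compare
`Pool/Agent/H50/BF/TAIL.lean`). -/
def S_TAIL : Prop := ∀ (Ω : Type) [MeasurableSpace Ω] (P : Measure Ω) (a : ℕ → Ω → ℕ), Model P a →
  ∀ (k : ℕ) (s h : Fin k → ℤ) (w Z n U : ℕ) (T : ℝ), 0 ≤ T → w ≤ Z → (∀ i, s i ≠ 0 ∧ |s i| ≤ w) →
    P {ω | T < |(sg s h (fun q => a q ω) Z n U : ℝ) - ff s h (fun q => a q ω) w Z n U|} ≤
      ENNReal.ofReal (2 * Real.exp (-(T ^ 2 / (2 * VS k w Z U))))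

/-- the level `(log N)^(2k+6)` -/
noncomputable def lw (k N : ℕ) : ℕ := ⌊Real.log N ^ (2 * k + 6)⌋₊

/-- concentration, for all constant terms of polynomial size and all long intervals at once -/
def Con {k : ℕ} (s : Fin k → ℤ) (a : ℕ → ℕ) : Prop := ∀ (A : ℕ) (κ : ℝ), 0 < κ → ∀ᶠ N : ℕ in atTop,
  ∀ (h : Fin k → ℤ) (n U Z : ℕ), (∀ i, |h i| ≤ (N : ℤ) ^ A) → n ≤ N ^ A → U ≤ N ^ A → Z ≤ N ^ A →
    lw k N ≤ Z → (Z : ℝ) * (N : ℝ) ^ κ ≤ (U : ℝ) ^ 2 →
    |(sg s h a Z n U : ℝ) - ff s h a (lw k N) Z n U| ≤ U / Real.log N ^ (k + 1)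

/-- CONC (about 180 lines; uses TAIL).
Proof.  There are countably many `(k, s, A)` and it is enough to treat `κ = 1/j` (`ae_all_iff`; the hypothesis
`Z N^κ ≤ U²` is stronger for larger `κ`); fix them.  TAIL with `w = lw k N` (so `max |s i| ≤ w` for large `N`) and
`T = U / (log N)^(k+1)`.  `(U/p + 1)² ≤ 2 U²/p² + 2` and `∑_{p>w} 1/p² ≤ 1/w`, so `VS ≤ 8 k² (U²/w + Z)`, and
`w ≥ (log N)^(2k+6) / 2`, `Z ≤ U² N^(-κ) ≤ U² / (log N)^(2k+6)`: `VS ≤ 24 k² U² / (log N)^(2k+6)` for large `N`, hence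
`T² / (2 VS) ≥ (log N)^4 / (48 k²)` if `VS > 0` (true if there is a prime in `(w, Z]` and `U > 0`; if `VS = 0` there is no prime in
`(w, Z]` (or `k = 0`; here `1 ≤ k`) and `sg = ff` exactly: same survivors, empty products; note `(U/p + 1)² ≥ 1`).  The number of the
`(h, n, U, Z)` is at most `(3 N^A + 3)^(k+3)`, so the sum over `N` of the probabilities of the bad events is finite
(`(log N)^4 / (48 k²) ≥ (A (k + 3) + 10) log N` for large `N`); Borel-Cantelli.  Compare `Pool/Agent/H50/BF/CONC.lean`. -/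
def S_CONC : Prop := ∀ (Ω : Type) [MeasurableSpace Ω] (P : Measure Ω) (a : ℕ → Ω → ℕ), Model P a →
  ∀ᵐ ω ∂P, ∀ (k : ℕ) (s : Fin k → ℤ), 1 ≤ k → (∀ i, s i ≠ 0) → Con s (fun q => a q ω)

/-- CEQ (about 200 lines; deterministic; elementary).  Let `w = lw k N`, `m = n + j + 1` in the interval.
Proof.  It is enough to show, for the primes `w < p` and every `m` of the interval, that
`∏_{w<p≤Z} (1 - num s h m p / p)` is between `(1 - ε)` and `(1 + ε)` times `∏_{w<p≤Z} (1 - 1/p)^k = (MM w / MM Z)^k`; then sum over the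
survivors.  `num s h m p ≤ k`, and `num s h m p = k` unless `p` divides some `s i * m + h i - (s j * m + h j)`,
`i < j`, which is a nonzero integer of absolute value `≤ 4 S N^(A+1)...` (`S = max |s i|`; any bound `N^(A+2)` for large `N`), so it has at
most `(A + 2) log N / log 2` prime factors: at most `k² (A + 2) log N / log 2` primes `p` are exceptional.
Upper bound: `1 - x/p ≤ (1 - 1/p)^x` for natural `x` (Bernoulli), so each factor is at most `(1 - 1/p)^k` times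
`(1 - 1/p)^(-(k - num)) ≤ exp (2 k / p)` for the exceptional `p` (`≥ w`), total at most `exp (2 k * k² (A+2) log N / (log 2 * w))`, which tends to 1
because `w ≥ (log N)^6 / 2`.  Lower bound: `1 - num / p ≥ 1 - k / p ≥ (1 - 1/p)^k (1 - C/p²)` for `p ≥ 2k` (e.g.
`(1 - 1/p)^k ≤ exp (-k/p)`, `1 - k/p ≥ exp (-k/p - (k/p)²)` for `k/p ≤ 1/2`), and `∑_{p>w} k²/p² ≤ k²/w → 0`. -/
def S_CEQ : Prop := ∀ (k : ℕ) (s : Fin k → ℤ), (∀ i, s i ≠ 0) → ∀ (A : ℕ) (ε : ℝ), 0 < ε → ∀ᶠ N : ℕ in atTop,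
  ∀ (h : Fin k → ℤ) (a : ℕ → ℕ) (n U Z : ℕ), (∀ i, |h i| ≤ (N : ℤ) ^ A) → n ≤ N ^ A → U ≤ N ^ A → lw k N ≤ Z →
    (∀ m : ℕ, n < m → m ≤ n + U → ∀ i j, i ≠ j → s i * (m : ℤ) + h i ≠ s j * (m : ℤ) + h j) →
    |ff s h a (lw k N) Z n U - sg s h a (lw k N) n U * (MM (lw k N) / MM Z) ^ k| ≤
      ε * (sg s h a (lw k N) n U * (MM (lw k N) / MM Z) ^ k)

/-- the singular series, truncated at `w` -/
noncomputable def SS {k : ℕ} (s h : Fin k → ℤ) (a : ℕ → ℕ) (w : ℕ) : ℝ :=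
  (∏ p ∈ (Finset.Icc 1 w).filter Nat.Prime, (1 - (nua s h a p : ℝ) / p)) * MM w ^ k

/-- SSL (about 120 lines; deterministic).  The singular series is zero or bounded below.
Proof.  Let `S = max |s i|` (or `∑ |s i|`).  For a prime `p > S` each `i` gives exactly one residue `r`, so `nua ≤ k`.  Let
`K = S + 2 k + 1`.  If some factor is zero, `SS = 0`.  Otherwise for `p ≤ K` the factor is `≥ 1/p ≥ 1/K` (`nua ≤ p - 1`), in total `≥ K^(-K)`
(and the factors `(1 - 1/p)^(-k)` of `MM w ^ k` are `≥ 1`);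
for `p > K`: `(1 - nua/p) (1 - 1/p)^(-k) ≥ (1 - k/p) exp (k/p) ≥ exp (-(k/p)²)` and `∑ k²/p² ≤ 2 k²`. -/
def S_SSL : Prop := ∀ (k : ℕ) (s : Fin k → ℤ), (∀ i, s i ≠ 0) → ∃ c0 : ℝ, 0 < c0 ∧
  ∀ (h : Fin k → ℤ) (a : ℕ → ℕ) (w : ℕ), SS s h a w = 0 ∨ c0 ≤ SS s h a w

/-- FLS (about 180 lines; uses GW.S_FND and SSL; deterministic).  The fundamental lemma.
Proof.  Fix `k, s`.  `Q p j`: there is `i` with `p ∣ s i * (n + j) + h i - a p` (periodic in `j` modulo `p`).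
The number of the classes `r < p` with `Q p r` is `nua s h a p` (translation by `n`; it is `≤ c = k + max |s i|`: for `p > max |s i|` it is
`≤ k`, for the others `≤ p`).  `sg s h a w n U = #{j ∈ [1, U] : ∀ p ≤ w, ¬ Q p j}` (`w = lw k N`).  GW.S_FND with `c`, `ε/2`, `y = w`,
`x = w^K`, `X = U` gives `|sg - U Π| ≤ (ε/2) U Π + w^(K/2)` with `Π = ∏_{p ≤ w} (1 - nua/p)`, and
`SS s h a w * (U / MM w ^ k) = U Π`.  If `Π = 0`, some `p ≤ w` has all classes bad, so `sg = 0`.  Otherwise `SS ≥ c0` (SSL), so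
`U Π ≥ c0 U / MM w ^ k ≥ c0 N^κ / (1 + w)^k` (`MM w ≤ 1 + w`: `MM w ≤ ∏_{2 ≤ j ≤ w} (1 - 1/j)⁻¹ = w`), which is larger than
`(2/ε) w^(K/2)` for large `N`, since `w ≤ (log N)^(2k+6)`. -/
def S_FLS : Prop := ∀ (k : ℕ) (s : Fin k → ℤ), (∀ i, s i ≠ 0) → ∀ (κ ε : ℝ), 0 < κ → 0 < ε → ∀ᶠ N : ℕ in atTop,
  ∀ (h : Fin k → ℤ) (a : ℕ → ℕ) (n U : ℕ), (N : ℝ) ^ κ ≤ U →
    |(sg s h a (lw k N) n U : ℝ) - SS s h a (lw k N) * (U / MM (lw k N) ^ k)| ≤
      ε * (SS s h a (lw k N) * (U / MM (lw k N) ^ k))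

/-- MAIN (about 150 lines; uses CEQ, FLS, SSL, BF.S_MERT; deterministic).
Proof.  `w = lw k N`.  `MM w ≤ C (1 + log w) < log N / 2 ≤ MM Z` for large `N` (MERT), so `w < Z` (`MM` is
nondecreasing).  `U² ≥ Z N^κ ≥ N^κ`, so `U ≥ N^(κ/2)`: FLS with `κ/2`.  Let `M = SS * (U / (log N)^k)`.
`ff = (1 + O(ε')) sg_w (MM w / MM Z)^k` (CEQ) `= (1 + O(ε')) SS (U / MM w ^ k) (MM w / MM Z)^k = (1 + O(ε')) SS U / MM Z ^ k
= (1 + O(ε')) M` if `δ` is small (`(log N / MM Z)^k` is near 1).  `|sg_Z - ff| ≤ U / (log N)^(k+1)` by `Con`, which is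
`≤ M / (c0 log N)` if `SS ≥ c0`.  If `SS = 0`: `sg_w = 0` by FLS and `sg_Z ≤ sg_w` (more primes). -/
def S_MAIN : Prop := ∀ (k : ℕ) (s : Fin k → ℤ), 1 ≤ k → (∀ i, s i ≠ 0) → ∀ a : ℕ → ℕ, Con s a →
  ∀ (A : ℕ) (κ ε : ℝ), 0 < κ → 0 < ε → ∃ δ : ℝ, 0 < δ ∧ ∀ᶠ N : ℕ in atTop,
  ∀ (h : Fin k → ℤ) (n U Z : ℕ), (∀ i, |h i| ≤ (N : ℤ) ^ A) → n ≤ N ^ A → U ≤ N ^ A → Z ≤ N ^ A →
    (Z : ℝ) * (N : ℝ) ^ κ ≤ (U : ℝ) ^ 2 → |MM Z / Real.log N - 1| ≤ δ →
    (∀ m : ℕ, n < m → m ≤ n + U → ∀ i j, i ≠ j → s i * (m : ℤ) + h i ≠ s j * (m : ℤ) + h j) →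
    |(sg s h a Z n U : ℝ) - SS s h a (lw k N) * (U / Real.log N ^ k)| ≤
      ε * (SS s h a (lw k N) * (U / Real.log N ^ k))

/-- the number of the representations of `N` as a sum of two different elements of `S` -/
noncomputable def reps (S : Set ℕ) (N : ℕ) : ℕ := Set.ncard {m : ℕ | m ∈ S ∧ N - m ∈ S ∧ 2 * m < N}

/-- GOLD (about 200 lines; uses MAIN, SSL, BF.S_MERT; deterministic).  Let `s = (1, -1)`, `h = (0, N)`, `k = 2`.
Proof.  Let `n = ⌊N / (log N)^4⌋`, `U` with `n + U = (N - 1) / 2` (integer division), so `U ~ N/2`, and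
`Z₁ = z n ≤ Z₂ = z N`.  For `n < m ≤ n + U` one has `n ≤ m < N - m ≤ N`, so `z m, z (N - m)` lie between `Z₁` and
`Z₂`: the number of the `m` of this interval with `m, N - m ∈ Rset a z` is between `sg s h a Z₂ n U` and `sg s h a Z₁ n U`
(the congruence `p ∣ 1 * m + 0 - a p` is `m % p = a p % p`).  `MM Z_i / log N → 1` by the hypothesis on `z`
(`log n / log N → 1`), and `Z_i ≤ N^(1+η)` for large `N` (`MM Z / log Z → e^γ > 1`, MERT, so `log Z_i ≤ log N (1 + η)`), hence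
`Z_i N^κ ≤ U²` with `κ = 1/2`; `A = 2`.  The values `m`, `N - m` are different.  MAIN gives both counts as `(1 + O(ε)) SS U / (log N)²`.
`nua s (0, N) a 2 = 1` for even `N` and `nua ≤ 2 < p` for `p ≥ 3`, so `SS ≠ 0` and `SS ≥ c0` by SSL.  The `m ≤ n`
contribute at most `n + 1 ≤ N / (log N)^4 + 1`.  So `reps * (log N)² / (N * SS) → 1/2`. -/
def S_GOLD : Prop := ∀ (a z : ℕ → ℕ), Monotone z → Tendsto (fun n : ℕ => MM (z n) / Real.log n) atTop (𝓝 1) →
  Con ![(1 : ℤ), -1] a →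
  Tendsto (fun N : ℕ => (reps (Rset a z) (2 * N) : ℝ) * Real.log (2 * N : ℕ) ^ 2 /
    ((2 * N : ℕ) * SS ![(1 : ℤ), -1] ![(0 : ℤ), (2 * N : ℕ)] a (lw 2 (2 * N)))) atTop (𝓝 (1 / 2))

/-- `T(n)` for a set `S` in place of the primes -/
noncomputable def TT (S : Set ℕ) (n : ℕ) : ℕ :=
  Set.ncard {p : ℕ | p ∈ S ∧ p + 2 ∈ S ∧ n ^ 3 < p ∧ p + 2 < (n + 1) ^ 3}

/-- CUBE (about 200 lines; uses MAIN, BF.S_MERT, GW.S_VLM; deterministic).  `s = (1, 1)`, `h = (0, 2)`, `k = 2`, `N = n³`, the interval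
`(n³, n³ + U]` with `U = 3 n² + 3 n - 2` (so `m + 2 < (n + 1)³`), levels `Z₁ = z (n³) ≤ Z₂ = z ((n+1)³)`; `MM Z_i / log N → 1`;
`Z_i ≤ N^(1+η)` (MERT as in GOLD), `U² ≥ N^(4/3)`, `κ = 1/6`.  Here `nua s h a 2 = 1`, `nua s h a p = 2` for `p ≥ 3` for every `a`, so `SS = VV` of the
form `GW.VV cc dd w` with `cc = ![1, 1]`, `dd = ![0, 2]` up to the definition of `nu` (same numbers), so `SS → V` is a hypothesis here. -/
def S_CUBE : Prop := ∀ (a z : ℕ → ℕ) (V : ℝ), Monotone z →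
  Tendsto (fun n : ℕ => MM (z n) / Real.log n) atTop (𝓝 1) → Con ![(1 : ℤ), 1] a → 0 < V →
  Tendsto (fun w : ℕ => SS ![(1 : ℤ), 1] ![(0 : ℤ), 2] a w) atTop (𝓝 V) →
  Tendsto (fun n : ℕ => (TT (Rset a z) n : ℝ) * Real.log n ^ 2 / (n : ℝ) ^ 2) atTop (𝓝 (V / 3))

end Pool.Agent.H50.BP
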