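import Pool.Agent.H50.BP.Stm

/-!
# Project BP: pairs of elements of the random sieve with given differences, in short intervals

Supplement to `Pool/Agent/H50/BP/Stm.lean`.
-/

set_option autoImplicit false

open MeasureTheory Filter ProbabilityTheory
open scoped Topology ENNReal

namespace Pool.Agent.H50.BP

open Pool.Agent.H50.BF

/-- INT (about 180 lines; uses MAIN, BF.S_MERT; deterministic).  Pairs `m, m + h` in short intervals, uniformly in `h`.
Proof.  MAIN with `k = 2`, `s = (1, 1)`, constant terms `(0, h)`, `N = n`, `A = 3`.  For `n < m ≤ n + U` one has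
`n ≤ m, m + h ≤ 3 n`, so the levels `z m`, `z (m + h)` lie between `Z₁ = z n` and `Z₂ = z (3 n)`, and the number in question is
between `sg s h a Z₂ n U` and `sg s h a Z₁ n U` (the congruence `p ∣ 1 * m + 0 - a p` is `m % p = a p % p`).  `MM Z_i / log n → 1`
(`log (3 n) / log n → 1`).  By MERT `MM Z / log Z → exp γ`, hence `log Z_i / log n → exp (-γ)` and
`Z_i ≤ n^(exp (-γ) + κ)` for large `n`, with `κ = (2 θ - exp (-γ)) / 3 > 0`, so `Z_i n^κ ≤ n^(2 θ) ≤ U²`.  The values `m`, `m + h` are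
different since `h ≥ 1`.  MAIN gives both counts as `(1 + O(ε)) SS U / (log n)²`. -/
def S_INT : Prop := ∀ (a z : ℕ → ℕ), Monotone z → Tendsto (fun n : ℕ => MM (z n) / Real.log n) atTop (𝓝 1) →
  Con ![(1 : ℤ), 1] a → ∀ (θ ε : ℝ), Real.exp (-Real.eulerMascheroniConstant) / 2 < θ → 0 < ε → ∀ᶠ n : ℕ in atTop,
  ∀ U h : ℕ, (n : ℝ) ^ θ ≤ U → U ≤ n → 1 ≤ h → h ≤ n →
    |(Set.ncard {m : ℕ | m ∈ Rset a z ∧ m + h ∈ Rset a z ∧ n < m ∧ m ≤ n + U} : ℝ) -
        SS ![(1 : ℤ), 1] ![(0 : ℤ), (h : ℤ)] a (lw 2 n) * (U / Real.log n ^ 2)| ≤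
      ε * (SS ![(1 : ℤ), 1] ![(0 : ℤ), (h : ℤ)] a (lw 2 n) * (U / Real.log n ^ 2))

end Pool.Agent.H50.BP
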